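import Mathlib

/-! MP_8a02cf_al: the affine (non-Conrad) right order. -/

namespace Pool.Agent.H12.CR

open MonoidAlgebra Polynomial

/-- `P` is the positive cone of a right order. -/
structure IsCone {G : Type*} [Group G] (P : Set G) : Prop where
  mul : ∀ {a b : G}, a ∈ P → b ∈ P → a * b ∈ P
  one : (1 : G) ∉ P
  tri : ∀ a : G, a ≠ 1 → a ∈ P ∨ a⁻¹ ∈ P

/-- The Conrad condition for the right order with positive cone `P`
(`f < g` iff `g * f⁻¹ ∈ P`). -/
def ConradCone {G : Type*} [Group G] (P : Set G) : Prop :=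
  ∀ f g : G, f ∈ P → g * f⁻¹ ∈ P → ∃ m : ℕ, 0 < m ∧ f * g ^ m * f⁻¹ * g⁻¹ ∈ P

/-- All right orders are Conrad. -/
def AllConrad (G : Type*) [Group G] : Prop :=
  ∀ P : Set G, IsCone P → ConradCone P

section Ext

variable {Q : Type*} [CommGroup Q] (μ : Q →* ℝ)

/-- evaluation of the group ring at a real character -/
noncomputable def ev : MonoidAlgebra ℤ Q →ₐ[ℤ] ℝ := MonoidAlgebra.lift ℤ ℝ Q μ

lemma ev_single (q : Q) (n : ℤ) : ev μ (MonoidAlgebra.single q n) = n * μ q := by
  simp [ev, MonoidAlgebra.lift_single]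

/-- extension of a functional -/
theorem exists_equivariant {A : Type*} [AddCommGroup A] (ρ : Q →* Module.End ℤ A)
    (hev : Function.Injective (ev μ)) (h : A)
    (hh : ∀ r : MonoidAlgebra ℤ Q, (MonoidAlgebra.lift ℤ (Module.End ℤ A) Q ρ r) h = 0 → r = 0) :
    ∃ φ : A →+ ℝ, (∀ q a, φ (ρ q a) = μ q * φ a) ∧ φ h = 1 := by
  let Λ := MonoidAlgebra ℤ Q
  let mA : Module Λ A := Module.compHom A (MonoidAlgebra.lift ℤ (Module.End ℤ A) Q ρ).toRingHom
  let mR : Module Λ ℝ := Module.compHom ℝ (ev μ).toRingHom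
  have sA : ∀ (r : Λ) (a : A), r • a = (MonoidAlgebra.lift ℤ (Module.End ℤ A) Q ρ r) a :=
    fun _ _ => rfl
  have sR : ∀ (r : Λ) (a : ℝ), r • a = ev μ r * a := fun _ _ => rfl
  have hB : Module.Baer Λ ℝ := by
    intro I g
    by_cases hI : ∃ a ∈ I, a ≠ 0
    · obtain ⟨a, ha, ha0⟩ := hI
      have hea : ev μ a ≠ 0 := by
        intro h0
        exact ha0 (hev (by rw [h0, map_zero]))
      refine ⟨{ toFun := fun s => ev μ s * (g ⟨a, ha⟩ / ev μ a)
                map_add' := ?_, map_smul' := ?_ }, ?_⟩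
      · intro s t; rw [map_add, add_mul]
      · intro s t
        simp only [smul_eq_mul, map_mul, RingHom.id_apply, sR]
        ring
      · intro b hb
        simp only [LinearMap.coe_mk, AddHom.coe_mk]
        have h1 : g (a • ⟨b, hb⟩) = g (b • ⟨a, ha⟩) := by
          congr 1
          apply Subtype.ext
          simp [mul_comm]
        rw [map_smul, map_smul, sR, sR] at h1
        field_simp
        linarith
    · push Not at hI
      refine ⟨0, ?_⟩
      intro b hb
      have : (⟨b, hb⟩ : I) = 0 := by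
        apply Subtype.ext
        simpa using hI b hb
      rw [this, map_zero]; rfl
  let f : Λ →ₗ[Λ] A := LinearMap.toSpanSingleton Λ A h
  have hf : Function.Injective f := by
    rw [injective_iff_map_eq_zero]
    intro r hr
    exact hh r hr
  let g : Λ →ₗ[Λ] ℝ := LinearMap.toSpanSingleton Λ ℝ 1
  obtain ⟨φ, hφ⟩ := Module.Baer.extension_property hB f hf g
  refine ⟨φ.toAddMonoidHom, ?_, ?_⟩
  · intro q a
    have h1 : φ ((MonoidAlgebra.single q (1 : ℤ) : Λ) • a) = (MonoidAlgebra.single q (1 : ℤ) : Λ) • φ a :=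
      map_smul _ _ _
    rw [sA, sR, ev_single, MonoidAlgebra.lift_single] at h1
    simpa using h1
  · have h1 := LinearMap.congr_fun hφ 1
    have h2 : φ ((1 : Λ) • h) = (1 : Λ) • (1 : ℝ) := h1
    rw [one_smul, one_smul] at h2
    exact h2

end Ext


/-! ### polynomials representing elements of the group ring of a subgroup of `ℚ` -/

section Poly

variable {Q : Subgroup (Multiplicative ℝ)}

/-- every element of the group ring of a group of rationals containing `1` is, up to a unit, a
polynomial in one element `y` with `y ^ k = 1`. -/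
theorem poly_rep (hQ : ∀ q : Q, ∃ a : ℚ, Multiplicative.toAdd (q : Multiplicative ℝ) = a)
    (one : Q) (hone : (one : Multiplicative ℝ) = Multiplicative.ofAdd 1)
    (r : MonoidAlgebra ℤ Q) :
    ∃ (y : Q) (k : ℕ) (u : Q) (R : ℤ[X]), 0 < k ∧ y ^ k = one ∧
      MonoidAlgebra.single u 1 * r = Polynomial.aeval (MonoidAlgebra.single y (1 : ℤ)) R := by
  classical
  choose a ha using hQ
  -- common denominator
  obtain ⟨N, hN0, hN⟩ : ∃ N : ℕ, 0 < N ∧ ∀ q ∈ r.coeff.support, ∃ b : ℤ, a q = b / N := by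
    refine ⟨∏ q ∈ r.coeff.support, (a q).den, Finset.prod_pos fun q _ => (a q).pos, ?_⟩
    intro q hq
    refine ⟨(a q).num * ∏ s ∈ r.coeff.support.erase q, ((a s).den : ℤ), ?_⟩
    rw [← Finset.mul_prod_erase _ _ hq]
    have h1 : ((a q).den : ℚ) ≠ 0 := by exact_mod_cast (a q).pos.ne'
    have h2 : ((∏ s ∈ r.coeff.support.erase q, (a s).den : ℕ) : ℚ) ≠ 0 := by
      exact_mod_cast (Finset.prod_pos fun s _ => (a s).pos).ne'
    push_cast at h2 ⊢
    rw [eq_div_iff (mul_ne_zero h1 h2), ← mul_assoc, Rat.mul_den_eq_num]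
  have hNR : (N : ℝ) ≠ 0 := by exact_mod_cast hN0.ne'
  let B : AddSubgroup ℤ :=
    { carrier := {n | Multiplicative.ofAdd ((n : ℝ) / N) ∈ Q}
      zero_mem' := by simp [Q.one_mem]
      add_mem' := by
        intro m n hm hn
        have : Multiplicative.ofAdd ((((m + n : ℤ)) : ℝ) / N) =
          Multiplicative.ofAdd ((m : ℝ) / N) * Multiplicative.ofAdd ((n : ℝ) / N) := by
            rw [← ofAdd_add]; congr 1; push_cast; ring
        show Multiplicative.ofAdd ((((m + n : ℤ)) : ℝ) / N) ∈ Q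
        rw [this]
        exact Q.mul_mem hm hn
      neg_mem' := by
        intro m hm
        have : Multiplicative.ofAdd ((((-m : ℤ)) : ℝ) / N) =
          (Multiplicative.ofAdd ((m : ℝ) / N))⁻¹ := by
            rw [← ofAdd_neg]; congr 1; push_cast; ring
        show Multiplicative.ofAdd ((((-m : ℤ)) : ℝ) / N) ∈ Q
        rw [this]
        exact Q.inv_mem hm }
  obtain ⟨g0, hg0⟩ := Int.subgroup_cyclic B
  have hB : B = AddSubgroup.zmultiples (|g0|) := by
    rw [hg0, ← AddSubgroup.zmultiples_eq_closure]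
    rcases abs_choice g0 with h | h
    · rw [h]
    · rw [h, AddSubgroup.zmultiples_neg]
  have hNB : (N : ℤ) ∈ B := by
    show Multiplicative.ofAdd ((((N : ℤ)) : ℝ) / N) ∈ Q
    have : ((((N : ℤ)) : ℝ) / N) = 1 := by push_cast; field_simp
    rw [this, ← hone]
    exact one.2
  obtain ⟨k, hk⟩ : ∃ k : ℤ, k * |g0| = N := by
    rw [hB] at hNB
    obtain ⟨k, hk⟩ := hNB
    exact ⟨k, by simpa using hk⟩
  have hg0' : 0 < |g0| := by
    rcases (abs_nonneg g0).lt_or_eq with h | h
    · exact h
    · rw [← h, mul_zero] at hk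
      exact absurd hk.symm (by exact_mod_cast hN0.ne')
  have hkpos : 0 < k := by
    have : 0 < k * |g0| := by rw [hk]; exact_mod_cast hN0
    exact (pos_iff_pos_of_mul_pos this).2 hg0'
  have hyB : |g0| ∈ B := by rw [hB]; exact AddSubgroup.mem_zmultiples _
  let y : Q := ⟨Multiplicative.ofAdd (((|g0| : ℤ) : ℝ) / N), hyB⟩
  have hypow : ∀ n : ℤ, ((y ^ n : Q) : Multiplicative ℝ)
      = Multiplicative.ofAdd (((n * |g0| : ℤ) : ℝ) / N) := by
    intro n
    rw [Subgroup.coe_zpow]
    show (Multiplicative.ofAdd (((|g0| : ℤ) : ℝ) / N)) ^ n = _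
    rw [← ofAdd_zsmul]
    congr 1
    simp only [zsmul_eq_mul]
    push_cast
    ring
  -- exponents
  have hexp : ∀ q : Q, ∃ b : ℤ, q ∈ r.coeff.support → q = y ^ b := by
    intro q
    by_cases hq : q ∈ r.coeff.support
    · obtain ⟨b, hb⟩ := hN q hq
      have hqB : b ∈ B := by
        show Multiplicative.ofAdd ((b : ℝ) / N) ∈ Q
        have : Multiplicative.ofAdd ((b : ℝ) / N) = (q : Multiplicative ℝ) := by
          apply Multiplicative.toAdd.injective
          rw [ha q, hb]
          simp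
        rw [this]; exact q.2
      rw [hB] at hqB
      obtain ⟨c, hc⟩ := hqB
      refine ⟨c, fun _ => ?_⟩
      apply Subtype.ext
      rw [hypow]
      apply Multiplicative.toAdd.injective
      rw [ha q, hb]
      have : c * |g0| = b := by simpa using hc
      rw [this]
      simp
    · exact ⟨0, fun h => absurd h hq⟩
  choose b hb using hexp
  let M : ℕ := ∑ q ∈ r.coeff.support, (b q).natAbs
  have hM : ∀ q ∈ r.coeff.support, 0 ≤ b q + M := by
    intro q hq
    have h1 : (b q).natAbs ≤ M := Finset.single_le_sum (f := fun q => (b q).natAbs)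
      (fun _ _ => Nat.zero_le _) hq
    omega
  refine ⟨y, k.toNat, y ^ M, ∑ q ∈ r.coeff.support, Polynomial.C (r.coeff q) * X ^ (b q + M).toNat, ?_, ?_, ?_⟩
  · omega
  · apply Subtype.ext
    have := hypow k
    have hk' : ((k.toNat : ℕ) : ℤ) = k := Int.toNat_of_nonneg hkpos.le
    rw [← hk', zpow_natCast] at this
    rw [this, hone, hk', hk]
    congr 1
    push_cast
    field_simp
  · have hr : r = ∑ q ∈ r.coeff.support, MonoidAlgebra.single q (r.coeff q) := (MonoidAlgebra.sum_coeff_single r).symm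
    conv_lhs => rw [hr]
    rw [Finset.mul_sum, map_sum]
    apply Finset.sum_congr rfl
    intro q hq
    rw [MonoidAlgebra.single_mul_single, one_mul, map_mul, Polynomial.aeval_C, map_pow,
      Polynomial.aeval_X, MonoidAlgebra.single_pow, one_pow]
    have e1 : y ^ M * q = y ^ (b q + M).toNat := by
      conv_lhs => rw [hb q hq]
      rw [← zpow_natCast, ← zpow_natCast, ← zpow_add, Int.toNat_of_nonneg (hM q hq), add_comm]
    rw [e1, eq_intCast (algebraMap ℤ (MonoidAlgebra ℤ Q)), ← zsmul_eq_mul, MonoidAlgebra.smul_single]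
    simp

end Poly


/-! ### the affine order -/

section Final

variable {Y : Type*} [Group Y] (θ : Y →* Multiplicative ℝ)

/-- the conjugation action of `Y` on the abelianization of `ker θ` -/
noncomputable def conjAb : Y →* Module.End ℤ (Additive (Abelianization θ.ker)) where
  toFun y := (MonoidHom.toAdditive (Abelianization.map
    (MulAut.conjNormal y : θ.ker ≃* θ.ker).toMonoidHom)).toIntLinearMap
  map_one' := by
    apply LinearMap.ext
    intro a
    obtain ⟨a, rfl⟩ := Additive.ofMul.surjective a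
    obtain ⟨k, rfl⟩ := QuotientGroup.mk_surjective a
    show Additive.ofMul (Abelianization.of (MulAut.conjNormal (1 : Y) k)) = _
    rw [map_one]; rfl
  map_mul' := by
    intro y y'
    apply LinearMap.ext
    intro a
    obtain ⟨a, rfl⟩ := Additive.ofMul.surjective a
    obtain ⟨k, rfl⟩ := QuotientGroup.mk_surjective a
    show Additive.ofMul (Abelianization.of (MulAut.conjNormal (y * y') k)) =
      Additive.ofMul (Abelianization.of (MulAut.conjNormal y (MulAut.conjNormal y' k)))
    rw [map_mul]; rfl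

/-- the canonical map from the kernel to its abelianization, additively -/
def iota (k : θ.ker) : Additive (Abelianization θ.ker) := Additive.ofMul (Abelianization.of k)

lemma iota_mul (k k' : θ.ker) : iota θ (k * k') = iota θ k + iota θ k' := by
  simp [iota]

lemma conjAb_iota (y : Y) (k : θ.ker) : conjAb θ y (iota θ k) = iota θ (MulAut.conjNormal y k) :=
  rfl

lemma conjAb_ker (y : Y) (hy : y ∈ θ.ker) : conjAb θ y = 1 := by
  apply LinearMap.ext
  intro a
  obtain ⟨a, rfl⟩ := Additive.ofMul.surjective a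
  obtain ⟨k, rfl⟩ := QuotientGroup.mk_surjective a
  have : (MulAut.conjNormal y k : θ.ker) = ⟨y, hy⟩ * k * (⟨y, hy⟩ : θ.ker)⁻¹ := by
    apply Subtype.ext; simp
  have e : (Abelianization.of (MulAut.conjNormal y k) : Abelianization θ.ker) =
      Abelianization.of k := by
    rw [this, map_mul, map_mul, map_inv, mul_comm (Abelianization.of (⟨y, hy⟩ : θ.ker)) _,
      mul_inv_cancel_right]
  exact congrArg Additive.ofMul e

/-- the action of the range of `θ` -/
noncomputable def rho : θ.range →* Module.End ℤ (Additive (Abelianization θ.ker)) :=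
  (QuotientGroup.lift θ.ker (conjAb θ) (fun y hy => conjAb_ker θ y hy)).comp
    (QuotientGroup.quotientKerEquivRange θ).symm.toMonoidHom

lemma rho_apply (y : Y) : rho θ ⟨θ y, ⟨y, rfl⟩⟩ = conjAb θ y := by
  have h1 : (QuotientGroup.quotientKerEquivRange θ).symm ⟨θ y, ⟨y, rfl⟩⟩ =
      (QuotientGroup.mk y : Y ⧸ θ.ker) := by
    rw [MulEquiv.symm_apply_eq]; rfl
  show (QuotientGroup.lift θ.ker (conjAb θ) (fun y hy => conjAb_ker θ y hy))
    ((QuotientGroup.quotientKerEquivRange θ).symm ⟨θ y, ⟨y, rfl⟩⟩) = _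
  rw [h1]
  rfl

lemma exists_transcendental_gt_two : ∃ l : ℝ, 2 < l ∧ Transcendental ℤ l := by
  obtain ⟨n, hn⟩ := exists_nat_gt (2 - liouvilleNumber 2)
  refine ⟨liouvilleNumber 2 + n, by linarith, ?_⟩
  intro h
  have h2 : Transcendental ℤ (liouvilleNumber ((2 : ℕ) : ℝ)) :=
    transcendental_liouvilleNumber (le_refl 2)
  apply h2
  have h3 := h.sub (isAlgebraic_natCast (R := ℤ) (A := ℝ) n)
  simpa using h3

/-- the character `exp (-c q)` of a group of reals -/
noncomputable def chr (c : ℝ) (Q : Subgroup (Multiplicative ℝ)) : Q →* ℝ where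
  toFun q := Real.exp (-c * Multiplicative.toAdd (q : Multiplicative ℝ))
  map_one' := by simp
  map_mul' := by
    intro a b
    rw [← Real.exp_add]
    congr 1
    simp only [Subgroup.coe_mul, toAdd_mul]
    ring

theorem affine_contra (P : Set Y) (hP : IsCone P) (hC : AllConrad Y)
    (hrat : ∀ y, ∃ q : ℚ, Multiplicative.toAdd (θ y) = q) (x : Y)
    (hx : θ x = Multiplicative.ofAdd 1) (h : θ.ker)
    (hfree : ∀ (y : Y) (k : ℕ), 0 < k → θ y ^ k = Multiplicative.ofAdd 1 → ∀ R : ℤ[X], R ≠ 0 →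
      ∃ ψ : θ.ker →* Multiplicative ℝ,
        R.sum (fun i c => (c : ℝ) * Multiplicative.toAdd (ψ (MulAut.conjNormal (y ^ i) h))) ≠ 0) :
    False := by
  classical
  obtain ⟨l, hl2, hltr⟩ := exists_transcendental_gt_two
  have hl0 : 0 < l := by linarith
  have hc : 0 < Real.log l := Real.log_pos (by linarith)
  set c := Real.log l with hcdef
  have hexpc : Real.exp c = l := Real.exp_log hl0
  let one : θ.range := ⟨θ x, ⟨x, rfl⟩⟩
  have hone : (one : Multiplicative ℝ) = Multiplicative.ofAdd 1 := hx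
  have hQ : ∀ q : θ.range, ∃ a : ℚ, Multiplicative.toAdd (q : Multiplicative ℝ) = a := by
    rintro ⟨_, y, rfl⟩
    exact hrat y
  let μ := chr c θ.range
  -- injectivity of the evaluation
  have hev : Function.Injective (ev μ) := by
    rw [injective_iff_map_eq_zero]
    intro r hr
    obtain ⟨y, k, u, R, hk, hyk, hR⟩ := poly_rep hQ one hone r
    have h1 : Polynomial.aeval (μ y) R = 0 := by
      have h2 : ev μ (MonoidAlgebra.single u 1 * r) = 0 := by rw [map_mul, hr, mul_zero]
      rw [hR, ← Polynomial.aeval_algHom_apply, ev_single] at h2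
      simpa using h2
    by_cases hR0 : R = 0
    · rw [hR0, map_zero] at hR
      have h3 : (MonoidAlgebra.single u⁻¹ (1 : ℤ)) * (MonoidAlgebra.single u 1 * r) = 0 := by
        rw [hR, mul_zero]
      rw [← mul_assoc, MonoidAlgebra.single_mul_single] at h3
      simpa [← MonoidAlgebra.one_def] using h3
    · exfalso
      have halg : IsAlgebraic ℤ (μ y) := ⟨R, hR0, h1⟩
      have h4 : μ y ^ k = l⁻¹ := by
        rw [← map_pow, hyk]
        show Real.exp (-c * Multiplicative.toAdd (one : Multiplicative ℝ)) = l⁻¹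
        rw [hone]
        simp [Real.exp_neg, hexpc]
      have h5 : IsAlgebraic ℤ (l⁻¹) := by rw [← h4]; exact halg.pow k
      apply hltr
      have := h5.inv
      rwa [inv_inv] at this
  have hh : ∀ r : MonoidAlgebra ℤ θ.range,
      (MonoidAlgebra.lift ℤ (Module.End ℤ (Additive (Abelianization θ.ker))) θ.range (rho θ) r)
        (iota θ h) = 0 → r = 0 := by
    intro r hr
    obtain ⟨y, k, u, R, hk, hyk, hR⟩ := poly_rep hQ one hone r
    set Lf := MonoidAlgebra.lift ℤ (Module.End ℤ (Additive (Abelianization θ.ker))) θ.range (rho θ)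
      with hLf
    have h2 : Lf (MonoidAlgebra.single u 1 * r) (iota θ h) = 0 := by
      rw [map_mul]
      show Lf (MonoidAlgebra.single u 1) (Lf r (iota θ h)) = 0
      rw [hr, map_zero]
    rw [hR, ← Polynomial.aeval_algHom_apply] at h2
    have h3 : Lf (MonoidAlgebra.single y 1) = rho θ y := by
      rw [hLf, MonoidAlgebra.lift_single, one_smul]
    rw [h3] at h2
    by_cases hR0 : R = 0
    · rw [hR0, map_zero] at hR
      have h3 : (MonoidAlgebra.single u⁻¹ (1 : ℤ)) * (MonoidAlgebra.single u 1 * r) = 0 := by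
        rw [hR, mul_zero]
      rw [← mul_assoc, MonoidAlgebra.single_mul_single] at h3
      simpa [← MonoidAlgebra.one_def] using h3
    · exfalso
      obtain ⟨⟨v, ⟨y0, hy0⟩⟩, rfl⟩ : ∃ q : θ.range, q = y := ⟨y, rfl⟩
      subst hy0
      have hk1 : θ y0 ^ k = Multiplicative.ofAdd 1 := by
        have := congrArg (Subtype.val) hyk
        rw [hone] at this
        exact this
      obtain ⟨ψ, hψ⟩ := hfree y0 k hk hk1 R hR0
      apply hψ
      let ψ' : Additive (Abelianization θ.ker) →+ ℝ :=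
        MonoidHom.toAdditiveLeft (Abelianization.lift ψ)
      have hψ' : ∀ k, ψ' (iota θ k) = Multiplicative.toAdd (ψ k) := fun k => rfl
      have h4 := congrArg ψ' h2
      rw [map_zero, Polynomial.aeval_eq_sum_range, LinearMap.sum_apply, map_sum] at h4
      rw [Polynomial.sum_over_range _ (by intro n; simp)]
      rw [← h4]
      apply Finset.sum_congr rfl
      intro i _
      rw [LinearMap.smul_apply, map_zsmul, ← map_pow]
      have h5 : (⟨θ y0, ⟨y0, rfl⟩⟩ : θ.range) ^ i = ⟨θ (y0 ^ i), ⟨y0 ^ i, rfl⟩⟩ := by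
        apply Subtype.ext
        simp
      rw [h5, rho_apply, conjAb_iota, hψ', zsmul_eq_mul]
  obtain ⟨φ, hφ1, hφ2⟩ := exists_equivariant μ (rho θ) hev (iota θ h) hh
  -- the functional on the kernel
  let f : θ.ker → ℝ := fun k => φ (iota θ k)
  have f_mul : ∀ k k', f (k * k') = f k + f k' := by
    intro k k'
    show φ (iota θ (k * k')) = _
    rw [iota_mul, map_add]
  have f_one : f 1 = 0 := by
    have := f_mul 1 1
    rw [mul_one] at this
    linarith
  have f_inv : ∀ k, f k⁻¹ = - f k := by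
    intro k
    have := f_mul k k⁻¹
    rw [mul_inv_cancel, f_one] at this
    linarith
  let E : Y → ℝ := fun y => Real.exp (c * Multiplicative.toAdd (θ y))
  have E_pos : ∀ y, 0 < E y := fun y => Real.exp_pos _
  have E_mul : ∀ y y', E (y * y') = E y * E y' := by
    intro y y'
    show Real.exp _ = Real.exp _ * Real.exp _
    rw [← Real.exp_add, map_mul, toAdd_mul]
    congr 1
    ring
  have E_x : E x = l := by
    show Real.exp _ = l
    rw [hx]
    simp [hexpc]
  have E_one : E 1 = 1 := by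
    show Real.exp _ = 1
    simp
  have E_inv : ∀ y, E y⁻¹ = (E y)⁻¹ := by
    intro y
    have := E_mul y y⁻¹
    rw [mul_inv_cancel, E_one] at this
    exact (eq_inv_of_mul_eq_one_right this.symm)
  have f_conj : ∀ (y : Y) (k : θ.ker), f (MulAut.conjNormal y⁻¹ k) = E y * f k := by
    intro y k
    have h1 := hφ1 ⟨θ y⁻¹, ⟨y⁻¹, rfl⟩⟩ (iota θ k)
    rw [rho_apply, conjAb_iota] at h1
    show φ (iota θ (MulAut.conjNormal y⁻¹ k)) = _
    rw [h1]
    congr 1
    show Real.exp (-c * Multiplicative.toAdd (θ y⁻¹)) = Real.exp (c * Multiplicative.toAdd (θ y))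
    rw [map_inv, toAdd_inv]
    congr 1
    ring
  have hcomm : ∀ y : Y, y⁻¹ * x⁻¹ * y * x ∈ θ.ker := by
    intro y
    rw [MonoidHom.mem_ker]
    simp only [map_mul, map_inv]
    rw [mul_comm ((θ y)⁻¹ * (θ x)⁻¹) (θ y), ← mul_assoc, mul_inv_cancel, one_mul, inv_mul_cancel]
  let z : Y → ℝ := fun y => f ⟨y⁻¹ * x⁻¹ * y * x, hcomm y⟩
  have z_mul : ∀ y y', z (y * y') = E y' * z y + z y' := by
    intro y y'
    have h1 : (⟨(y * y')⁻¹ * x⁻¹ * (y * y') * x, hcomm (y * y')⟩ : θ.ker) =
        MulAut.conjNormal y'⁻¹ ⟨y⁻¹ * x⁻¹ * y * x, hcomm y⟩ * ⟨y'⁻¹ * x⁻¹ * y' * x, hcomm y'⟩ := by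
      apply Subtype.ext
      simp only [Subgroup.coe_mul, MulAut.conjNormal_apply]
      group
    show f _ = _
    rw [h1, f_mul, f_conj]
  have z_x : z x = 0 := by
    have h1 : (⟨x⁻¹ * x⁻¹ * x * x, hcomm x⟩ : θ.ker) = 1 := by
      apply Subtype.ext
      simp
    show f _ = 0
    rw [h1, f_one]
  have z_one : z 1 = 0 := by
    have := z_mul 1 1
    rw [mul_one, E_one] at this
    linarith
  have z_inv : ∀ y, z y⁻¹ = - (E y)⁻¹ * z y := by
    intro y
    have := z_mul y y⁻¹
    rw [mul_inv_cancel, z_one, E_inv] at this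
    linarith
  have z_ker : ∀ k : θ.ker, z (k : Y) = (l - 1) * f k := by
    intro k
    have h1 : (⟨(k : Y)⁻¹ * x⁻¹ * k * x, hcomm k⟩ : θ.ker) = k⁻¹ * MulAut.conjNormal x⁻¹ k := by
      apply Subtype.ext
      simp only [Subgroup.coe_mul, MulAut.conjNormal_apply, Subgroup.coe_inv, inv_inv]
      group
    show f _ = _
    rw [h1, f_mul, f_inv, f_conj, E_x]
    ring
  have f_h : f h = 1 := hφ2
  -- the cone
  let Pc : Set Y := {y | 0 < z y ∨ (z y = 0 ∧ (0 < Multiplicative.toAdd (θ y) ∨
    (Multiplicative.toAdd (θ y) = 0 ∧ y ∈ P)))}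
  have hPc : IsCone Pc := by
    refine ⟨?_, ?_, ?_⟩
    · intro a b ha hb
      show 0 < z (a * b) ∨ (z (a * b) = 0 ∧ (0 < Multiplicative.toAdd (θ (a * b)) ∨
        (Multiplicative.toAdd (θ (a * b)) = 0 ∧ a * b ∈ P)))
      rw [z_mul, map_mul, toAdd_mul]
      rcases ha with ha | ⟨ha, ha'⟩
      · left
        have h1 : 0 < E b * z a := mul_pos (E_pos b) ha
        have h2 : 0 ≤ z b := by
          rcases hb with hb | ⟨hb, _⟩
          · exact hb.le
          · exact hb.ge
        linarith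
      · rw [ha, mul_zero, zero_add]
        rcases hb with hb | ⟨hb, hb'⟩
        · left; exact hb
        · right
          refine ⟨hb, ?_⟩
          rcases ha' with ha' | ⟨ha', ha''⟩
          · left
            rcases hb' with hb' | ⟨hb', _⟩
            · linarith
            · linarith
          · rcases hb' with hb' | ⟨hb', hb''⟩
            · left; linarith
            · right
              exact ⟨by linarith, hP.mul ha'' hb''⟩
    · intro h1
      rcases h1 with h1 | ⟨_, h1 | ⟨_, h1⟩⟩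
      · rw [z_one] at h1; exact lt_irrefl _ h1
      · simp at h1
      · exact hP.one h1
    · intro a ha
      show (0 < z a ∨ (z a = 0 ∧ (0 < Multiplicative.toAdd (θ a) ∨
        (Multiplicative.toAdd (θ a) = 0 ∧ a ∈ P)))) ∨ (0 < z a⁻¹ ∨ (z a⁻¹ = 0 ∧
        (0 < Multiplicative.toAdd (θ a⁻¹) ∨ (Multiplicative.toAdd (θ a⁻¹) = 0 ∧ a⁻¹ ∈ P))))
      rw [z_inv, map_inv, toAdd_inv]
      have hE := inv_pos.2 (E_pos a)
      rcases lt_trichotomy (z a) 0 with h1 | h1 | h1
      · right; left
        nlinarith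
      · rw [h1]
        rcases lt_trichotomy (Multiplicative.toAdd (θ a)) 0 with h2 | h2 | h2
        · right; right
          exact ⟨by simp, Or.inl (by linarith)⟩
        · rcases hP.tri a ha with h3 | h3
          · left; right; exact ⟨rfl, Or.inr ⟨h2, h3⟩⟩
          · right; right; exact ⟨by simp, Or.inr ⟨by rw [h2]; simp, h3⟩⟩
        · left; right; exact ⟨rfl, Or.inl h2⟩
      · left; left; exact h1
  -- the witness
  let g : Y := (h : Y) * x⁻¹
  have hzh : z (h : Y) = l - 1 := by rw [z_ker, f_h, mul_one]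
  have hEg : E g = l⁻¹ := by
    show E ((h : Y) * x⁻¹) = _
    rw [E_mul, E_inv, E_x]
    have : E (h : Y) = 1 := by
      show Real.exp _ = 1
      rw [MonoidHom.mem_ker.1 h.2]
      simp
    rw [this, one_mul]
  have hzg : z g = l⁻¹ * (l - 1) := by
    show z ((h : Y) * x⁻¹) = _
    rw [z_mul, z_inv, z_x, E_inv, E_x, hzh]
    ring
  have hf : x ∈ Pc := Or.inr ⟨z_x, Or.inl (by rw [hx]; simp)⟩
  have hgf : g * x⁻¹ ∈ Pc := by
    left
    rw [z_mul, z_inv, z_x, E_inv, E_x, hzg]
    have h1 : 0 < l⁻¹ := inv_pos.2 hl0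
    have h2 : 0 < l - 1 := by linarith
    have h3 : 0 < l⁻¹ * (l⁻¹ * (l - 1)) := by positivity
    linarith
  obtain ⟨m, hm, hm2⟩ := hC Pc hPc x g hf hgf
  have hpow : ∀ n : ℕ, z (g ^ n) < 1 := by
    intro n
    induction n with
    | zero => rw [pow_zero, z_one]; exact zero_lt_one
    | succ n ih =>
      rw [pow_succ, z_mul, hEg, hzg]
      have h1 : 0 < l⁻¹ := inv_pos.2 hl0
      have h2 : l⁻¹ * l = 1 := inv_mul_cancel₀ hl0.ne'
      nlinarith
  have hw : x * g ^ m * x⁻¹ * g⁻¹ = (x * g ^ m) * (h : Y)⁻¹ := by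
    show x * g ^ m * x⁻¹ * ((h : Y) * x⁻¹)⁻¹ = _
    group
  have hzw : z (x * g ^ m * x⁻¹ * g⁻¹) < 0 := by
    rw [hw, z_mul, z_mul, z_x, z_inv, hzh]
    have hEh : E (h : Y) = 1 := by
      show Real.exp _ = 1
      rw [MonoidHom.mem_ker.1 h.2]
      simp
    rw [E_inv, hEh]
    have := hpow m
    simp only [inv_one, mul_zero, zero_add, one_mul, neg_mul]
    linarith
  rcases hm2 with h1 | ⟨h1, _⟩
  · linarith
  · linarith

end Final

end Pool.Agent.H12.CR
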