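import Pool.Agent.H12.CR.Uni

/-! MP_8a02cf_al: powers of the elements of the kernel of a real character. -/

set_option linter.unusedSectionVars false
set_option linter.style.haveILetI false

namespace Pool.Agent.H12.CR

open scoped commutatorElement
open Polynomial

/-- (PW) modulo a normal subgroup -/
theorem pw_mod {Y : Type*} [Group Y] (M : Subgroup Y) [M.Normal] {c : ℕ}
    (hc : (⊤ : Subgroup Y).lowerCentralSeries c ≤ M) (H : Subgroup Y)
    (hH : ∀ φ : Y →* Multiplicative ℝ, (∀ m ∈ M, φ m = 1) → (∀ h ∈ H, φ h = 1) → φ = 1) (k : Y) :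
    ∃ n : ℕ, 0 < n ∧ ∃ u ∈ H, u⁻¹ * k ^ n ∈ M := by
  have h1 : (⊤ : Subgroup (Y ⧸ M)).lowerCentralSeries c = ⊥ := by
    rw [← Subgroup.map_top_of_surjective _ (QuotientGroup.mk'_surjective M),
      ← Subgroup.map_lowerCentralSeries, Subgroup.map_eq_bot_iff, QuotientGroup.ker_mk']
    exact hc
  obtain ⟨n, hn, u, hu, h2⟩ := pw c (Y ⧸ M) h1 (H.map (QuotientGroup.mk' M)) (by
    intro φ hφ
    have h3 := hH (φ.comp (QuotientGroup.mk' M)) (by
      intro m hm
      show φ (m : Y ⧸ M) = 1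
      rw [(QuotientGroup.eq_one_iff m).2 hm, map_one]) (by
      intro h hh
      exact hφ _ ⟨h, hh, rfl⟩)
    ext x
    exact congrArg Multiplicative.toAdd (DFunLike.congr_fun h3 x)) (k : Y ⧸ M)
  refine ⟨n, hn, u, hu, ?_⟩
  rw [← QuotientGroup.eq]
  exact h2

section Act

variable {Y : Type*} [Group Y] {θ : Y →* Multiplicative ℝ}

/-- iterated commutators with `x` -/
def ddK (x : Y) (h : θ.ker) : ℕ → θ.ker
  | 0 => h
  | j + 1 => MulAut.conjNormal x (ddK x h j) * (ddK x h j)⁻¹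

lemma ddK_eval (x : Y) (h : θ.ker) : ∀ (j : ℕ) (ψ : VV θ),
    ψ (Additive.ofMul (ddK x h j)) = ((TT θ x - 1) ^ j) ψ (Additive.ofMul h) := by
  intro j
  induction j with
  | zero => intro ψ; rfl
  | succ j ih =>
    intro ψ
    rw [pow_succ, Module.End.mul_apply, ← ih]
    show ψ (Additive.ofMul (MulAut.conjNormal x (ddK x h j) * (ddK x h j)⁻¹)) = _
    rw [VV_mul, VV_inv, LinearMap.sub_apply, AddMonoidHom.sub_apply, TT_apply]
    show _ = ψ (Additive.ofMul (MulAut.conjNormal x (ddK x h j))) - ψ (Additive.ofMul (ddK x h j))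
    ring

lemma ddK_mem (x : Y) (h : θ.ker) {N : Subgroup Y} (hxN : ∀ n ∈ N, x * n * x⁻¹ ∈ N)
    (hh : (h : Y) ∈ N) (j : ℕ) : (ddK x h j : Y) ∈ N := by
  induction j with
  | zero => exact hh
  | succ j ih =>
    show (MulAut.conjNormal x (ddK x h j) : Y) * ((ddK x h j : Y))⁻¹ ∈ N
    rw [MulAut.conjNormal_apply]
    exact N.mul_mem (hxN _ ih) (N.inv_mem ih)

lemma all_poly {x : Y} {ψ : VV θ} {h : θ.ker}
    (H : ∀ i : ℕ, ((TT θ x - 1) ^ i) ψ (Additive.ofMul h) = 0) (P : ℝ[X]) :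
    aeval (TT θ x) P ψ (Additive.ofMul h) = 0 := by
  rw [aeval_eq_comp, aeval_eq_sum_range, LinearMap.sum_apply, AddMonoidHom.finsetSum_apply]
  apply Finset.sum_eq_zero
  intro i _
  rw [LinearMap.smul_apply]
  show _ * ((TT θ x - 1) ^ i) ψ (Additive.ofMul h) = 0
  rw [H i, mul_zero]

lemma all_zpow {x : Y} {ψ : VV θ} {h : θ.ker} {j : ℕ} (hψ : ψ ∈ WW θ j)
    (H : ∀ i : ℕ, ((TT θ x - 1) ^ i) ψ (Additive.ofMul h) = 0) (z : ℤ) :
    TT θ (x ^ z) ψ (Additive.ofMul h) = 0 := by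
  rcases Int.eq_nat_or_neg z with ⟨n, rfl | rfl⟩
  · rw [zpow_natCast, TT_pow]
    have := all_poly H (X ^ n)
    rwa [map_pow, aeval_X] at this
  · obtain ⟨A, hA⟩ := exists_inv (TT θ x) ψ j (WW_nil x j ψ hψ) (X ^ n) (by simp)
    have h1 : TT θ (x ^ (-(n : ℤ))) ψ = aeval (TT θ x) A ψ := by
      conv_lhs => rw [← hA]
      rw [map_mul, Module.End.mul_apply, map_pow, aeval_X, ← TT_pow, ← Module.End.mul_apply,
        ← TT_mul, zpow_neg, zpow_natCast, mul_inv_cancel, TT_one]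
      rfl
    rw [h1]
    exact all_poly H A

lemma kill_F {x : Y} (hx : θ x = Multiplicative.ofAdd 1) {S : Set Y} (hSK : ∀ h ∈ S, θ h = 1)
    {ψ : VV θ}
    (H : ∀ h : θ.ker, (h : Y) ∈ S → ∀ z : ℤ, TT θ (x ^ z) ψ (Additive.ofMul h) = 0) :
    ∀ f : θ.ker, (f : Y) ∈ Subgroup.closure (insert x S) → ψ (Additive.ofMul f) = 0 := by
  have key : ∀ f ∈ Subgroup.closure (insert x S), ∃ z : ℤ, ∃ a : θ.ker, f = a * x ^ z ∧
      ∀ w : ℤ, TT θ (x ^ w) ψ (Additive.ofMul a) = 0 := by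
    intro f hf
    induction hf using Subgroup.closure_induction with
    | mem s hs =>
      rcases hs with rfl | hs
      · exact ⟨1, 1, by simp, fun w => by rw [ofMul_one, map_zero]⟩
      · exact ⟨0, ⟨s, hSK s hs⟩, by simp, fun w => H ⟨s, hSK s hs⟩ hs w⟩
    | one => exact ⟨0, 1, by simp, fun w => by rw [ofMul_one, map_zero]⟩
    | mul f f' hf hf' ih ih' =>
      obtain ⟨z, a, rfl, ha⟩ := ih
      obtain ⟨z', a', rfl, ha'⟩ := ih'
      refine ⟨z + z', a * MulAut.conjNormal (x ^ z) a', ?_, ?_⟩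
      · rw [Subgroup.coe_mul, MulAut.conjNormal_apply, zpow_add]; group
      · intro w
        rw [VV_mul, ha w, zero_add, ← TT_apply, ← Module.End.mul_apply, ← TT_mul, ← zpow_add]
        exact ha' _
    | inv f hf ih =>
      obtain ⟨z, a, rfl, ha⟩ := ih
      refine ⟨-z, MulAut.conjNormal (x ^ (-z)) a⁻¹, ?_, ?_⟩
      · rw [MulAut.conjNormal_apply]
        show ((a : Y) * x ^ z)⁻¹ = x ^ (-z) * (a : Y)⁻¹ * (x ^ (-z))⁻¹ * x ^ (-z)
        group
      · intro w
        rw [← TT_apply, ← Module.End.mul_apply, ← TT_mul, ← zpow_add, VV_inv, ha, neg_zero]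
  intro f hf
  obtain ⟨z, a, hfa, ha⟩ := key _ hf
  have h1 : θ (f : Y) = 1 := f.2
  rw [hfa, map_mul, map_zpow, hx, MonoidHom.mem_ker.1 a.2, one_mul, ← ofAdd_zsmul] at h1
  have h2 : (z • (1 : ℝ)) = 0 := h1
  have h3 : z = 0 := by simpa using h2
  subst h3
  have h4 : f = a := by
    apply Subtype.ext
    rw [hfa, zpow_zero, mul_one]
  have h5 := ha 0
  rw [zpow_zero, TT_one] at h5
  rw [h4]
  exact h5

/-- Case 1 of the key proposition -/
theorem case1 (hC : AllConrad Y) {P : Set Y} (hP : IsCone P)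
    (hrat : ∀ y : Y, ∃ q : ℚ, Multiplicative.toAdd (θ y) = q) (x : Y)
    (hx : θ x = Multiplicative.ofAdd 1) {S : Set Y} (hS : S.Finite) (hSK : ∀ h ∈ S, θ h = 1)
    (hF : RCDense (Subgroup.closure (insert x S))) {N : Subgroup Y} (hSN : S ⊆ N)
    (hxN : ∀ n ∈ N, x * n * x⁻¹ ∈ N) :
    ∃ T : Set Y, T.Finite ∧ T ⊆ N ∧ ∀ D : Subgroup Y, D.Normal →
      (∃ c, (⊤ : Subgroup Y).lowerCentralSeries c ≤ D) → ∀ k ∈ θ.ker,
        ∃ n : ℕ, 0 < n ∧ ∃ u ∈ Subgroup.closure T, u⁻¹ * k ^ n ∈ D := by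
  classical
  let S' : Set θ.ker := {h | (h : Y) ∈ S}
  have hS' : S'.Finite := hS.preimage Subtype.val_injective.injOn
  have hU := fun h : θ.ker => uni hC hP hrat x hx h
  choose m hm using hU
  let M : ℕ := hS'.toFinset.sup m
  have hM : ∀ h ∈ S', m h ≤ M := fun h hh => Finset.le_sup (by simpa using hh)
  let T : Set Y := Set.image2 (fun (h : θ.ker) (i : ℕ) => (ddK x h i : Y)) S' (Set.Iio M)
  refine ⟨T, hS'.image2 _ (Set.finite_Iio M), ?_, ?_⟩
  · rintro _ ⟨h, hh, i, hi, rfl⟩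
    exact ddK_mem x h hxN (hSN hh) i
  rintro D hD ⟨c, hc⟩ k hk
  -- functionals killing `T`
  have kill : ∀ ψ : VV θ, (∀ a : θ.ker, (a : Y) ∈ D → ψ (Additive.ofMul a) = 0) →
      (∀ a : θ.ker, (a : Y) ∈ T → ψ (Additive.ofMul a) = 0) → ψ = 0 := by
    intro ψ hψD hψT
    have hW : ψ ∈ WW θ c := fun a ha => hψD a (hc ha)
    have h1 : ∀ h : θ.ker, (h : Y) ∈ S → ∀ i : ℕ, ((TT θ x - 1) ^ i) ψ (Additive.ofMul h) = 0 := by
      intro h hh i
      by_cases hi : i < M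
      · rw [← ddK_eval]
        exact hψT _ ⟨h, hh, i, hi, rfl⟩
      · obtain ⟨d, rfl⟩ : ∃ d, i = m h + d :=
          ⟨i - m h, by have := hM h hh; omega⟩
        rw [pow_add, Module.End.mul_apply]
        apply hm h c
        have h2 : (TT θ x - 1) ^ d = aeval (TT θ x) ((X - 1 : ℝ[X]) ^ d) := by simp
        rw [h2]
        exact WW_aeval hW x _
    have h2 := kill_F hx hSK (ψ := ψ) (fun h hh z => all_zpow hW (h1 h hh) z)
    -- powers in `F`
    haveI : (D ⊓ θ.ker).Normal := inferInstance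
    have h3 : (⊤ : Subgroup Y).lowerCentralSeries (c + 1) ≤ D ⊓ θ.ker := by
      apply le_inf
      · exact (Subgroup.lowerCentralSeries_antitone _ (Nat.le_succ c)).trans hc
      · refine (Subgroup.lowerCentralSeries_antitone _ (Nat.le_add_left 1 c)).trans ?_
        rw [Subgroup.top_lowerCentralSeries_one, commutator_def, Subgroup.commutator_le]
        intro a _ b _
        rw [MonoidHom.mem_ker, map_commutatorElement, commutatorElement_def]
        rw [mul_comm (θ a), mul_assoc, mul_assoc, mul_inv_cancel_left, mul_inv_cancel]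
    apply VV_ext
    intro a
    obtain ⟨n, hn, u, hu, hun⟩ := pw_mod (D ⊓ θ.ker) h3 (Subgroup.closure (insert x S))
      (fun φ _ hφ => hF.hom_eq_one φ hφ) (a : Y)
    have hu' : u ∈ θ.ker := by
      have h4 : u = a ^ n * (u⁻¹ * a ^ n)⁻¹ := by group
      rw [h4]
      exact θ.ker.mul_mem (θ.ker.pow_mem a.2 n) (θ.ker.inv_mem hun.2)
    have h5 := h2 ⟨u, hu'⟩ hu
    have h6 := hψD (⟨u, hu'⟩⁻¹ * a ^ n) hun.1
    rw [VV_mul, VV_inv, VV_pow, h5] at h6
    have h7 : (n : ℝ) * ψ (Additive.ofMul a) = 0 := by linarith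
    have h8 : (n : ℝ) ≠ 0 := by exact_mod_cast hn.ne'
    have h9 := (mul_eq_zero.1 h7).resolve_left h8
    rw [h9]; rfl
  -- apply (PW) in the kernel
  haveI : (D.subgroupOf θ.ker).Normal := inferInstance
  have h10 : (⊤ : Subgroup θ.ker).lowerCentralSeries c ≤ D.subgroupOf θ.ker := by
    intro a ha
    rw [Subgroup.mem_subgroupOf]
    apply hc
    apply Subgroup.lowerCentralSeries_mono c (le_top : θ.ker ≤ ⊤)
    show (a : Y) ∈ (θ.ker).lowerCentralSeries c
    rw [← Subgroup.top_subtype_lowerCentralSeries]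
    exact ⟨a, ha, rfl⟩
  obtain ⟨n, hn, u, hu, hun⟩ := pw_mod (D.subgroupOf θ.ker) h10
    ((Subgroup.closure T).subgroupOf θ.ker) (by
      intro φ hφD hφT
      let ψ : VV θ := AddMonoidHom.mk' (fun a => Multiplicative.toAdd (φ a.toMul)) (by
        intro a b
        rw [toMul_add, map_mul, toAdd_mul])
      have h11 := kill ψ (fun a ha => by
        show Multiplicative.toAdd (φ a) = 0
        rw [hφD a ha]; rfl) (fun a ha => by
        show Multiplicative.toAdd (φ a) = 0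
        rw [hφT a (Subgroup.subset_closure ha)]; rfl)
      ext a
      show Multiplicative.toAdd (φ a) = 0
      exact DFunLike.congr_fun h11 (Additive.ofMul a)) (⟨k, hk⟩ : θ.ker)
  exact ⟨n, hn, u, hu, hun⟩

end Act

end Pool.Agent.H12.CR
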