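import Pool.Agent.H12.CR.Nil

/-! MP_8a02cf_al: archimedean classes, left-normed commutators. -/

set_option linter.unusedSectionVars false
set_option linter.style.haveILetI false

namespace Pool.Agent.H12.CR

open scoped commutatorElement

section LN

variable {Y : Type*} [Group Y]

/-- left-normed commutators of weight `n + 1` in `S` -/
def LNS (S : Set Y) : ℕ → Set Y
  | 0 => S
  | n + 1 => Set.image2 (fun c s => ⁅c, s⁆) (LNS S n) S

lemma LNS_zero (S : Set Y) : LNS S 0 = S := rfl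

lemma mem_LNS_succ {S : Set Y} {n : ℕ} {y : Y} :
    y ∈ LNS S (n + 1) ↔ ∃ c ∈ LNS S n, ∃ s ∈ S, ⁅c, s⁆ = y := Iff.rfl

lemma LNS_finite {S : Set Y} (hS : S.Finite) (n : ℕ) : (LNS S n).Finite := by
  induction n with
  | zero => exact hS
  | succ n ih => exact ih.image2 _ hS

lemma LNS_subset_lcs (S : Set Y) (n : ℕ) :
    LNS S n ⊆ (Subgroup.closure S).lowerCentralSeries n := by
  induction n with
  | zero => exact Subgroup.subset_closure
  | succ n ih =>
    rintro _ ⟨c, hc, s, hs, rfl⟩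
    exact Subgroup.commutator_mem_commutator (ih hc) (Subgroup.subset_closure hs)

/-- if the left-normed commutators of weight `n + 1` lie in `D` then so does the term of the lower
central series -/
lemma lcs_le_of_LNS (S : Set Y) : ∀ (n : ℕ) (D : Subgroup Y),
    (∀ f ∈ Subgroup.closure S, ∀ d ∈ D, f * d * f⁻¹ ∈ D) → LNS S n ⊆ D →
      (Subgroup.closure S).lowerCentralSeries n ≤ D := by
  intro n
  induction n with
  | zero =>
    intro D _ h
    exact (Subgroup.closure_le _).2 h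
  | succ n ih =>
    intro D hD h
    let F := Subgroup.closure S
    let D₁ : Subgroup Y :=
      { carrier := {g | g ∈ F ∧ ∀ f ∈ F, ⁅g, f⁆ ∈ D}
        one_mem' := ⟨F.one_mem, fun f _ => by rw [commutatorElement_one_left]; exact D.one_mem⟩
        mul_mem' := by
          rintro a b ⟨ha, ha'⟩ ⟨hb, hb'⟩
          refine ⟨F.mul_mem ha hb, fun f hf => ?_⟩
          have h1 : ⁅a * b, f⁆ = a * ⁅b, f⁆ * a⁻¹ * ⁅a, f⁆ := by
            rw [commutatorElement_def, commutatorElement_def, commutatorElement_def]; group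
          rw [h1]
          exact D.mul_mem (hD a ha _ (hb' f hf)) (ha' f hf)
        inv_mem' := by
          rintro a ⟨ha, ha'⟩
          refine ⟨F.inv_mem ha, fun f hf => ?_⟩
          have h1 : ⁅a⁻¹, f⁆ = a⁻¹ * ⁅a, f⁆⁻¹ * a⁻¹⁻¹ := by
            rw [commutatorElement_def, commutatorElement_def]; group
          rw [h1]
          exact hD a⁻¹ (F.inv_mem ha) _ (D.inv_mem (ha' f hf)) }
    have h1 : F.lowerCentralSeries n ≤ D₁ := by
      apply ih D₁
      · rintro f hf d ⟨hd, hd'⟩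
        refine ⟨F.mul_mem (F.mul_mem hf hd) (F.inv_mem hf), fun f' hf' => ?_⟩
        have h1 : ⁅f * d * f⁻¹, f'⁆ = f * ⁅d, f⁻¹ * f' * f⁆ * f⁻¹ := by
          rw [commutatorElement_def, commutatorElement_def]; group
        rw [h1]
        exact hD f hf _ (hd' _ (F.mul_mem (F.mul_mem (F.inv_mem hf) hf') hf))
      · intro c hc
        have hcF : c ∈ F := Subgroup.lowerCentralSeries_le_self _ _ (LNS_subset_lcs S n hc)
        refine ⟨hcF, ?_⟩
        intro f hf
        induction hf using Subgroup.closure_induction with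
        | mem s hs => exact h ⟨c, hc, s, hs, rfl⟩
        | one => rw [commutatorElement_one_right]; exact D.one_mem
        | mul x y hx hy ihx ihy =>
          have h1 : ⁅c, x * y⁆ = ⁅c, x⁆ * (x * ⁅c, y⁆ * x⁻¹) := by
            rw [commutatorElement_def, commutatorElement_def, commutatorElement_def]; group
          rw [h1]
          exact D.mul_mem ihx (hD x hx _ ihy)
        | inv x hx ihx =>
          have h1 : ⁅c, x⁻¹⁆ = x⁻¹ * ⁅c, x⁆⁻¹ * x⁻¹⁻¹ := by
            rw [commutatorElement_def, commutatorElement_def]; group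
          rw [h1]
          exact hD x⁻¹ (Subgroup.inv_mem _ hx) _ (D.inv_mem ihx)
    rw [Subgroup.lowerCentralSeries_succ, Subgroup.commutator_le]
    intro g hg f hf
    exact (h1 hg).2 f hf

end LN

section Cls

variable {Y : Type*} [Group Y] [LinearOrder Y] [MulLeftMono Y] [MulRightMono Y]

/-- the archimedean class of `u`, encoded by the set of much smaller elements -/
def cls (u : Y) : Set Y := {h | Sm h u}

lemma cls_subset {u v : Y} (h : Sm v u) : cls v ⊆ cls u := fun _ hw => Sm.trans hw h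

lemma cls_ne {u v : Y} (h : Sm v u) : cls v ≠ cls u := by
  intro e
  have h1 : v ∈ cls u := h
  rw [← e] at h1
  exact not_sm_self v h1

lemma cls_eq_of_not {u v : Y} (h1 : ¬ Sm u v) (h2 : ¬ Sm v u) : cls u = cls v := by
  have key : ∀ {u v : Y}, ¬ Sm u v → ¬ Sm v u → cls u ⊆ cls v := by
    intro u v h1 h2 h hh k
    unfold Sm at h1 h2
    push Not at h1 h2
    obtain ⟨n, hn⟩ := h1
    obtain ⟨m, hm⟩ := h2
    by_contra hcon
    rw [not_lt] at hcon
    have h3 : |u|ₘ ≤ |h|ₘ ^ (k * m) := by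
      rw [pow_mul]
      exact hm.trans (pow_le_pow_left' hcon m)
    exact absurd (hh (k * m)) (not_lt.2 h3)
  exact Set.Subset.antisymm (key h1 h2) (key h2 h1)

lemma sm_or (u v : Y) : Sm u v ∨ Sm v u ∨ cls u = cls v := by
  by_cases h1 : Sm u v
  · left; exact h1
  · by_cases h2 : Sm v u
    · right; left; exact h2
    · right; right; exact cls_eq_of_not h1 h2

lemma cls_inv (u : Y) : cls u⁻¹ = cls u := by
  ext h
  show (∀ n : ℕ, |h|ₘ ^ n < |u⁻¹|ₘ) ↔ (∀ n : ℕ, |h|ₘ ^ n < |u|ₘ)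
  rw [mabs_inv']

lemma cls_pow (u : Y) {n : ℕ} (hn : 0 < n) : cls (u ^ n) = cls u := by
  apply cls_eq_of_not
  · intro h
    have := h 1
    rw [pow_one, mabs_pow'] at this
    have h1 : |u|ₘ ≤ |u|ₘ ^ n := by
      conv_lhs => rw [← pow_one (|u|ₘ)]
      exact pow_le_pow_right' (one_le_mabs' u) hn
    exact absurd this (not_lt.2 h1)
  · intro h
    have := h n
    rw [mabs_pow'] at this
    exact lt_irrefl _ this

lemma cls_zpow (u : Y) {z : ℤ} (hz : z ≠ 0) : cls (u ^ z) = cls u := by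
  rcases Int.natAbs_eq z with h | h
  · rw [h, zpow_natCast]; exact cls_pow u (Int.natAbs_pos.2 hz)
  · rw [h, zpow_neg, cls_inv, zpow_natCast]; exact cls_pow u (Int.natAbs_pos.2 hz)

lemma Sm.of_cls_eq_left {u u' v : Y} (h : Sm u v) (e : cls u = cls u') : Sm u' v := by
  rcases sm_or u' v with h1 | h1 | h1
  · exact h1
  · exfalso
    have h2 := Sm.trans h h1
    have : u ∈ cls u' := h2
    rw [← e] at this
    exact not_sm_self u this
  · exfalso
    have : u ∈ cls v := h
    rw [← h1, ← e] at this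
    exact not_sm_self u this

lemma Sm.of_cls_eq_right {u v v' : Y} (h : Sm u v) (e : cls v = cls v') : Sm u v' := by
  have : u ∈ cls v := h
  rw [e] at this
  exact this

lemma cls_mul_of_sm {u w : Y} (h : Sm w u) : cls (u * w) = cls u := by
  apply cls_eq_of_not
  · intro h1
    have h2 := h1 2
    have h3 := h.le_sq
    rw [← pow_two] at h3
    exact absurd h2 (not_lt.2 h3)
  · intro h1
    have h2 := h1 2
    have h3 : |u * w|ₘ ≤ |u|ₘ * |u|ₘ := mabs_mul_le _ _ le_rfl h.lt.le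
    rw [← pow_two] at h3
    exact absurd h2 (not_lt.2 h3)

lemma Cvx.sm' {D : Subgroup Y} (h : Cvx D) {d a : Y} (hd : d ∈ D) (ha : a ∉ D) {n : ℕ}
    (hn : 0 < n) : Sm d (a ^ n) := by
  apply Sm.of_cls_eq_right (h.sm hd ha)
  exact (cls_pow a hn).symm

/-- an element outside a convex subgroup has the class of any of its approximate powers -/
lemma Cvx.cls_eq {D : Subgroup Y} (h : Cvx D) {a u : Y} (ha : a ∉ D) {n : ℕ} (hn : 0 < n)
    (hu : u⁻¹ * a ^ n ∈ D) : cls u = cls a := by
  have h1 : (u⁻¹ * a ^ n)⁻¹ ∈ D := D.inv_mem hu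
  have h2 : u = a ^ n * (u⁻¹ * a ^ n)⁻¹ := by group
  rw [h2, cls_mul_of_sm (h.sm' h1 ha hn), cls_pow a hn]

/-- finitely many archimedean classes -/
def FinCls (H : Set Y) : Prop := (cls '' H).Finite

lemma FinCls.mono {H H' : Set Y} (h : FinCls H') (hle : H ⊆ H') : FinCls H :=
  Set.Finite.subset h (Set.image_mono hle)

/-- the chain argument -/
lemma LNS_chain (hc : Central Y) {S : Set Y} {D : Subgroup Y} (hD : D.Normal) {C : Set (Set Y)}
    (hfin : C.Finite) (h : ∀ n, ∀ c ∈ LNS S (n + 1), c ∉ D → cls c ∈ C) :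
    LNS S (C.ncard + 1) ⊆ D := by
  have key : ∀ n, ∀ c ∈ LNS S (n + 1), c ∉ D → n + 1 ≤ {B ∈ C | cls c ⊆ B}.ncard := by
    intro n
    induction n with
    | zero =>
      intro c hc' hcD
      have h1 : cls c ∈ {B ∈ C | cls c ⊆ B} := ⟨h 0 c hc' hcD, subset_rfl⟩
      have h2 : {B ∈ C | cls c ⊆ B}.Finite := hfin.subset (Set.sep_subset _ _)
      rw [zero_add]
      exact (Set.ncard_pos h2).2 ⟨_, h1⟩
    | succ n ih =>
      intro c' hc' hcD'
      have h0 := hc'
      obtain ⟨c, hcc, s, hs, rfl⟩ := hc'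
      show n + 1 + 1 ≤ {B ∈ C | cls ⁅c, s⁆ ⊆ B}.ncard
      change ⁅c, s⁆ ∉ D at hcD'
      have hcD : c ∉ D := by
        intro h1
        apply hcD'
        rw [commutatorElement_def, mul_assoc, mul_assoc, ← mul_assoc s]
        exact D.mul_mem h1 (hD.conj_mem _ (D.inv_mem h1) s)
      have hc1 : c ≠ 1 := by rintro rfl; exact hcD D.one_mem
      have hsm := hc.sm hc1 s
      have h1 := ih c hcc hcD
      have h2 : {B ∈ C | cls c ⊆ B} ⊆ {B ∈ C | cls ⁅c, s⁆ ⊆ B} :=
        fun B hB => ⟨hB.1, (cls_subset hsm).trans hB.2⟩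
      have h3 : cls ⁅c, s⁆ ∈ {B ∈ C | cls ⁅c, s⁆ ⊆ B} := ⟨h _ _ h0 hcD', subset_rfl⟩
      have h4 : cls ⁅c, s⁆ ∉ {B ∈ C | cls c ⊆ B} := by
        rintro ⟨_, h5⟩
        exact not_sm_self _ (h5 (show ⁅c, s⁆ ∈ cls c from hsm))
      have h6 : {B ∈ C | cls ⁅c, s⁆ ⊆ B}.Finite := hfin.subset (Set.sep_subset _ _)
      have h7 : {B ∈ C | cls c ⊆ B} ⊂ {B ∈ C | cls ⁅c, s⁆ ⊆ B} :=
        (Set.ssubset_iff_of_subset h2).2 ⟨_, h3, h4⟩
      have h8 := Set.ncard_lt_ncard h7 h6
      omega
  intro c hc'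
  by_contra hcon
  have h1 := key _ c hc' hcon
  have h2 : {B ∈ C | cls c ⊆ B}.ncard ≤ C.ncard := Set.ncard_le_ncard (Set.sep_subset _ _) hfin
  omega

/-- a finitely generated subgroup, the terms of whose lower central series are uniformly
controlled, is nilpotent -/
lemma nilpotent_of_chain (hc : Central Y) {S : Set Y} (hS : S.Finite) {C : Set (Set Y)}
    (hfin : C.Finite)
    (h : ∀ D : Subgroup Y, Cvx D → (∃ m, (Subgroup.closure S).lowerCentralSeries m ≤ D) →
      ∀ n, ∀ c ∈ LNS S (n + 1), c ∉ D → cls c ∈ C) :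
    ∃ m, (Subgroup.closure S).lowerCentralSeries m = ⊥ := by
  have h0 : ∀ D : Subgroup Y, Cvx D → (∃ m, (Subgroup.closure S).lowerCentralSeries m ≤ D) →
      LNS S (C.ncard + 1) ⊆ D := fun D hD hm => LNS_chain hc (hD.normal hc) hfin (h D hD hm)
  by_cases hL : LNS S (C.ncard + 1) ⊆ ((⊥ : Subgroup Y) : Set Y)
  · refine ⟨C.ncard + 1, ?_⟩
    rw [eq_bot_iff]
    refine lcs_le_of_LNS S _ ⊥ ?_ hL
    intro f _ d hd
    rw [Subgroup.mem_bot] at hd ⊢
    rw [hd]; group
  · exfalso
    obtain ⟨u₀, hu₀, hu₀'⟩ := Set.not_subset.1 hL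
    have hne : (LNS S (C.ncard + 1)).Nonempty := ⟨u₀, hu₀⟩
    obtain ⟨u, hu, humax⟩ := Set.exists_max_image _ (fun a => |a|ₘ) (LNS_finite hS _) hne
    have hu1 : u ≠ 1 := by
      rintro rfl
      have h1 := humax u₀ hu₀
      simp only [mabs_one'] at h1
      apply hu₀'
      by_contra h2
      exact absurd (one_lt_mabs' (fun h3 => h2 (by rw [h3]; exact Subgroup.one_mem _))) (not_lt.2 h1)
    have hsub : LNS S (C.ncard + 1 + 1) ⊆ smSub u hu1 := by
      rintro _ ⟨c, hcc, s, hs, rfl⟩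
      by_cases hc1 : c = 1
      · rw [hc1]
        show ⁅(1 : Y), s⁆ ∈ smSub u hu1
        rw [commutatorElement_one_left]
        exact Subgroup.one_mem _
      · exact (hc.sm hc1 s).of_le_right (humax c hcc)
    have hcv := smSub_cvx u hu1
    have hnorm := hcv.normal hc
    have h1 : (Subgroup.closure S).lowerCentralSeries (C.ncard + 1 + 1) ≤ smSub u hu1 :=
      lcs_le_of_LNS S _ _ (fun f _ d hd => hnorm.conj_mem d hd f) hsub
    exact self_not_mem_smSub u hu1 (h0 _ hcv ⟨_, h1⟩ hu)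

/-- finitely generated subgroups with finitely many classes are nilpotent -/
lemma FinCls.nilpotent (hc : Central Y) {F : Subgroup Y} (hF : FinCls (F : Set Y)) :
    Group.IsNilpotent F := by
  rw [Subgroup.isNilpotent_iff_lowerCentralSeries]
  have h1 : LNS (F : Set Y) ((cls '' (F : Set Y)).ncard + 1) ⊆ (⊥ : Subgroup Y) := by
    apply LNS_chain hc (inferInstance : (⊥ : Subgroup Y).Normal) hF
    intro n c hcc _
    refine ⟨c, ?_, rfl⟩
    have := LNS_subset_lcs (F : Set Y) (n + 1) hcc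
    rw [Subgroup.closure_eq] at this
    exact Subgroup.lowerCentralSeries_le_self _ _ this
  refine ⟨(cls '' (F : Set Y)).ncard + 1, ?_⟩
  rw [eq_bot_iff]
  have h2 := lcs_le_of_LNS (F : Set Y) _ ⊥ (by
    intro f _ d hd
    rw [Subgroup.mem_bot] at hd ⊢
    rw [hd]; group) h1
  rwa [Subgroup.closure_eq] at h2

end Cls

end Pool.Agent.H12.CR
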