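import Mathlib

/-! MP_8a02cf_al: the definitions used in the final statement. -/

namespace Pool.Agent.H12.CR

universe u

/-- `le` is a right order on the group `G`: a total order on `G` such that `x ≤ y` implies
`x z ≤ y z`. -/
structure IsRightOrder {G : Type u} [Group G] (le : G → G → Prop) : Prop where
  refl : ∀ x : G, le x x
  antisymm : ∀ x y : G, le x y → le y x → x = y
  trans : ∀ x y z : G, le x y → le y z → le x z
  total : ∀ x y : G, le x y ∨ le y x
  mul_right : ∀ x y z : G, le x y → le (x * z) (y * z)

/-- `G` is orderable: it has a right order which is also invariant under left multiplication. -/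
def Orderable (G : Type u) [Group G] : Prop :=
  ∃ le : G → G → Prop, IsRightOrder le ∧ ∀ x y z : G, le x y → le (z * x) (z * y)

/-- The Conrad condition: whenever `1 < f < g` there is a positive integer `m` with
`g < f g ^ m f⁻¹`. -/
def IsConrad {G : Type u} [Group G] (le : G → G → Prop) : Prop :=
  ∀ f g : G, (le 1 f ∧ 1 ≠ f) → (le f g ∧ f ≠ g) →
    ∃ m : ℕ, 0 < m ∧ (le g (f * g ^ m * f⁻¹) ∧ g ≠ f * g ^ m * f⁻¹)

/-- Every right order on `G` is a Conrad right order. -/
def AllRightOrdersConrad (G : Type u) [Group G] : Prop :=
  ∀ le : G → G → Prop, IsRightOrder le → IsConrad le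

/-- The class of elementary amenable groups: the smallest class of groups which contains the finite
groups and the commutative groups and is closed under subgroups, quotients, extensions and directed
unions. In particular it contains all soluble and all locally soluble groups. -/
inductive ElementaryAmenable : (G : Type u) → [Group G] → Prop
  | of_finite (G : Type u) [Group G] [Finite G] : ElementaryAmenable G
  | of_comm (G : Type u) [Group G] (h : ∀ a b : G, a * b = b * a) : ElementaryAmenable G
  | of_injective {G H : Type u} [Group G] [Group H] (f : G →* H) (hf : Function.Injective f)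
      (h : ElementaryAmenable H) : ElementaryAmenable G
  | of_surjective {G H : Type u} [Group G] [Group H] (f : G →* H) (hf : Function.Surjective f)
      (h : ElementaryAmenable G) : ElementaryAmenable H
  | of_extension {G : Type u} [Group G] (N : Subgroup G) [N.Normal]
      (h₁ : ElementaryAmenable N) (h₂ : ElementaryAmenable (G ⧸ N)) : ElementaryAmenable G
  | of_directed {G : Type u} [Group G] {ι : Type u} [Nonempty ι] (H : ι → Subgroup G)
      (hd : Directed (· ≤ ·) H) (hs : ∀ g : G, ∃ i, g ∈ H i)
      (h : ∀ i, ElementaryAmenable (H i)) : ElementaryAmenable G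

end Pool.Agent.H12.CR
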