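import Pool.Agent.H12.CR.End
import Pool.Agent.H12.CR.Defs

/-! MP_8a02cf_al: elementary amenable subgroups. -/

set_option linter.unusedSectionVars false
set_option linter.style.haveILetI false

namespace Pool.Agent.H12.CR

open scoped commutatorElement

universe u

section EA

variable (G : Type u) [Group G] [LinearOrder G] [MulLeftMono G] [MulRightMono G]

/-- extensions of good subgroups by `Q` are good -/
def PP (Q : Type u) [Group Q] : Prop :=
  ∀ (H : Subgroup G) (f : H →* Q), Gd (f.ker.map H.subtype) → Gd H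

variable {G}

lemma pp_finite (Q : Type u) [Group Q] [Finite Q] : PP G Q := by
  intro H f hf
  apply hf.of_finite
  have h1 : (f.ker.map H.subtype).subgroupOf H = f.ker :=
    Subgroup.comap_map_eq_self_of_injective (Subgroup.subtype_injective H) _
  unfold Subgroup.relIndex
  rw [h1, Subgroup.index_ker]
  exact Nat.card_pos.ne'

lemma pp_comm (hC : AllConrad G) (Q : Type u) [Group Q] (h : ∀ a b : Q, a * b = b * a) :
    PP G Q := by
  intro H f hf
  apply hf.of_comm hC (Subgroup.map_subtype_le _)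
  intro a ha b hb
  refine ⟨⟨a, ha⟩ * ⟨b, hb⟩ * ⟨a, ha⟩⁻¹ * ⟨b, hb⟩⁻¹, ?_, rfl⟩
  show f (⟨a, ha⟩ * ⟨b, hb⟩ * ⟨a, ha⟩⁻¹ * ⟨b, hb⟩⁻¹) = 1
  rw [map_mul, map_mul, map_mul, map_inv, map_inv, h (f ⟨a, ha⟩), mul_assoc (f ⟨b, hb⟩),
    mul_inv_cancel, mul_one, mul_inv_cancel]

lemma pp_sub {Q : Type u} [Group Q] (M : Subgroup Q) (hM : PP G M) (H : Subgroup G) (f : H →* Q)
    (hf : Gd (f.ker.map H.subtype)) : Gd ((M.comap f).map H.subtype) := by
  set H' := (M.comap f).map H.subtype with hH'
  have hle : H' ≤ H := Subgroup.map_subtype_le _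
  let f₁ : H' →* Q := f.comp (Subgroup.inclusion hle)
  have hf₁ : ∀ h : H', f₁ h ∈ M := by
    rintro ⟨_, k, hk, rfl⟩
    exact hk
  apply hM H' (f₁.codRestrict M hf₁)
  apply hf.mono
  rintro _ ⟨h, hh, rfl⟩
  refine ⟨Subgroup.inclusion hle h, ?_, rfl⟩
  exact congrArg Subtype.val (show f₁.codRestrict M hf₁ h = 1 from hh)

lemma pp_ext {Q : Type u} [Group Q] (M : Subgroup Q) [M.Normal] (h₁ : PP G M)
    (h₂ : PP G (Q ⧸ M)) : PP G Q := by
  intro H f hf
  apply h₂ H ((QuotientGroup.mk' M).comp f)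
  have h3 : ((QuotientGroup.mk' M).comp f).ker = M.comap f := by
    rw [← MonoidHom.comap_ker, QuotientGroup.ker_mk']
  rw [h3]
  exact pp_sub M h₁ H f hf

lemma pp_dir {Q : Type u} [Group Q] {ι : Type u} [Nonempty ι] (K : ι → Subgroup Q)
    (hd : Directed (· ≤ ·) K) (hs : ∀ q : Q, ∃ i, q ∈ K i) (h : ∀ i, PP G (K i)) : PP G Q := by
  intro H f hf
  apply Gd.of_directed (fun i => ((K i).comap f).map H.subtype)
  · intro i j
    obtain ⟨k, hik, hjk⟩ := hd i j
    exact ⟨k, Subgroup.map_mono (Subgroup.comap_mono hik),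
      Subgroup.map_mono (Subgroup.comap_mono hjk)⟩
  · intro i
    exact pp_sub (K i) (h i) H f hf
  · intro x hx
    obtain ⟨i, hi⟩ := hs (f ⟨x, hx⟩)
    exact ⟨i, ⟨⟨x, hx⟩, hi, rfl⟩⟩

variable (G) in
/-- all sections of `Q` have the property `PP` -/
def Sec (Q : Type u) [Group Q] : Prop :=
  ∀ (R : Type u) [Group R] (i : R →* Q), Function.Injective i →
    ∀ (S : Type u) [Group S] (p : R →* S), Function.Surjective p → PP G S

lemma sec_surj {Q Q' : Type u} [Group Q] [Group Q'] (f : Q →* Q') (hf : Function.Surjective f)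
    (h : Sec G Q) : Sec G Q' := by
  intro R _ i hi S _ p hp
  let e : R ≃* i.range := MonoidHom.ofInjective hi
  let q : (i.range.comap f) →* R := e.symm.toMonoidHom.comp (f.subgroupComap i.range)
  have hq : Function.Surjective q :=
    e.symm.surjective.comp (f.subgroupComap_surjective_of_surjective i.range hf)
  exact h _ (i.range.comap f).subtype (Subgroup.subtype_injective _) S (p.comp q) (hp.comp hq)

lemma sec_sub {Q : Type u} [Group Q] (M : Subgroup Q) (h : Sec G M) {R : Type u} [Group R]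
    (i : R →* Q) (hi : Function.Injective i) {S : Type u} [Group S] (p : R →* S) :
    PP G ((M.comap i).map p) := by
  refine h (M.comap i) (i.subgroupComap M) ?_ _ (p.subgroupMap (M.comap i))
    (MonoidHom.subgroupMap_surjective _ _)
  intro a b hab
  apply Subtype.ext
  apply hi
  exact congrArg Subtype.val hab

lemma sec_ext {Q : Type u} [Group Q] (M : Subgroup Q) [M.Normal] (h₁ : Sec G M)
    (h₂ : Sec G (Q ⧸ M)) : Sec G Q := by
  intro R _ i hi S _ p hp
  haveI : ((M.comap i).map p).Normal := Subgroup.Normal.map inferInstance p hp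
  apply pp_ext ((M.comap i).map p)
  · exact sec_sub M h₁ i hi p
  · refine h₂ (R ⧸ M.comap i) (QuotientGroup.map _ _ i le_rfl) ?_ _
      (QuotientGroup.map _ _ p (Subgroup.le_comap_map p _)) ?_
    · rw [injective_iff_map_eq_one]
      intro x hx
      obtain ⟨x, rfl⟩ := QuotientGroup.mk_surjective x
      rw [QuotientGroup.eq_one_iff]
      have h3 : ((i x : Q) : Q ⧸ M) = 1 := hx
      show i x ∈ M
      exact (QuotientGroup.eq_one_iff (i x)).1 h3
    · intro y
      obtain ⟨y, rfl⟩ := QuotientGroup.mk_surjective y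
      obtain ⟨x, rfl⟩ := hp y
      exact ⟨(x : R ⧸ M.comap i), rfl⟩

lemma sec_dir {Q : Type u} [Group Q] {ι : Type u} [Nonempty ι] (K : ι → Subgroup Q)
    (hd : Directed (· ≤ ·) K) (hs : ∀ q : Q, ∃ i, q ∈ K i) (h : ∀ i, Sec G (K i)) : Sec G Q := by
  intro R _ i hi S _ p hp
  apply pp_dir (fun j => ((K j).comap i).map p)
  · intro j k
    obtain ⟨l, hjl, hkl⟩ := hd j k
    exact ⟨l, Subgroup.map_mono (Subgroup.comap_mono hjl),
      Subgroup.map_mono (Subgroup.comap_mono hkl)⟩
  · intro s
    obtain ⟨r, rfl⟩ := hp s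
    obtain ⟨j, hj⟩ := hs (i r)
    exact ⟨j, ⟨r, hj, rfl⟩⟩
  · intro j
    exact sec_sub (K j) (h j) i hi p

/-- all sections of an elementary amenable group have the property `PP` -/
theorem sec_of_ea (hC : AllConrad G) {Q : Type u} [Group Q] (hQ : ElementaryAmenable Q) :
    Sec G Q := by
  induction hQ with
  | of_finite Q =>
    intro R _ i hi S _ p hp
    haveI : Finite R := Finite.of_injective i hi
    haveI : Finite S := Finite.of_surjective p hp
    exact pp_finite S
  | of_comm Q h =>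
    intro R _ i hi S _ p hp
    apply pp_comm hC
    intro a b
    obtain ⟨a, rfl⟩ := hp a
    obtain ⟨b, rfl⟩ := hp b
    rw [← map_mul, ← map_mul]
    congr 1
    apply hi
    rw [map_mul, map_mul, h]
  | of_injective f hf _ ih =>
    intro R _ i hi S _ p hp
    exact ih R (f.comp i) (hf.comp hi) S p hp
  | of_surjective f hf _ ih => exact sec_surj f hf ih
  | of_extension N _ _ ih₁ ih₂ => exact sec_ext N ih₁ ih₂
  | of_directed K hd hs _ ih => exact sec_dir K hd hs ih

/-- elementary amenable subgroups are good -/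
theorem gd_of_ea (hC : AllConrad G) (H : Subgroup G) (hH : ElementaryAmenable H) : Gd H := by
  have h1 : PP G H := sec_of_ea hC hH H (MonoidHom.id H) Function.injective_id H
    (MonoidHom.id H) Function.surjective_id
  apply h1 H (MonoidHom.id H)
  apply gd_bot.mono
  rintro _ ⟨x, hx, rfl⟩
  have : x = 1 := hx
  rw [this]
  exact Subgroup.one_mem _

end EA

end Pool.Agent.H12.CR
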