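import Pool.Agent.H12.CR.Ind

/-! MP_8a02cf_al: right orders on locally nilpotent groups are Conrad. -/

set_option linter.unusedSectionVars false
set_option linter.style.haveILetI false

namespace Pool.Agent.H12.CR

open scoped commutatorElement

section End

variable {H : Type*} [Group H]

/-- the two sequences of words -/
def tm (g h : H) : ℕ → H × H
  | 0 => (g, h)
  | n + 1 => ((tm g h n).1 * (tm g h n).2, (tm g h n).2 * (tm g h n).1)

lemma tm_mem {g h : H} {F : Subgroup H} (hg : g ∈ F) (hh : h ∈ F) (n : ℕ) :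
    (tm g h n).1 ∈ F ∧ (tm g h n).2 ∈ F := by
  induction n with
  | zero => exact ⟨hg, hh⟩
  | succ n ih => exact ⟨F.mul_mem ih.1 ih.2, F.mul_mem ih.2 ih.1⟩

lemma tm_lcs {g h : H} {F : Subgroup H} (hg : g ∈ F) (hh : h ∈ F) (n : ℕ) :
    (tm g h n).1 * (tm g h n).2⁻¹ ∈ F.lowerCentralSeries n := by
  induction n with
  | zero => exact F.mul_mem hg (F.inv_mem hh)
  | succ n ih =>
    have h1 : (tm g h (n + 1)).1 * (tm g h (n + 1)).2⁻¹ =
        ⁅(tm g h n).1 * (tm g h n).2⁻¹, (tm g h n).2⁆ := by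
      show ((tm g h n).1 * (tm g h n).2) * ((tm g h n).2 * (tm g h n).1)⁻¹ = _
      rw [commutatorElement_def]; group
    rw [h1]
    exact Subgroup.commutator_mem_commutator ih (tm_mem hg hh n).2

/-- 2-generator subgroups nilpotent implies Conrad -/
theorem conrad_of_nilpotent {P : Set H} (hP : IsCone P)
    (hnil : ∀ f g : H, Group.IsNilpotent (Subgroup.closure {f, g})) : ConradCone P := by
  intro f g hf hgf
  by_contra hcon
  push Not at hcon
  have hg : g ∈ P := by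
    have := hP.mul hgf hf
    simpa using this
  set h := g * f⁻¹ with hh
  have c2 : ∀ m : ℕ, 0 < m → g * f * (g ^ m)⁻¹ ∈ P := by
    intro m hm
    have h1 := hcon m hm
    by_cases h2 : f * g ^ m * f⁻¹ * g⁻¹ = 1
    · have h3 : g * f * (g ^ m)⁻¹ = f := by
        have h4 : f * g ^ m = g * f := by
          have := mul_inv_eq_one.1 h2
          rw [mul_inv_eq_iff_eq_mul] at this
          exact this
        rw [← h4]; group
      rw [h3]; exact hf
    · have h3 := (hP.tri _ h2).resolve_left h1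
      have h4 := hP.mul h3 hf
      have h5 : (f * g ^ m * f⁻¹ * g⁻¹)⁻¹ * f = g * f * (g ^ m)⁻¹ := by group
      rwa [h5] at h4
  have step : ∀ x : H, (∃ m : ℕ, 0 < m ∧ g ^ m * x⁻¹ ∈ P) → g * (x * h)⁻¹ ∈ P := by
    rintro x ⟨m, hm, h1⟩
    have h2 := hP.mul (c2 (m + 1) (Nat.succ_pos m)) h1
    have h3 : g * f * (g ^ (m + 1))⁻¹ * (g ^ m * x⁻¹) = g * (x * h)⁻¹ := by
      rw [hh, pow_succ]; group
    rwa [h3] at h2
  let Wd : H → Prop := fun y => (y = 1 ∨ y ∈ P) ∧ ∀ x : H, (∃ m : ℕ, 0 < m ∧ g ^ m * x⁻¹ ∈ P) →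
    ∃ m : ℕ, 0 < m ∧ g ^ m * (x * y)⁻¹ ∈ P
  have Wmul : ∀ y y' : H, Wd y → Wd y' → Wd (y * y') := by
    rintro y y' ⟨h1, h2⟩ ⟨h1', h2'⟩
    refine ⟨?_, ?_⟩
    · rcases h1 with rfl | h1
      · rw [one_mul]; exact h1'
      · rcases h1' with rfl | h1'
        · rw [mul_one]; right; exact h1
        · right; exact hP.mul h1 h1'
    · intro x hx
      have := h2' _ (h2 x hx)
      rwa [mul_assoc] at this
  have Wone : Wd 1 := ⟨Or.inl rfl, fun x hx => by rwa [mul_one]⟩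
  have Wg : Wd g := by
    refine ⟨Or.inr hg, ?_⟩
    rintro x ⟨m, hm, h1⟩
    refine ⟨m + 1, Nat.succ_pos m, ?_⟩
    have h3 : g ^ (m + 1) * (x * g)⁻¹ = g ^ m * x⁻¹ := by rw [pow_succ]; group
    rwa [h3]
  have Wh : Wd h := by
    refine ⟨Or.inr hgf, ?_⟩
    intro x hx
    exact ⟨1, one_pos, by rw [pow_one]; exact step x hx⟩
  let A : H → Prop := fun a => ∃ w, Wd w ∧ a = w * h
  let B : H → Prop := fun b => ∃ w, Wd w ∧ b = w * g
  have hA : ∀ a, A a → g * a⁻¹ ∈ P := by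
    rintro _ ⟨w, hw, rfl⟩
    apply step
    have := hw.2 1 ⟨1, one_pos, by simpa using hg⟩
    rwa [one_mul] at this
  have hB : ∀ b, B b → b * g⁻¹ = 1 ∨ b * g⁻¹ ∈ P := by
    rintro _ ⟨w, hw, rfl⟩
    rw [mul_inv_cancel_right]
    exact hw.1
  have hAB : ∀ a, A a → ¬ B a := by
    intro a h1 h2
    have h3 := hA a h1
    rcases hB a h2 with h4 | h4
    · have h5 : g * a⁻¹ = (a * g⁻¹)⁻¹ := by group
      rw [h5, h4, inv_one] at h3
      exact hP.one h3
    · have h5 := hP.mul h3 h4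
      have h6 : g * a⁻¹ * (a * g⁻¹) = 1 := by group
      rw [h6] at h5
      exact hP.one h5
  have key : ∀ n : ℕ, Wd (tm g h n).1 ∧ Wd (tm g h n).2 ∧
      ((A (tm g h n).1 ∧ B (tm g h n).2) ∨ (B (tm g h n).1 ∧ A (tm g h n).2)) := by
    intro n
    induction n with
    | zero =>
      exact ⟨Wg, Wh, Or.inr ⟨⟨1, Wone, (one_mul _).symm⟩, ⟨1, Wone, (one_mul _).symm⟩⟩⟩
    | succ n ih =>
      obtain ⟨hx, hy, hxy⟩ := ih
      have hAmul : ∀ x y, Wd x → A y → A (x * y) := by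
        rintro x _ hx ⟨w, hw, rfl⟩
        exact ⟨x * w, Wmul _ _ hx hw, by rw [mul_assoc]⟩
      have hBmul : ∀ x y, Wd x → B y → B (x * y) := by
        rintro x _ hx ⟨w, hw, rfl⟩
        exact ⟨x * w, Wmul _ _ hx hw, by rw [mul_assoc]⟩
      refine ⟨Wmul _ _ hx hy, Wmul _ _ hy hx, ?_⟩
      rcases hxy with ⟨h1, h2⟩ | ⟨h1, h2⟩
      · right; exact ⟨hBmul _ _ hx h2, hAmul _ _ hy h1⟩
      · left; exact ⟨hAmul _ _ hx h2, hBmul _ _ hy h1⟩
  obtain ⟨c, hc⟩ := (Subgroup.isNilpotent_iff_lowerCentralSeries _).1 (hnil f g)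
  have hfF : f ∈ Subgroup.closure {f, g} := Subgroup.subset_closure (Or.inl rfl)
  have hgF : g ∈ Subgroup.closure {f, g} := Subgroup.subset_closure (Or.inr rfl)
  have hhF : h ∈ Subgroup.closure {f, g} := Subgroup.mul_mem _ hgF (Subgroup.inv_mem _ hfF)
  have h1 := tm_lcs hgF hhF c
  rw [hc, Subgroup.mem_bot, mul_inv_eq_one] at h1
  rcases (key c).2.2 with ⟨h2, h3⟩ | ⟨h2, h3⟩
  · rw [← h1] at h3
    exact hAB _ h2 h3
  · rw [h1] at h2
    exact hAB _ h3 h2

end End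

end Pool.Agent.H12.CR
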