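import Pool.Agent.H12.CR.Key

/-! MP_8a02cf_al: the induction. -/

set_option linter.unusedSectionVars false
set_option linter.style.haveILetI false

namespace Pool.Agent.H12.CR

open scoped commutatorElement

universe u v

section Ind

variable {G : Type v} [Group G] [LinearOrder G] [MulLeftMono G] [MulRightMono G]

/-- every finitely generated subgroup has finitely many archimedean classes -/
def Gd (N : Subgroup G) : Prop :=
  ∀ T : Set G, T.Finite → T ⊆ N → FinCls (Subgroup.closure T : Set G)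

lemma Gd.mono {N N' : Subgroup G} (h : Gd N') (hle : N ≤ N') : Gd N :=
  fun T hT hTN => h T hT (hTN.trans hle)

lemma gd_bot : Gd (⊥ : Subgroup G) := by
  intro T _ hTN
  have h1 : (Subgroup.closure T : Set G) ⊆ {1} := by
    intro a ha
    have := (Subgroup.closure_le _).2 hTN ha
    exact Subgroup.mem_bot.1 this
  exact FinCls.mono ((Set.finite_singleton _).image _) h1

lemma closure_coe (Y : Subgroup G) (T : Set Y) :
    ((↑) '' (Subgroup.closure T : Set Y) : Set G) = Subgroup.closure ((↑) '' T : Set G) := by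
  have h := MonoidHom.map_closure Y.subtype T
  have h1 := congrArg (fun H : Subgroup G => (H : Set G)) h
  simpa using h1

/-- the key proposition in the ambient group -/
lemma finCls_closure (hC : AllConrad G) {x : G} {S : Set G} (hS : S.Finite) {N : Subgroup G}
    (hSN : S ⊆ N) (hxN : ∀ n ∈ N, x * n * x⁻¹ ∈ N) (hN : Gd N) :
    FinCls (Subgroup.closure (insert x S) : Set G) := by
  let F := Subgroup.closure (insert x S)
  let Y := cl F
  have hFY : F ≤ Y := le_cl F
  have hxY : x ∈ Y := hFY (Subgroup.subset_closure (Set.mem_insert _ _))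
  have hSY : ∀ s ∈ S, s ∈ Y := fun s hs =>
    hFY (Subgroup.subset_closure (Set.mem_insert_of_mem _ hs))
  let x' : Y := ⟨x, hxY⟩
  let S' : Set Y := {s | (s : G) ∈ S}
  have himg : ((↑) '' (insert x' S') : Set G) = insert x S := by
    ext g
    constructor
    · rintro ⟨y, hy | hy, rfl⟩
      · left; rw [hy]
      · right; exact hy
    · rintro (rfl | hg)
      · exact ⟨x', Or.inl rfl, rfl⟩
      · exact ⟨⟨g, hSY g hg⟩, Or.inr hg, rfl⟩
  have hcl : ((↑) '' (Subgroup.closure (insert x' S') : Set Y) : Set G) = F := by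
    rw [closure_coe, himg]
  have hF' : Subgroup.closure (insert x' S') = F.subgroupOf Y := by
    ext y
    rw [Subgroup.mem_subgroupOf]
    constructor
    · intro hy
      have : (y : G) ∈ ((↑) '' (Subgroup.closure (insert x' S') : Set Y) : Set G) := ⟨y, hy, rfl⟩
      rw [hcl] at this
      exact this
    · intro hy
      have : (y : G) ∈ ((↑) '' (Subgroup.closure (insert x' S') : Set Y) : Set G) := by
        rw [hcl]; exact hy
      obtain ⟨z, hz, e⟩ := this
      rwa [← Subtype.ext e]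
  have h1 : FinCls (Subgroup.closure (insert x' S') : Set Y) := by
    apply key (hC.of_rc (cl_rc F)) (x := x') (S := S') (N := N.subgroupOf Y)
    · exact hS.preimage Subtype.val_injective.injOn
    · rw [hF']; exact cl_dense F
    · intro s hs; exact hSN hs
    · intro n hn; exact hxN n hn
    · intro T hT hTN
      rw [finCls_coe, closure_coe]
      apply hN _ (hT.image _)
      rintro _ ⟨t, ht, rfl⟩
      exact hTN ht
  rw [finCls_coe, hcl] at h1
  exact h1

/-- adjoining one element -/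
lemma Gd.adjoin (hC : AllConrad G) {N : Subgroup G} (hN : Gd N) {x : G}
    (hxN : ∀ n ∈ N, x * n * x⁻¹ ∈ N) (hxN' : ∀ n ∈ N, x⁻¹ * n * x ∈ N) :
    Gd (N ⊔ Subgroup.zpowers x) := by
  have hz : ∀ z : ℤ, ∀ n ∈ N, x ^ z * n * (x ^ z)⁻¹ ∈ N := by
    intro z
    induction z using Int.induction_on with
    | zero => intro n hn; simpa using hn
    | succ i ih =>
      intro n hn
      have h1 : x ^ ((i : ℤ) + 1) * n * (x ^ ((i : ℤ) + 1))⁻¹ =
          x ^ (i : ℤ) * (x * n * x⁻¹) * (x ^ (i : ℤ))⁻¹ := by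
        rw [zpow_add, zpow_one]; group
      rw [h1]
      exact ih _ (hxN n hn)
    | pred i ih =>
      intro n hn
      have h1 : x ^ (-(i : ℤ) - 1) * n * (x ^ (-(i : ℤ) - 1))⁻¹ =
          x ^ (-(i : ℤ)) * (x⁻¹ * n * x) * (x ^ (-(i : ℤ)))⁻¹ := by
        rw [zpow_sub, zpow_one]; group
      rw [h1]
      exact ih _ (hxN' n hn)
  have hmem : ∀ g ∈ N ⊔ Subgroup.zpowers x, ∃ n ∈ N, ∃ z : ℤ, g = n * x ^ z := by
    intro g hg
    rw [Subgroup.sup_eq_closure] at hg
    induction hg using Subgroup.closure_induction with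
    | mem y hy =>
      rcases hy with hy | ⟨z, rfl⟩
      · exact ⟨y, hy, 0, by simp⟩
      · exact ⟨1, N.one_mem, z, by simp⟩
    | one => exact ⟨1, N.one_mem, 0, by simp⟩
    | mul a b _ _ iha ihb =>
      obtain ⟨n, hn, z, rfl⟩ := iha
      obtain ⟨m, hm, w, rfl⟩ := ihb
      refine ⟨n * (x ^ z * m * (x ^ z)⁻¹), N.mul_mem hn (hz z m hm), z + w, ?_⟩
      rw [zpow_add]; group
    | inv a _ iha =>
      obtain ⟨n, hn, z, rfl⟩ := iha
      refine ⟨x ^ (-z) * n⁻¹ * (x ^ (-z))⁻¹, hz (-z) _ (N.inv_mem hn), -z, ?_⟩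
      rw [zpow_neg]; group
  intro T hT hTN
  choose! n hn z hz' using hmem
  have h1 := finCls_closure hC (x := x) (hT.image n) (N := N) (by
    rintro _ ⟨t, ht, rfl⟩
    exact hn t (hTN ht)) hxN hN
  apply h1.mono
  show (Subgroup.closure T : Set G) ⊆ _
  rw [SetLike.coe_subset_coe, Subgroup.closure_le]
  intro t ht
  rw [hz' t (hTN ht)]
  apply Subgroup.mul_mem
  · exact Subgroup.subset_closure (Set.mem_insert_of_mem _ ⟨t, ht, rfl⟩)
  · exact Subgroup.zpow_mem _ (Subgroup.subset_closure (Set.mem_insert _ _)) _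

/-- extensions with commutative quotient -/
lemma Gd.of_comm (hC : AllConrad G) {N H : Subgroup G} (hN : Gd N) (hNH : N ≤ H)
    (hcomm : ∀ a ∈ H, ∀ b ∈ H, a * b * a⁻¹ * b⁻¹ ∈ N) : Gd H := by
  have key : ∀ T : Set G, T.Finite → T ⊆ H → Gd (N ⊔ Subgroup.closure T) := by
    intro T hT
    refine Set.Finite.induction_on T hT ?_ ?_
    · intro _
      rw [Subgroup.closure_empty, sup_bot_eq]
      exact hN
    · intro x T _ _ ih hxT
      have hT' : T ⊆ H := (Set.subset_insert _ _).trans hxT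
      have hx : x ∈ H := hxT (Set.mem_insert _ _)
      have hle : N ⊔ Subgroup.closure T ≤ H := sup_le hNH ((Subgroup.closure_le _).2 hT')
      have h1 : N ⊔ Subgroup.closure (insert x T) =
          (N ⊔ Subgroup.closure T) ⊔ Subgroup.zpowers x := by
        rw [Set.insert_eq, Subgroup.closure_union, ← Subgroup.zpowers_eq_closure, sup_assoc,
          sup_comm (Subgroup.zpowers x)]
      rw [h1]
      apply Gd.adjoin hC (ih hT')
      · intro n hn
        have h2 : x * n * x⁻¹ = x * n * x⁻¹ * n⁻¹ * n := by group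
        rw [h2]
        exact Subgroup.mul_mem _ ((le_sup_left : N ≤ _) (hcomm x hx n (hle hn))) hn
      · intro n hn
        have h2 : x⁻¹ * n * x = x⁻¹ * n * x⁻¹⁻¹ * n⁻¹ * n := by group
        rw [h2]
        exact Subgroup.mul_mem _ ((le_sup_left : N ≤ _) (hcomm x⁻¹ (H.inv_mem hx) n (hle hn))) hn
  intro T hT hTH
  exact key T hT hTH T hT ((Subgroup.subset_closure).trans (le_sup_right :
    Subgroup.closure T ≤ N ⊔ Subgroup.closure T))

/-- directed unions -/
lemma Gd.of_directed {ι : Type*} [Nonempty ι] {H : Subgroup G} (N : ι → Subgroup G)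
    (hdir : Directed (· ≤ ·) N) (hN : ∀ i, Gd (N i)) (hH : ∀ h ∈ H, ∃ i, h ∈ N i) : Gd H := by
  intro T hT hTH
  have h1 : ∃ i, T ⊆ N i := by
    clear hN
    revert hTH
    refine Set.Finite.induction_on T hT ?_ ?_
    · intro _
      exact ⟨Classical.arbitrary ι, Set.empty_subset _⟩
    · intro x T _ _ ih hxT
      obtain ⟨i, hi⟩ := ih ((Set.subset_insert _ _).trans hxT)
      obtain ⟨j, hj⟩ := hH x (hxT (Set.mem_insert _ _))
      obtain ⟨k, hik, hjk⟩ := hdir i j
      refine ⟨k, Set.insert_subset (hjk hj) (hi.trans hik)⟩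
  obtain ⟨i, hi⟩ := h1
  exact hN i T hT hi

/-- finite extensions -/
lemma Gd.of_finite {N H : Subgroup G} (hN : Gd N) (hfin : N.relIndex H ≠ 0) : Gd H := by
  intro T hT hTH
  let F := Subgroup.closure T
  have hFH : F ≤ H := (Subgroup.closure_le _).2 hTH
  have h1 : N.relIndex F ≠ 0 := by
    intro h
    exact hfin (Subgroup.relIndex_eq_zero_of_le_right hFH h)
  haveI : (N.subgroupOf F).FiniteIndex := ⟨h1⟩
  haveI : Group.FG F := by
    rw [Group.fg_iff_subgroup_fg]
    exact (Subgroup.fg_iff _).2 ⟨T, rfl, hT⟩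
  haveI : Group.FG (N.subgroupOf F) := inferInstance
  obtain ⟨A, hA, hAf⟩ := (Subgroup.fg_iff _).1 ((Group.fg_iff_subgroup_fg _).1 this)
  have h2 := hN ((↑) '' A : Set G) (hAf.image _) (by
    rintro _ ⟨a, ha, rfl⟩
    have : a ∈ N.subgroupOf F := by rw [← hA]; exact Subgroup.subset_closure ha
    exact this)
  rw [← closure_coe, hA] at h2
  refine Set.Finite.subset h2 ?_
  rintro _ ⟨f, hf, rfl⟩
  obtain ⟨n, hn, h3⟩ : ∃ n : ℕ, 0 < n ∧ (⟨f, hf⟩ : F) ^ n ∈ N.subgroupOf F := by
    obtain ⟨n, hn, -, h4⟩ := Subgroup.exists_pow_mem_of_index_ne_zero (H := N.subgroupOf F)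
      h1 (⟨f, hf⟩ : F)
    exact ⟨n, hn, h4⟩
  refine ⟨f ^ n, ⟨(⟨f, hf⟩ : F) ^ n, h3, rfl⟩, cls_pow f hn⟩

end Ind

end Pool.Agent.H12.CR
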