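import Pool.Agent.H12.CR.Case1

/-! MP_8a02cf_al: the key proposition. -/

set_option linter.unusedSectionVars false
set_option linter.style.haveILetI false

namespace Pool.Agent.H12.CR

open scoped commutatorElement

section Rat

variable {Y : Type*} [Group Y]

/-- a character with value `1` at `x` which is the only one, up to scaling, is rational -/
lemma exists_rational {x : Y} {S : Set Y} (hF : RCDense (Subgroup.closure (insert x S)))
    (φ : Y →* Multiplicative ℝ) (hφS : ∀ h ∈ S, φ h = 1) (hφ : φ ≠ 1) :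
    ∃ θ : Y →* Multiplicative ℝ, θ x = Multiplicative.ofAdd 1 ∧ (∀ h ∈ S, θ h = 1) ∧
      ∀ y : Y, ∃ q : ℚ, Multiplicative.toAdd (θ y) = q := by
  have hgen : ∀ φ : Y →* Multiplicative ℝ, (∀ h ∈ S, φ h = 1) → φ x = 1 → φ = 1 := by
    intro φ h1 h2
    apply hF.hom_eq_one
    intro f hf
    induction hf using Subgroup.closure_induction with
    | mem s hs =>
      rcases hs with rfl | hs
      · exact h2
      · exact h1 s hs
    | one => exact map_one _
    | mul a b _ _ iha ihb => rw [map_mul, iha, ihb, one_mul]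
    | inv a _ iha => rw [map_inv, iha, inv_one]
  let r := Multiplicative.toAdd (φ x)
  have hr : r ≠ 0 := by
    intro h
    apply hφ
    apply hgen φ hφS
    exact h
  let θ : Y →* Multiplicative ℝ := MonoidHom.mk' (fun y => Multiplicative.ofAdd
    (Multiplicative.toAdd (φ y) / r)) (by
      intro a b
      rw [← ofAdd_add, map_mul, toAdd_mul, add_div])
  have hθ : ∀ y, Multiplicative.toAdd (θ y) = Multiplicative.toAdd (φ y) / r := fun y => rfl
  have hθx : θ x = Multiplicative.ofAdd 1 := by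
    apply Multiplicative.toAdd.injective
    rw [hθ, toAdd_ofAdd]
    exact div_self hr
  have hθS : ∀ h ∈ S, θ h = 1 := by
    intro h hh
    apply Multiplicative.toAdd.injective
    rw [hθ, hφS h hh, toAdd_one, zero_div]
  refine ⟨θ, hθx, hθS, ?_⟩
  intro y
  by_contra hcon
  push Not at hcon
  have h1 : Multiplicative.toAdd (θ y) ∉ Submodule.span ℚ {(1 : ℝ)} := by
    intro h
    obtain ⟨q, hq⟩ := Submodule.mem_span_singleton.1 h
    apply hcon q
    rw [← hq, Rat.smul_def, mul_one]
  obtain ⟨f, hf, hle⟩ := Submodule.exists_le_ker_of_notMem h1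
  have hf1 : f 1 = 0 := hle (Submodule.mem_span_singleton_self 1)
  let φ' : Y →* Multiplicative ℝ := MonoidHom.mk' (fun y => Multiplicative.ofAdd
    ((f (Multiplicative.toAdd (θ y)) : ℚ) : ℝ)) (by
      intro a b
      rw [← ofAdd_add, map_mul, toAdd_mul, map_add, Rat.cast_add])
  have h2 := hgen φ' (by
    intro h hh
    show Multiplicative.ofAdd ((f (Multiplicative.toAdd (θ h)) : ℚ) : ℝ) = 1
    rw [hθS h hh, toAdd_one, map_zero, Rat.cast_zero]; rfl) (by
    show Multiplicative.ofAdd ((f (Multiplicative.toAdd (θ x)) : ℚ) : ℝ) = 1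
    rw [hθx, toAdd_ofAdd, hf1, Rat.cast_zero]; rfl)
  have h3 : φ' y = 1 := by rw [h2]; rfl
  have h4 : ((f (Multiplicative.toAdd (θ y)) : ℚ) : ℝ) = 0 := h3
  exact hf (by exact_mod_cast h4)

end Rat

section Key

variable {Y : Type*} [Group Y] [LinearOrder Y] [MulLeftMono Y] [MulRightMono Y]

lemma Sm.zpow_left {f f' : Y} (h : Sm f' f) (z : ℤ) : Sm (f' ^ z) f :=
  (smSub f h.ne_one).zpow_mem (show f' ∈ smSub f h.ne_one from h) z

/-- classes of elements outside the kernel of a rational character -/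
lemma ker_cls {θ : Y →* Multiplicative ℝ}
    (hrat : ∀ y : Y, ∃ q : ℚ, Multiplicative.toAdd (θ y) = q) {f f' : Y} (h : Sm f' f) :
    (∃ w ∈ θ.ker, cls w = cls f) ∨ (∃ w ∈ θ.ker, cls w = cls f') := by
  obtain ⟨p, hp⟩ := hrat f
  obtain ⟨q, hq⟩ := hrat f'
  by_cases hq0 : q = 0
  · right
    refine ⟨f', ?_, rfl⟩
    rw [MonoidHom.mem_ker]
    apply Multiplicative.toAdd.injective
    rw [hq, hq0, Rat.cast_zero]; rfl
  · left
    let a : ℤ := q.num * p.den
    let b : ℤ := - (p.num * q.den)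
    have ha : a ≠ 0 := mul_ne_zero (Rat.num_ne_zero.2 hq0) (by exact_mod_cast p.den_nz)
    have hab : (a : ℚ) * p + b * q = 0 := by
      have h1 : (p.num : ℚ) = p * p.den := (Rat.mul_den_eq_num p).symm
      have h2 : (q.num : ℚ) = q * q.den := (Rat.mul_den_eq_num q).symm
      simp only [a, b]
      push_cast
      rw [h1, h2]; ring
    refine ⟨f ^ a * f' ^ b, ?_, ?_⟩
    · rw [MonoidHom.mem_ker, map_mul, map_zpow, map_zpow]
      apply Multiplicative.toAdd.injective
      rw [toAdd_mul, toAdd_zpow, toAdd_zpow, hp, hq, toAdd_one, zsmul_eq_mul, zsmul_eq_mul]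
      exact_mod_cast hab
    · have h3 : Sm (f' ^ b) (f ^ a) := Sm.of_cls_eq_right (h.zpow_left b) (cls_zpow f ha).symm
      rw [cls_mul_of_sm h3, cls_zpow f ha]

lemma CO_quot {hc : Central Y} {D : Subgroup Y} (h : Cvx D) [D.Normal] : CO (Y ⧸ D) :=
  h.exists_order_quot hc

/-- the abstract part of the key proposition -/
lemma key_abs (hc : Central Y) {S : Set Y} (hS : S.Finite) (hF : RCDense (Subgroup.closure S))
    (K : Subgroup Y) (hK : ∀ a b : Y, ⁅a, b⁆ ∈ K) (T : Set Y)
    (hT : FinCls (Subgroup.closure T : Set Y))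
    (hKc : ∀ f f' : Y, Sm f' f → (∃ w ∈ K, cls w = cls f) ∨ (∃ w ∈ K, cls w = cls f'))
    (hpow : ∀ D : Subgroup Y, D.Normal → (∃ c, (⊤ : Subgroup Y).lowerCentralSeries c ≤ D) →
      ∀ k ∈ K, ∃ n : ℕ, 0 < n ∧ ∃ u ∈ Subgroup.closure T, u⁻¹ * k ^ n ∈ D) :
    FinCls (Subgroup.closure S : Set Y) := by
  have hnil : ∀ D : Subgroup Y, Cvx D → (∃ m, (Subgroup.closure S).lowerCentralSeries m ≤ D) →
      ∃ c, (⊤ : Subgroup Y).lowerCentralSeries c ≤ D := by
    intro D hD hm
    haveI := hD.normal hc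
    exact nil_cl_mod D (CO_quot (hc := hc) hD) _ hF hm
  have hcls : ∀ D : Subgroup Y, Cvx D → (∃ m, (Subgroup.closure S).lowerCentralSeries m ≤ D) →
      ∀ k ∈ K, k ∉ D → cls k ∈ cls '' (Subgroup.closure T : Set Y) := by
    intro D hD hm k hk hkD
    obtain ⟨n, hn, u, hu, hun⟩ := hpow D (hD.normal hc) (hnil D hD hm) k hk
    exact ⟨u, hu, hD.cls_eq hkD hn hun⟩
  obtain ⟨m, hm⟩ := nilpotent_of_chain hc hS hT (by
    intro D hD hm n c hcc hcD
    obtain ⟨c', _, s, _, rfl⟩ := hcc
    exact hcls D hD hm _ (hK c' s) hcD)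
  have hKfin : ∀ k ∈ K, cls k ∈ cls '' (Subgroup.closure T : Set Y) := by
    intro k hk
    by_cases hk1 : k ∈ (⊥ : Subgroup Y)
    · rw [Subgroup.mem_bot] at hk1
      exact ⟨1, Subgroup.one_mem _, by rw [hk1]⟩
    · exact hcls ⊥ Cvx.bot ⟨m, hm.le⟩ k hk hk1
  have hsub : cls '' (Subgroup.closure S : Set Y) ⊆ cls '' (Subgroup.closure T : Set Y) ∪
      (cls '' (Subgroup.closure S : Set Y) \ cls '' (Subgroup.closure T : Set Y)) := by
    intro B hB
    by_cases h : B ∈ cls '' (Subgroup.closure T : Set Y)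
    · left; exact h
    · right; exact ⟨hB, h⟩
  have hsing : (cls '' (Subgroup.closure S : Set Y) \
      cls '' (Subgroup.closure T : Set Y)).Subsingleton := by
    rintro _ ⟨⟨f, hf, rfl⟩, h1⟩ _ ⟨⟨f', hf', rfl⟩, h2⟩
    by_contra hne
    have key : ∀ f f' : Y, Sm f' f → cls f ∉ cls '' (Subgroup.closure T : Set Y) →
        cls f' ∉ cls '' (Subgroup.closure T : Set Y) → False := by
      intro f f' hs h1 h2
      rcases hKc f f' hs with ⟨w, hw, e⟩ | ⟨w, hw, e⟩
      · rw [← e] at h1; exact h1 (hKfin w hw)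
      · rw [← e] at h2; exact h2 (hKfin w hw)
    rcases sm_or f f' with h | h | h
    · exact key f' f h h2 h1
    · exact key f f' h h1 h2
    · exact hne h
  exact Set.Finite.subset (hT.union hsing.finite) hsub

/-- the key proposition, in a group without proper relatively convex subgroups containing `F` -/
theorem key (hC : AllConrad Y) {x : Y} {S : Set Y} (hS : S.Finite)
    (hF : RCDense (Subgroup.closure (insert x S))) {N : Subgroup Y} (hSN : S ⊆ N)
    (hxN : ∀ n ∈ N, x * n * x⁻¹ ∈ N)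
    (hN : ∀ T : Set Y, T.Finite → T ⊆ N → FinCls (Subgroup.closure T : Set Y)) :
    FinCls (Subgroup.closure (insert x S) : Set Y) := by
  have hc : Central Y := central_of_allConrad hC
  by_cases hcase : ∀ φ : Y →* Multiplicative ℝ, (∀ h ∈ S, φ h = 1) → φ = 1
  · refine key_abs hc (hS.insert x) hF ⊤ (fun _ _ => Subgroup.mem_top _) S (hN S hS hSN) ?_ ?_
    · intro f f' _
      left; exact ⟨f, Subgroup.mem_top _, rfl⟩
    · rintro D hD ⟨c, hc'⟩ k _
      exact pw_mod D hc' (Subgroup.closure S) (fun φ _ hφ => hcase φ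
        (fun h hh => hφ h (Subgroup.subset_closure hh))) k
  · push Not at hcase
    obtain ⟨φ, hφS, hφ⟩ := hcase
    obtain ⟨θ, hθx, hθS, hrat⟩ := exists_rational hF φ hφS hφ
    obtain ⟨T, hT, hTN, hpow⟩ := case1 hC isCone_pos hrat x hθx hS hθS hF hSN hxN
    refine key_abs hc (hS.insert x) hF θ.ker ?_ T (hN T hT hTN) (fun f f' h => ker_cls hrat h) hpow
    intro a b
    rw [MonoidHom.mem_ker, map_commutatorElement, commutatorElement_def]
    rw [mul_comm (θ a), mul_assoc, mul_assoc, mul_inv_cancel_left, mul_inv_cancel]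

end Key

/-! ### transfer to the ambient group -/

section Transfer

variable {G : Type*} [Group G] [LinearOrder G] [MulLeftMono G] [MulRightMono G]

lemma coe_mabs (Y : Subgroup G) (a : Y) : ((|a|ₘ : Y) : G) = |(a : G)|ₘ := by
  rw [mabs_def', mabs_def']
  rcases le_total a a⁻¹ with h | h
  · rw [max_eq_right h, max_eq_right (show (a : G) ≤ (a : G)⁻¹ from h)]; rfl
  · rw [max_eq_left h, max_eq_left (show (a : G)⁻¹ ≤ (a : G) from h)]

lemma coe_sm (Y : Subgroup G) (a b : Y) : Sm a b ↔ Sm (a : G) (b : G) := by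
  unfold Sm
  constructor
  · intro h n
    have := h n
    rw [← coe_mabs, ← coe_mabs]
    exact this
  · intro h n
    have := h n
    rw [← coe_mabs, ← coe_mabs] at this
    exact this

lemma cls_coe_iff (Y : Subgroup G) (a b : Y) : cls a = cls b ↔ cls (a : G) = cls (b : G) := by
  constructor
  · intro h
    apply cls_eq_of_not
    · intro h1
      have h2 := (coe_sm Y a b).2 h1
      have h3 : a ∈ cls b := h2
      rw [← h] at h3
      exact not_sm_self a h3
    · intro h1
      have h2 := (coe_sm Y b a).2 h1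
      have h3 : b ∈ cls a := h2
      rw [h] at h3
      exact not_sm_self b h3
  · intro h
    apply cls_eq_of_not
    · intro h1
      have h2 := (coe_sm Y a b).1 h1
      have h3 : (a : G) ∈ cls (b : G) := h2
      rw [← h] at h3
      exact not_sm_self _ h3
    · intro h1
      have h2 := (coe_sm Y b a).1 h1
      have h3 : (b : G) ∈ cls (a : G) := h2
      rw [h] at h3
      exact not_sm_self _ h3

lemma finCls_coe (Y : Subgroup G) (A : Set Y) : FinCls A ↔ FinCls ((↑) '' A : Set G) := by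
  unfold FinCls
  constructor
  · intro h
    have h1 : cls '' ((↑) '' A : Set G) ⊆ (fun B : Set Y => ⋃ a ∈ {a : Y | cls a = B}, cls (a : G)) ''
        (cls '' A) := by
      rintro _ ⟨_, ⟨a, ha, rfl⟩, rfl⟩
      refine ⟨cls a, ⟨a, ha, rfl⟩, ?_⟩
      apply Set.Subset.antisymm
      · apply Set.iUnion₂_subset
        intro b hb
        exact ((cls_coe_iff Y b a).1 hb).le
      · exact Set.subset_iUnion₂_of_subset a rfl subset_rfl
    exact (h.image _).subset h1
  · intro h
    have h1 : cls '' A ⊆ (fun B : Set G => ⋃ a ∈ {a : Y | cls (a : G) = B}, cls a) ''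
        (cls '' ((↑) '' A : Set G)) := by
      rintro _ ⟨a, ha, rfl⟩
      refine ⟨cls (a : G), ⟨(a : G), ⟨a, ha, rfl⟩, rfl⟩, ?_⟩
      apply Set.Subset.antisymm
      · apply Set.iUnion₂_subset
        intro b hb
        exact ((cls_coe_iff Y b a).2 hb).le
      · exact Set.subset_iUnion₂_of_subset a rfl subset_rfl
    exact (h.image _).subset h1

end Transfer

end Pool.Agent.H12.CR
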