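import Pool.Agent.H12.CR.Z2

/-! MP_8a02cf_al: nilpotent closures, isolators in nilpotent groups. -/

set_option linter.unusedSectionVars false
set_option linter.style.haveILetI false

namespace Pool.Agent.H12.CR

open scoped commutatorElement

universe u v

/-- centrally orderable groups -/
def CO (Y : Type*) [Group Y] : Prop :=
  ∃ (_ : LinearOrder Y) (_ : MulLeftMono Y) (_ : MulRightMono Y), Central Y

lemma CO.quot_center {Y : Type*} [Group Y] (h : CO Y) : CO (Y ⧸ Subgroup.center Y) := by
  obtain ⟨o, l, r, hc⟩ := h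
  exact exists_order_quot_center hc

lemma CO.rc_bot {Y : Type*} [Group Y] (h : CO Y) : RC (⊥ : Subgroup Y) := by
  obtain ⟨o, l, r, hc⟩ := h
  refine ⟨{g | 1 < g}, ?_, ?_, ?_, ?_, ?_⟩
  · intro a b ha hb; exact isCone_pos.mul ha hb
  · intro a b ha hb; rw [Subgroup.mem_bot] at ha; rw [ha, one_mul]; exact hb
  · intro a b ha hb; rw [Subgroup.mem_bot] at ha; rw [ha, mul_one]; exact hb
  · intro a ha; rw [Subgroup.mem_bot] at ha; rw [ha]; exact isCone_pos.one
  · intro a ha; exact isCone_pos.tri a ha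

lemma CO.rc_centralizer {Y : Type*} [Group Y] (h : CO Y) (S : Set Y) :
    RC (Subgroup.centralizer S) := by
  obtain ⟨o, l, r, hc⟩ := h
  exact Pool.Agent.H12.CR.rc_centralizer S

/-- (NilCl) -/
theorem nil_cl (F : Type u) [Group F] [Group.IsNilpotent F] :
    ∀ (Y : Type v) [Group Y], CO Y → ∀ f : F →* Y, Function.Injective f → RCDense f.range →
      Group.IsNilpotent Y := by
  refine Group.nilpotent_center_quotient_ind (P := fun F _ _ => ∀ (Y : Type v) [Group Y], CO Y →
    ∀ f : F →* Y, Function.Injective f → RCDense f.range → Group.IsNilpotent Y) F ?_ ?_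
  · intro F _ _ Y _ hY f hf hd
    have h1 : f.range ≤ ⊥ := by
      rintro _ ⟨x, rfl⟩
      rw [Subsingleton.elim x 1, map_one]
      exact Subgroup.one_mem _
    have h2 := hd ⊥ hY.rc_bot h1
    haveI : Subsingleton Y := Subgroup.subsingleton_iff.1 (subsingleton_of_bot_eq_top h2)
    infer_instance
  · intro F _ _ ih Y _ hY f hf hd
    have hz : ∀ z : F, z ∈ Subgroup.center F → f z ∈ Subgroup.center Y := by
      intro z hz
      have h1 := hd _ (hY.rc_centralizer {f z}) (by
        rintro _ ⟨x, rfl⟩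
        rw [Subgroup.mem_centralizer_iff]
        rintro _ rfl
        rw [← map_mul, ← map_mul, (Subgroup.mem_center_iff.1 hz x)])
      rw [Subgroup.mem_center_iff]
      intro y
      have h2 : y ∈ Subgroup.centralizer {f z} := by rw [h1]; trivial
      exact (Subgroup.mem_centralizer_iff.1 h2 (f z) rfl).symm
    have hz' : ∀ z : F, f z ∈ Subgroup.center Y → z ∈ Subgroup.center F := by
      intro z hz
      rw [Subgroup.mem_center_iff]
      intro x
      apply hf
      rw [map_mul, map_mul]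
      exact Subgroup.mem_center_iff.1 hz (f x)
    let f' : F ⧸ Subgroup.center F →* Y ⧸ Subgroup.center Y :=
      QuotientGroup.map _ _ f hz
    have hf' : Function.Injective f' := by
      rw [injective_iff_map_eq_one]
      intro x hx
      obtain ⟨x, rfl⟩ := QuotientGroup.mk_surjective x
      rw [QuotientGroup.eq_one_iff]
      apply hz'
      rw [← QuotientGroup.eq_one_iff]
      exact hx
    have hd' : RCDense f'.range := by
      have h1 : f.range.map (QuotientGroup.mk' (Subgroup.center Y)) = f'.range := by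
        ext y
        constructor
        · rintro ⟨_, ⟨x, rfl⟩, rfl⟩
          exact ⟨(x : F ⧸ Subgroup.center F), rfl⟩
        · rintro ⟨x, rfl⟩
          obtain ⟨x, rfl⟩ := QuotientGroup.mk_surjective x
          exact ⟨f x, ⟨x, rfl⟩, rfl⟩
      rw [← h1]
      exact RCDense.map _ (QuotientGroup.mk'_surjective _) hd
    have h3 := ih (Y ⧸ Subgroup.center Y) hY.quot_center f' hf' hd'
    exact Group.of_quotient_center_nilpotent h3

/-- (NilCl) modulo a normal subgroup with centrally orderable quotient -/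
theorem nil_cl_mod {Y : Type u} [Group Y] (D : Subgroup Y) [D.Normal] (hY : CO (Y ⧸ D))
    (F : Subgroup Y) (hF : RCDense F) (h : ∃ c, F.lowerCentralSeries c ≤ D) :
    ∃ c, (⊤ : Subgroup Y).lowerCentralSeries c ≤ D := by
  obtain ⟨c, hc⟩ := h
  let F' := F.map (QuotientGroup.mk' D)
  have h1 : F'.lowerCentralSeries c = ⊥ := by
    rw [← Subgroup.map_lowerCentralSeries, Subgroup.map_eq_bot_iff, QuotientGroup.ker_mk']
    exact hc
  haveI : Group.IsNilpotent F' := Subgroup.isNilpotent_of_lowerCentralSeries_eq_bot h1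
  have h2 : RCDense F'.subtype.range := by
    rw [Subgroup.range_subtype]
    exact RCDense.map _ (QuotientGroup.mk'_surjective _) hF
  have h3 := nil_cl F' (Y ⧸ D) hY F'.subtype (Subgroup.subtype_injective _) h2
  obtain ⟨n, hn⟩ := (Subgroup.nilpotent_iff_lowerCentralSeries).1 h3
  refine ⟨n, ?_⟩
  have h4 : ((⊤ : Subgroup Y).lowerCentralSeries n).map (QuotientGroup.mk' D) = ⊥ := by
    rw [Subgroup.map_lowerCentralSeries, Subgroup.map_top_of_surjective _
      (QuotientGroup.mk'_surjective _)]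
    exact hn
  rw [Subgroup.map_eq_bot_iff, QuotientGroup.ker_mk'] at h4
  exact h4

/-! ### powers -/

/-- (PW), abelian case -/
lemma pw_comm {K : Type*} [Group K] (hcomm : ∀ a b : K, a * b = b * a) (H : Subgroup K)
    (hH : ∀ φ : K →* Multiplicative ℝ, (∀ h ∈ H, φ h = 1) → φ = 1) (k : K) :
    ∃ n : ℕ, 0 < n ∧ k ^ n ∈ H := by
  by_contra hcon
  push Not at hcon
  let _ : CommGroup K := { ‹Group K› with mul_comm := hcomm }
  let f : ℤ →+ Additive (K ⧸ H) := zmultiplesHom _ (Additive.ofMul (k : K ⧸ H))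
  have hf : Function.Injective f := by
    rw [injective_iff_map_eq_zero]
    intro n hn
    by_contra hn0
    have h1 : (k : K ⧸ H) ^ n = 1 := by
      have : f n = n • Additive.ofMul (k : K ⧸ H) := rfl
      rw [this] at hn
      exact hn
    have h2 : (k : K ⧸ H) ^ n.natAbs = 1 := by
      rcases Int.natAbs_eq n with h | h
      · rw [h, zpow_natCast] at h1; exact h1
      · rw [h, zpow_neg, inv_eq_one, zpow_natCast] at h1; exact h1
    have h3 : ((k ^ n.natAbs : K) : K ⧸ H) = 1 := h2
    exact hcon n.natAbs (Int.natAbs_pos.2 hn0) ((QuotientGroup.eq_one_iff _).1 h3)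
  obtain ⟨g, hg⟩ := (Module.Baer.of_divisible ℝ).extension_property_addMonoidHom f hf
    (Int.castAddHom ℝ)
  let φ : K →* Multiplicative ℝ := MonoidHom.mk'
    (fun x => Multiplicative.ofAdd (g (Additive.ofMul (x : K ⧸ H)))) (by
      intro a b
      rw [← ofAdd_add, ← map_add]; rfl)
  have h1 := hH φ (by
    intro h hh
    show Multiplicative.ofAdd (g (Additive.ofMul (h : K ⧸ H))) = 1
    rw [(QuotientGroup.eq_one_iff _).2 hh, ofMul_one, map_zero]; rfl)
  have h2 : g (f 1) = 1 := by
    have := DFunLike.congr_fun hg 1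
    simpa using this
  have h3 : f 1 = Additive.ofMul (k : K ⧸ H) := by
    show (1 : ℤ) • Additive.ofMul (k : K ⧸ H) = _
    rw [one_smul]
  have h4 : φ k = 1 := by rw [h1]; rfl
  have h5 : g (Additive.ofMul (k : K ⧸ H)) = 0 := h4
  rw [← h3, h2] at h5
  exact one_ne_zero h5

/-- commutator with a central-commutator element is multiplicative -/
lemma comm_pow_left {K : Type*} [Group K] {u k : K} (h : ∀ x : K, ⁅u, k⁆ * x = x * ⁅u, k⁆)
    (n : ℕ) : ⁅u ^ n, k⁆ = ⁅u, k⁆ ^ n := by
  induction n with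
  | zero => simp
  | succ n ih =>
    have h1 : ⁅u ^ (n + 1), k⁆ = u ^ n * ⁅u, k⁆ * (u ^ n)⁻¹ * ⁅u ^ n, k⁆ := by
      rw [commutatorElement_def, commutatorElement_def, commutatorElement_def, pow_succ]; group
    rw [h1, ih, ← h (u ^ n), mul_inv_cancel_right, pow_succ', ]

lemma comm_pow_right {K : Type*} [Group K] {u k : K} (h : ∀ x : K, ⁅u, k⁆ * x = x * ⁅u, k⁆)
    (n : ℕ) : ⁅u, k ^ n⁆ = ⁅u, k⁆ ^ n := by
  induction n with
  | zero => simp
  | succ n ih =>
    have h1 : ⁅u, k ^ (n + 1)⁆ = ⁅u, k ^ n⁆ * (k ^ n * ⁅u, k⁆ * (k ^ n)⁻¹) := by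
      rw [commutatorElement_def, commutatorElement_def, commutatorElement_def, pow_succ]; group
    rw [h1, ih, ← h (k ^ n), mul_inv_cancel_right, pow_succ]

/-- (PW) -/
theorem pw (c : ℕ) : ∀ (K : Type u) [Group K], (⊤ : Subgroup K).lowerCentralSeries c = ⊥ →
    ∀ H : Subgroup K, (∀ φ : K →* Multiplicative ℝ, (∀ h ∈ H, φ h = 1) → φ = 1) →
      ∀ k : K, ∃ n : ℕ, 0 < n ∧ k ^ n ∈ H := by
  induction c with
  | zero =>
    intro K _ hK H _ k
    refine ⟨1, one_pos, ?_⟩
    have : k ∈ (⊥ : Subgroup K) := by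
      rw [← hK]; trivial
    rw [Subgroup.mem_bot] at this
    rw [this, one_pow]; exact H.one_mem
  | succ c ih =>
    intro K _ hK H hH k
    set Γ := (⊤ : Subgroup K).lowerCentralSeries c with hΓ
    have hcen : ∀ g ∈ Γ, ∀ x : K, g * x = x * g := by
      intro g hg x
      have h1 : ⁅g, x⁆ ∈ (⊤ : Subgroup K).lowerCentralSeries (c + 1) :=
        Subgroup.commutator_mem_commutator hg (Subgroup.mem_top x)
      rw [hK, Subgroup.mem_bot, commutatorElement_def] at h1
      exact mul_inv_eq_iff_eq_mul.1 (mul_inv_eq_one.1 h1)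
    -- powers in `H Γ`
    have step : ∀ k : K, ∃ n : ℕ, 0 < n ∧ ∃ h ∈ H, ∃ g ∈ Γ, k ^ n = h * g := by
      intro k
      have h1 : (⊤ : Subgroup (K ⧸ Γ)).lowerCentralSeries c = ⊥ := by
        rw [← Subgroup.map_top_of_surjective _ (QuotientGroup.mk'_surjective Γ),
          ← Subgroup.map_lowerCentralSeries, Subgroup.map_eq_bot_iff, QuotientGroup.ker_mk']
      obtain ⟨n, hn, h2⟩ := ih (K ⧸ Γ) h1 (H.map (QuotientGroup.mk' Γ)) (by
        intro φ hφ
        have h3 := hH (φ.comp (QuotientGroup.mk' Γ)) (by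
          intro h hh
          exact hφ _ ⟨h, hh, rfl⟩)
        ext x
        exact congrArg Multiplicative.toAdd (DFunLike.congr_fun h3 x)) (k : K ⧸ Γ)
      obtain ⟨h, hh, h3⟩ := h2
      refine ⟨n, hn, h, hh, h⁻¹ * k ^ n, ?_, by group⟩
      rw [← QuotientGroup.eq]
      exact h3
    rcases Nat.eq_zero_or_pos c with hc | hc
    · subst hc
      have hcomm : ∀ a b : K, a * b = b * a := fun a b => hcen a (Subgroup.mem_top a) b
      exact pw_comm hcomm H hH k
    · -- elements of `Γ` have powers in `H`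
      have hgen : ∀ g ∈ Γ, ∃ n : ℕ, 0 < n ∧ g ^ n ∈ H := by
        obtain ⟨c', rfl⟩ : ∃ c', c = c' + 1 := ⟨c - 1, by omega⟩
        have hΓ' : Γ = ⁅(⊤ : Subgroup K).lowerCentralSeries c', (⊤ : Subgroup K)⁆ := rfl
        have hcl : ∀ g ∈ Subgroup.closure
            {g | ∃ g₁ ∈ (⊤ : Subgroup K).lowerCentralSeries c', ∃ g₂ ∈ (⊤ : Subgroup K), ⁅g₁, g₂⁆ = g},
            ∃ n : ℕ, 0 < n ∧ g ^ n ∈ H := by
          have hsub : Subgroup.closure
            {g | ∃ g₁ ∈ (⊤ : Subgroup K).lowerCentralSeries c', ∃ g₂ ∈ (⊤ : Subgroup K), ⁅g₁, g₂⁆ = g} ≤ Γ :=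
            le_of_eq (hΓ'.trans (Subgroup.commutator_def _ _)).symm
          intro g hg
          induction hg using Subgroup.closure_induction with
          | mem x hx =>
            obtain ⟨a, ha, b, -, rfl⟩ := hx
            have hab : ⁅a, b⁆ ∈ Γ := hsub (Subgroup.subset_closure ⟨a, ha, b, Subgroup.mem_top b, rfl⟩)
            obtain ⟨n, hn, h, hh, g1, hg1, e1⟩ := step a
            obtain ⟨m, hm, h', hh', g2, hg2, e2⟩ := step b
            refine ⟨n * m, Nat.mul_pos hn hm, ?_⟩
            have hab' : ⁅a ^ n, b⁆ = ⁅a, b⁆ ^ n := comm_pow_left (hcen _ hab) n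
            have h1 : ⁅a ^ n, b ^ m⁆ = ⁅a, b⁆ ^ (n * m) := by
              rw [comm_pow_right (u := a ^ n) (k := b) (by
                rw [hab']; exact hcen _ (Γ.pow_mem hab n)) m, hab', pow_mul]
            rw [← h1, e1, e2]
            have h2 : ⁅h * g1, h' * g2⁆ = ⁅h, h'⁆ := by
              rw [commutatorElement_def, commutatorElement_def, ]
              have e3 : h * g1 * (h' * g2) = h * h' * (g1 * g2) := by
                rw [mul_assoc, ← mul_assoc g1, hcen g1 hg1 h']; group
              have e4 : (h * g1)⁻¹ * (h' * g2)⁻¹ = (g1 * g2)⁻¹ * (h⁻¹ * h'⁻¹) := by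
                have e5 : (h' * g2) * (h * g1) = (h' * h) * (g1 * g2) := by
                  rw [mul_assoc, ← mul_assoc g2, hcen g2 hg2 h, hcen g1 hg1 g2]; group
                rw [← mul_inv_rev, e5, mul_inv_rev, mul_inv_rev h' h]
              rw [mul_assoc (h * g1 * (h' * g2)), e4, e3]
              group
            rw [h2]
            exact H.mul_mem (H.mul_mem (H.mul_mem hh hh') (H.inv_mem hh)) (H.inv_mem hh')
          | one => exact ⟨1, one_pos, by rw [one_pow]; exact H.one_mem⟩
          | mul x y hx hy ihx ihy =>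
            obtain ⟨n, hn, h1⟩ := ihx
            obtain ⟨m, hm, h2⟩ := ihy
            refine ⟨n * m, Nat.mul_pos hn hm, ?_⟩
            have hxy : Commute x y := hcen x (hsub hx) y
            rw [hxy.mul_pow, pow_mul, mul_comm n m, pow_mul]
            exact H.mul_mem (H.pow_mem h1 m) (H.pow_mem h2 n)
          | inv x hx ihx =>
            obtain ⟨n, hn, h1⟩ := ihx
            exact ⟨n, hn, by rw [inv_pow]; exact H.inv_mem h1⟩
        intro g hg
        apply hcl
        rw [hΓ', Subgroup.commutator_def] at hg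
        exact hg
      obtain ⟨n, hn, h, hh, g, hg, e⟩ := step k
      obtain ⟨m, hm, h1⟩ := hgen g hg
      refine ⟨n * m, Nat.mul_pos hn hm, ?_⟩
      have hcomm : Commute h g := (hcen g hg h).symm
      rw [pow_mul, e, hcomm.mul_pow]
      exact H.mul_mem (H.pow_mem hh m) h1

end Pool.Agent.H12.CR
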