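import Pool.Agent.H12.CR.Aff

/-! MP_8a02cf_al: bi-ordered groups, the relation `≪`, convex subgroups. -/

set_option linter.unusedSectionVars false

namespace Pool.Agent.H12.CR

open scoped commutatorElement

section Basic

variable {G : Type*} [Group G] [LinearOrder G] [MulLeftMono G] [MulRightMono G]

lemma mabs_def' (a : G) : |a|ₘ = max a a⁻¹ := rfl

lemma one_le_mabs' (a : G) : 1 ≤ |a|ₘ := by
  rw [mabs_def']
  rcases le_total 1 a with h | h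
  · exact le_max_of_le_left h
  · exact le_max_of_le_right (Left.one_le_inv_iff.2 h)

lemma le_mabs' (a : G) : a ≤ |a|ₘ := le_max_left _ _

lemma inv_le_mabs' (a : G) : a⁻¹ ≤ |a|ₘ := le_max_right _ _

lemma mabs_inv' (a : G) : |a⁻¹|ₘ = |a|ₘ := by
  rw [mabs_def', mabs_def', inv_inv, max_comm]

lemma mabs_of_one_le' {a : G} (h : 1 ≤ a) : |a|ₘ = a := by
  rw [mabs_def', max_eq_left]
  exact (Left.inv_le_one_iff.2 h).trans h

lemma mabs_eq_or (a : G) : |a|ₘ = a ∨ |a|ₘ = a⁻¹ := by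
  rw [mabs_def']; exact max_choice _ _

lemma mabs_one' : |(1 : G)|ₘ = 1 := mabs_of_one_le' le_rfl

lemma one_lt_mabs' {a : G} (h : a ≠ 1) : 1 < |a|ₘ := by
  refine lt_of_le_of_ne (one_le_mabs' a) ?_
  intro h1
  rcases mabs_eq_or a with h2 | h2
  · exact h (by rw [← h2, ← h1])
  · exact h (by rw [← inv_eq_one, ← h2, ← h1])

lemma ne_one_of_lt_mabs {a b : G} (h : |b|ₘ < |a|ₘ) : a ≠ 1 := by
  rintro rfl
  rw [mabs_one'] at h
  exact absurd (one_le_mabs' b) (not_le.2 h)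

lemma mabs_lt_iff {a b : G} : |a|ₘ < b ↔ a < b ∧ a⁻¹ < b := by
  rw [mabs_def', max_lt_iff]

lemma mabs_le_iff {a b : G} : |a|ₘ ≤ b ↔ a ≤ b ∧ a⁻¹ ≤ b := by
  rw [mabs_def', max_le_iff]

lemma mabs_conj (y a : G) : |y * a * y⁻¹|ₘ = y * |a|ₘ * y⁻¹ := by
  have h1 : (y * a * y⁻¹)⁻¹ = y * a⁻¹ * y⁻¹ := by group
  rw [mabs_def', mabs_def', h1]
  rcases le_total a a⁻¹ with h | h
  · rw [max_eq_right h, max_eq_right]
    exact mul_le_mul_left (mul_le_mul_right h _) _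
  · rw [max_eq_left h, max_eq_left]
    exact mul_le_mul_left (mul_le_mul_right h _) _

lemma mabs_pow' (a : G) (n : ℕ) : |a ^ n|ₘ = |a|ₘ ^ n := by
  rcases le_total 1 a with h | h
  · rw [mabs_of_one_le' h, mabs_of_one_le' (one_le_pow_of_one_le' h n)]
  · have h' : 1 ≤ a⁻¹ := Left.one_le_inv_iff.2 h
    rw [← mabs_inv' a, ← mabs_inv' (a ^ n), ← inv_pow, mabs_of_one_le' h',
      mabs_of_one_le' (one_le_pow_of_one_le' h' n)]

lemma mabs_mul_le (a b : G) {m : G} (ha : |a|ₘ ≤ m) (hb : |b|ₘ ≤ m) : |a * b|ₘ ≤ m * m := by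
  rw [mabs_le_iff]
  constructor
  · exact mul_le_mul' ((le_mabs' a).trans ha) ((le_mabs' b).trans hb)
  · rw [mul_inv_rev]
    exact mul_le_mul' ((inv_le_mabs' b).trans hb) ((inv_le_mabs' a).trans ha)

/-- `h ≪ g` -/
def Sm (h g : G) : Prop := ∀ n : ℕ, |h|ₘ ^ n < |g|ₘ

lemma Sm.ne_one {h g : G} (H : Sm h g) : g ≠ 1 := by
  have := H 1
  rw [pow_one] at this
  exact ne_one_of_lt_mabs this

lemma Sm.lt {h g : G} (H : Sm h g) : |h|ₘ < |g|ₘ := by simpa using H 1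

lemma sm_one {g : G} (h : g ≠ 1) : Sm 1 g := by
  intro n
  rw [mabs_one', one_pow]
  exact one_lt_mabs' h

lemma Sm.inv {h g : G} (H : Sm h g) : Sm h⁻¹ g := by
  intro n; rw [mabs_inv']; exact H n

lemma Sm.of_le {h h' g : G} (H : Sm h g) (hle : |h'|ₘ ≤ |h|ₘ) : Sm h' g := by
  intro n
  exact (pow_le_pow_left' hle n).trans_lt (H n)

lemma Sm.of_le_right {h g g' : G} (H : Sm h g) (hle : |g|ₘ ≤ |g'|ₘ) : Sm h g' :=
  fun n => (H n).trans_le hle

lemma Sm.of_le_pow {h h' g : G} (H : Sm h g) (k : ℕ) (hle : |h'|ₘ ≤ |h|ₘ ^ k) : Sm h' g := by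
  intro n
  refine (pow_le_pow_left' hle n).trans_lt ?_
  rw [← pow_mul]
  exact H _

lemma Sm.mul {h h' g : G} (H : Sm h g) (H' : Sm h' g) : Sm (h * h') g := by
  rcases le_total (|h|ₘ) (|h'|ₘ) with hle | hle
  · exact H'.of_le_pow 2 (by rw [pow_two]; exact mabs_mul_le _ _ hle le_rfl)
  · exact H.of_le_pow 2 (by rw [pow_two]; exact mabs_mul_le _ _ le_rfl hle)

lemma Sm.conj {h g : G} (H : Sm h g) (y : G) : Sm (y * h * y⁻¹) (y * g * y⁻¹) := by
  intro n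
  rw [mabs_conj, mabs_conj, conj_pow]
  exact mul_lt_mul_left (mul_lt_mul_right (H n) _) _

lemma not_sm_self (g : G) : ¬ Sm g g := fun H => lt_irrefl _ H.lt

lemma Sm.trans {a b c : G} (h1 : Sm a b) (h2 : Sm b c) : Sm a c :=
  h2.of_le (h1.lt.le)

/-- The bi-order is central. -/
def Central (G : Type*) [Group G] [LinearOrder G] : Prop :=
  ∀ a y : G, a ≠ 1 → ∀ n : ℕ, |⁅a, y⁆|ₘ ^ n < |a|ₘ

lemma Central.sm (hc : Central G) {a : G} (ha : a ≠ 1) (y : G) : Sm ⁅a, y⁆ a := hc a y ha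

/-- convex subgroups -/
def Cvx (D : Subgroup G) : Prop := ∀ d ∈ D, ∀ a : G, |a|ₘ ≤ |d|ₘ → a ∈ D

lemma Cvx.total {D D' : Subgroup G} (h : Cvx D) (h' : Cvx D') : D ≤ D' ∨ D' ≤ D := by
  by_contra hcon
  push Not at hcon
  obtain ⟨h1, h2⟩ := hcon
  obtain ⟨d, hd, hd'⟩ := Set.not_subset.1 h1
  obtain ⟨e, he, he'⟩ := Set.not_subset.1 h2
  rcases le_total (|d|ₘ) (|e|ₘ) with hle | hle
  · exact hd' (h' e he d hle)
  · exact he' (h d hd e hle)

lemma Cvx.sm {D : Subgroup G} (h : Cvx D) {d a : G} (hd : d ∈ D) (ha : a ∉ D) : Sm d a := by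
  intro n
  by_contra hcon
  rw [not_lt] at hcon
  apply ha
  refine h (d ^ n) (D.pow_mem hd n) a ?_
  rwa [mabs_pow']

lemma Cvx.bot : Cvx (⊥ : Subgroup G) := by
  intro d hd a ha
  rw [Subgroup.mem_bot] at hd ⊢
  subst hd
  rw [mabs_one'] at ha
  by_contra h
  exact absurd ha (not_le.2 (one_lt_mabs' h))

/-- the subgroup `{h | h ≪ u}` -/
def smSub (u : G) (hu : u ≠ 1) : Subgroup G where
  carrier := {h | Sm h u}
  one_mem' := sm_one hu
  mul_mem' := fun h h' => Sm.mul h h'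
  inv_mem' := fun h => Sm.inv h

lemma mem_smSub {u h : G} (hu : u ≠ 1) : h ∈ smSub u hu ↔ Sm h u := Iff.rfl

lemma smSub_cvx (u : G) (hu : u ≠ 1) : Cvx (smSub u hu) := by
  intro d hd a ha
  exact Sm.of_le hd ha

lemma self_not_mem_smSub (u : G) (hu : u ≠ 1) : u ∉ smSub u hu := not_sm_self u

lemma Cvx.normal {D : Subgroup G} (h : Cvx D) (hc : Central G) : D.Normal := by
  refine ⟨?_⟩
  intro d hd y
  by_cases hd1 : d = 1
  · subst hd1; simp
  have h1 : ⁅d, y⁆ ∈ D := h d hd _ (hc.sm hd1 y).lt.le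
  have h2 : y * d * y⁻¹ = ⁅d, y⁆⁻¹ * d := by
    rw [commutatorElement_def]; group
  rw [h2]
  exact D.mul_mem (D.inv_mem h1) hd

end Basic

end Pool.Agent.H12.CR
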