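import Pool.Agent.H12.CR.Ord

/-! MP_8a02cf_al: relatively convex subgroups. -/

set_option linter.unusedSectionVars false

namespace Pool.Agent.H12.CR

open scoped commutatorElement

section RC

variable {G : Type*} [Group G]

/-- `Q` is the set of positive elements outside the convex subgroup `H`. -/
structure RelCone (H : Subgroup G) (Q : Set G) : Prop where
  mul : ∀ {a b : G}, a ∈ Q → b ∈ Q → a * b ∈ Q
  left : ∀ {h q : G}, h ∈ H → q ∈ Q → h * q ∈ Q
  right : ∀ {h q : G}, h ∈ H → q ∈ Q → q * h ∈ Q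
  disj : ∀ {a : G}, a ∈ H → a ∉ Q
  tri : ∀ a : G, a ∉ H → a ∈ Q ∨ a⁻¹ ∈ Q

lemma RelCone.not_inv {H : Subgroup G} {Q : Set G} (h : RelCone H Q) {a : G} (ha : a ∈ Q) :
    a⁻¹ ∉ Q := by
  intro h1
  have := h.mul ha h1
  rw [mul_inv_cancel] at this
  exact h.disj H.one_mem this

/-- relatively convex subgroups -/
def RC (H : Subgroup G) : Prop := ∃ Q : Set G, RelCone H Q

lemma RC.top : RC (⊤ : Subgroup G) :=
  ⟨∅, ⟨fun h => absurd h (Set.notMem_empty _), fun _ h => absurd h (Set.notMem_empty _),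
    fun _ h => absurd h (Set.notMem_empty _), fun _ => Set.notMem_empty _,
    fun a ha => absurd (Subgroup.mem_top a) ha⟩⟩

lemma RC.iInf {ι : Type*} (H : ι → Subgroup G) (h : ∀ i, RC (H i)) : RC (⨅ i, H i) := by
  classical
  choose Q hQ using h
  let _ : LinearOrder ι := WellOrderingRel.isWellOrder.linearOrder
  have wf : WellFounded ((· < ·) : ι → ι → Prop) := WellOrderingRel.isWellOrder.wf
  refine ⟨{g | ∃ i, g ∈ Q i ∧ ∀ j < i, g ∈ H j}, ?_, ?_, ?_, ?_, ?_⟩
  · rintro a b ⟨i, hi, hi'⟩ ⟨j, hj, hj'⟩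
    rcases lt_trichotomy i j with hij | hij | hij
    · exact ⟨i, (hQ i).right (hj' i hij) hi, fun k hk => (H k).mul_mem (hi' k hk) (hj' k (hk.trans hij))⟩
    · subst hij
      exact ⟨i, (hQ i).mul hi hj, fun k hk => (H k).mul_mem (hi' k hk) (hj' k hk)⟩
    · exact ⟨j, (hQ j).left (hi' j hij) hj, fun k hk => (H k).mul_mem (hi' k (hk.trans hij)) (hj' k hk)⟩
  · rintro a b ha ⟨i, hi, hi'⟩
    rw [Subgroup.mem_iInf] at ha
    exact ⟨i, (hQ i).left (ha i) hi, fun k hk => (H k).mul_mem (ha k) (hi' k hk)⟩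
  · rintro a b ha ⟨i, hi, hi'⟩
    rw [Subgroup.mem_iInf] at ha
    exact ⟨i, (hQ i).right (ha i) hi, fun k hk => (H k).mul_mem (hi' k hk) (ha k)⟩
  · rintro a ha ⟨i, hi, hi'⟩
    rw [Subgroup.mem_iInf] at ha
    exact (hQ i).disj (ha i) hi
  · intro a ha
    rw [Subgroup.mem_iInf] at ha
    push Not at ha
    obtain ⟨i, hi, hmin⟩ := wf.has_min {i | a ∉ H i} ha
    have hj : ∀ j < i, a ∈ H j := by
      intro j hj
      by_contra hcon
      exact hmin j hcon hj
    rcases (hQ i).tri a hi with h1 | h1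
    · left; exact ⟨i, h1, hj⟩
    · right; exact ⟨i, h1, fun j hj' => (H j).inv_mem (hj j hj')⟩

lemma RC.comap {G' : Type*} [Group G'] (f : G →* G') {H : Subgroup G'} (h : RC H) :
    RC (H.comap f) := by
  obtain ⟨Q, hQ⟩ := h
  refine ⟨f ⁻¹' Q, ?_, ?_, ?_, ?_, ?_⟩
  · intro a b ha hb
    show f (a * b) ∈ Q
    rw [map_mul]; exact hQ.mul ha hb
  · intro a b ha hb
    show f (a * b) ∈ Q
    rw [map_mul]; exact hQ.left ha hb
  · intro a b ha hb
    show f (b * a) ∈ Q
    rw [map_mul]; exact hQ.right ha hb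
  · intro a ha
    exact hQ.disj (a := f a) ha
  · intro a ha
    rcases hQ.tri (f a) ha with h1 | h1
    · left; exact h1
    · right
      show f a⁻¹ ∈ Q
      rw [map_inv]; exact h1

lemma RC.trans {K : Subgroup G} (hK : RC K) {H : Subgroup K} (hH : RC H) :
    RC (H.map K.subtype) := by
  obtain ⟨Q, hQ⟩ := hK
  obtain ⟨R, hR⟩ := hH
  refine ⟨Q ∪ (Subtype.val '' R), ?_, ?_, ?_, ?_, ?_⟩
  · rintro a b (ha | ⟨a, ha, rfl⟩) (hb | ⟨b, hb, rfl⟩)
    · left; exact hQ.mul ha hb
    · left; exact hQ.right b.2 ha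
    · left; exact hQ.left a.2 hb
    · right; exact ⟨a * b, hR.mul ha hb, rfl⟩
  · rintro a b ⟨a, ha, rfl⟩ (hb | ⟨b, hb, rfl⟩)
    · left; exact hQ.left a.2 hb
    · right; exact ⟨a * b, hR.left ha hb, rfl⟩
  · rintro a b ⟨a, ha, rfl⟩ (hb | ⟨b, hb, rfl⟩)
    · left; exact hQ.right a.2 hb
    · right; exact ⟨b * a, hR.right ha hb, rfl⟩
  · rintro a ⟨a, ha, rfl⟩ (hb | ⟨b, hb, hab⟩)
    · exact hQ.disj a.2 hb
    · have : b = a := Subtype.ext hab
      subst this
      exact hR.disj ha hb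
  · intro a ha
    by_cases haK : a ∈ K
    · have h1 : (⟨a, haK⟩ : K) ∉ H := fun h => ha ⟨⟨a, haK⟩, h, rfl⟩
      rcases hR.tri _ h1 with h2 | h2
      · left; right; exact ⟨_, h2, rfl⟩
      · right; right; exact ⟨_, h2, rfl⟩
    · rcases hQ.tri a haK with h1 | h1
      · left; left; exact h1
      · right; left; exact h1

/-- a cone on a relatively convex subgroup extends -/
lemma RelCone.union {K : Subgroup G} {Q : Set G} (hQ : RelCone K Q) {R : Set K} (hR : IsCone R) :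
    IsCone (Q ∪ (Subtype.val '' R)) := by
  refine ⟨?_, ?_, ?_⟩
  · rintro a b (ha | ⟨a, ha, rfl⟩) (hb | ⟨b, hb, rfl⟩)
    · left; exact hQ.mul ha hb
    · left; exact hQ.right b.2 ha
    · left; exact hQ.left a.2 hb
    · right; exact ⟨a * b, hR.mul ha hb, rfl⟩
  · rintro (h | ⟨b, hb, h⟩)
    · exact hQ.disj K.one_mem h
    · have : b = 1 := Subtype.ext h
      subst this
      exact hR.one hb
  · intro a ha
    by_cases haK : a ∈ K
    · have h1 : (⟨a, haK⟩ : K) ≠ 1 := fun h => ha (congrArg Subtype.val h)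
      rcases hR.tri _ h1 with h2 | h2
      · left; right; exact ⟨_, h2, rfl⟩
      · right; right; exact ⟨_, h2, rfl⟩
    · rcases hQ.tri a haK with h1 | h1
      · left; left; exact h1
      · right; left; exact h1

/-- `AllConrad` passes to relatively convex subgroups. -/
lemma AllConrad.of_rc (hC : AllConrad G) {K : Subgroup G} (hK : RC K) : AllConrad K := by
  obtain ⟨Q, hQ⟩ := hK
  intro R hR f g hf hgf
  obtain ⟨m, hm, h1⟩ := hC _ (hQ.union hR) f g (Or.inr ⟨f, hf, rfl⟩) (Or.inr ⟨_, hgf, rfl⟩)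
  refine ⟨m, hm, ?_⟩
  rcases h1 with h1 | ⟨b, hb, h1⟩
  · exact absurd h1 (hQ.disj (K.mul_mem (K.mul_mem (K.mul_mem f.2 (K.pow_mem g.2 m))
      (K.inv_mem f.2)) (K.inv_mem g.2)))
  · have : b = f * g ^ m * f⁻¹ * g⁻¹ := Subtype.ext h1
    rwa [← this]

/-- the relatively convex closure -/
def cl (F : Subgroup G) : Subgroup G := ⨅ H : {H : Subgroup G // RC H ∧ F ≤ H}, H.1

lemma cl_rc (F : Subgroup G) : RC (cl F) := RC.iInf _ fun H => H.2.1

lemma le_cl (F : Subgroup G) : F ≤ cl F := le_iInf fun H => H.2.2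

lemma cl_le {F H : Subgroup G} (h : RC H) (hF : F ≤ H) : cl F ≤ H := iInf_le _ (⟨H, h, hF⟩ :
  {H : Subgroup G // RC H ∧ F ≤ H})

/-- `F` is not contained in a proper relatively convex subgroup. -/
def RCDense (F : Subgroup G) : Prop := ∀ H : Subgroup G, RC H → F ≤ H → H = ⊤

lemma cl_dense (F : Subgroup G) : RCDense (F.subgroupOf (cl F)) := by
  intro H hH hle
  have h1 : RC (H.map (cl F).subtype) := RC.trans (cl_rc F) hH
  have h2 : F ≤ H.map (cl F).subtype := by
    intro g hg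
    exact ⟨⟨g, le_cl F hg⟩, hle (Subgroup.mem_subgroupOf.2 hg), rfl⟩
  have h3 := cl_le h1 h2
  rw [eq_top_iff]
  intro y _
  obtain ⟨y', hy', hyy'⟩ := h3 y.2
  have : y' = y := Subtype.ext hyy'
  rwa [← this]

lemma RCDense.map {G' : Type*} [Group G'] (f : G →* G') (hf : Function.Surjective f)
    {F : Subgroup G} (h : RCDense F) : RCDense (F.map f) := by
  intro H hH hle
  have h1 := h _ (RC.comap f hH) (Subgroup.map_le_iff_le_comap.1 hle)
  rw [eq_top_iff]
  intro y _
  obtain ⟨x, rfl⟩ := hf y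
  have : x ∈ H.comap f := by rw [h1]; trivial
  exact this

/-- kernels of homomorphisms to `ℝ` are relatively convex -/
lemma rc_ker (θ : G →* Multiplicative ℝ) : RC θ.ker := by
  refine ⟨{g | 0 < Multiplicative.toAdd (θ g)}, ?_, ?_, ?_, ?_, ?_⟩
  · intro a b ha hb
    show 0 < Multiplicative.toAdd (θ (a * b))
    rw [map_mul, toAdd_mul]; exact add_pos ha hb
  · intro a b ha hb
    show 0 < Multiplicative.toAdd (θ (a * b))
    rw [map_mul, MonoidHom.mem_ker.1 ha, one_mul]; exact hb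
  · intro a b ha hb
    show 0 < Multiplicative.toAdd (θ (b * a))
    rw [map_mul, MonoidHom.mem_ker.1 ha, mul_one]; exact hb
  · intro a ha h
    change 0 < Multiplicative.toAdd (θ a) at h
    rw [MonoidHom.mem_ker.1 ha] at h
    exact lt_irrefl _ h
  · intro a ha
    have h1 : Multiplicative.toAdd (θ a) ≠ 0 := fun h => ha (MonoidHom.mem_ker.2 (by
      apply Multiplicative.toAdd.injective; rw [h]; rfl))
    rcases lt_or_gt_of_ne h1 with h2 | h2
    · right
      show 0 < Multiplicative.toAdd (θ a⁻¹)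
      rw [map_inv, toAdd_inv]; linarith
    · left; exact h2

lemma RCDense.hom_eq_one {F : Subgroup G} (h : RCDense F) (θ : G →* Multiplicative ℝ)
    (hθ : ∀ f ∈ F, θ f = 1) : θ = 1 := by
  have h1 := h _ (rc_ker θ) hθ
  ext g
  have : g ∈ θ.ker := by rw [h1]; trivial
  exact congrArg Multiplicative.toAdd (MonoidHom.mem_ker.1 this)

end RC

section BiOrd

variable {G : Type*} [Group G] [LinearOrder G] [MulLeftMono G] [MulRightMono G]

instance subMulLeftMono (H : Subgroup G) : MulLeftMono H :=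
  ⟨fun a b c h => by
    have h' : (b : G) ≤ c := h
    exact mul_le_mul_right h' (a : G)⟩

instance subMulRightMono (H : Subgroup G) : MulRightMono H :=
  ⟨fun a b c h => by
    have h' : (b : G) ≤ c := h
    exact mul_le_mul_left h' (a : G)⟩

lemma conj_lt_conj_iff {a b : G} (y : G) : y * a * y⁻¹ < y * b * y⁻¹ ↔ a < b := by
  constructor
  · intro h
    have := mul_lt_mul_left (mul_lt_mul_right h y) y⁻¹
    simpa [mul_assoc] using this
  · intro h
    exact mul_lt_mul_left (mul_lt_mul_right h _) _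

/-- the relative cone of the centralizer of `s` -/
lemma relCone_centralizer (s : G) :
    RelCone (Subgroup.centralizer {s}) {g | s < g⁻¹ * s * g} := by
  have key : ∀ {h : G}, h ∈ Subgroup.centralizer {s} → h⁻¹ * s * h = s := by
    intro h hh
    have h1 := Subgroup.mem_centralizer_iff.1 hh s rfl
    rw [mul_assoc, h1]; group
  have mono : ∀ {a b : G} (y : G), a < b → y⁻¹ * a * y < y⁻¹ * b * y := by
    intro a b y h
    have := (conj_lt_conj_iff y⁻¹).2 h
    simpa using this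
  refine ⟨?_, ?_, ?_, ?_, ?_⟩
  · intro a b ha hb
    show s < (a * b)⁻¹ * s * (a * b)
    have h1 := mono b ha
    have h2 : (a * b)⁻¹ * s * (a * b) = b⁻¹ * (a⁻¹ * s * a) * b := by group
    rw [h2]
    exact lt_trans hb h1
  · intro a b ha hb
    show s < (a * b)⁻¹ * s * (a * b)
    have h2 : (a * b)⁻¹ * s * (a * b) = b⁻¹ * (a⁻¹ * s * a) * b := by group
    rw [h2, key ha]; exact hb
  · intro a b ha hb
    show s < (b * a)⁻¹ * s * (b * a)
    have h2 : (b * a)⁻¹ * s * (b * a) = a⁻¹ * (b⁻¹ * s * b) * a := by group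
    rw [h2]
    have h3 := mono a hb
    rwa [key ha] at h3
  · intro a ha h
    change s < a⁻¹ * s * a at h
    rw [key ha] at h
    exact lt_irrefl _ h
  · intro a ha
    rcases lt_trichotomy s (a⁻¹ * s * a) with h | h | h
    · left; exact h
    · exfalso
      apply ha
      rw [Subgroup.mem_centralizer_iff]
      intro t ht
      rw [Set.mem_singleton_iff] at ht
      subst ht
      have h2 : t * a = a * (a⁻¹ * t * a) := by group
      rw [h2, ← h]
    · right
      show s < a⁻¹⁻¹ * s * a⁻¹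
      have := (conj_lt_conj_iff a).2 h
      rw [inv_inv]
      have h2 : a * (a⁻¹ * s * a) * a⁻¹ = s := by group
      rwa [h2] at this

lemma rc_centralizer (S : Set G) : RC (Subgroup.centralizer S) := by
  have : Subgroup.centralizer S = ⨅ s : S, Subgroup.centralizer {(s : G)} := by
    ext g
    rw [Subgroup.mem_iInf, Subgroup.mem_centralizer_iff]
    constructor
    · intro h s
      rw [Subgroup.mem_centralizer_iff]
      intro t ht
      rw [Set.mem_singleton_iff] at ht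
      subst ht
      exact h _ s.2
    · intro h s hs
      exact Subgroup.mem_centralizer_iff.1 (h ⟨s, hs⟩) s rfl
  rw [this]
  exact RC.iInf _ fun s => ⟨_, relCone_centralizer _⟩

/-- the positive cone of the order -/
lemma isCone_pos : IsCone {g : G | 1 < g} :=
  ⟨fun ha hb => one_lt_mul'' ha hb, lt_irrefl _, fun a ha => by
    rcases lt_or_gt_of_ne ha with h | h
    · right; exact Left.one_lt_inv_iff.2 h
    · left; exact h⟩

lemma isCone_neg : IsCone {g : G | g < 1} :=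
  ⟨fun {a b} ha hb => by
      show a * b < 1
      exact Left.mul_lt_one ha hb, lt_irrefl _, fun a ha => by
    rcases lt_or_gt_of_ne ha with h | h
    · left; exact h
    · right; exact Left.inv_lt_one_iff.2 h⟩

/-- (L1) -/
theorem conj_le_sq (hC : AllConrad G) {a : G} (ha : 1 < a) (x : G) : x⁻¹ * a * x ≤ a * a := by
  by_contra hcon
  rw [not_le] at hcon
  have hx1 : x ≠ 1 := by
    rintro rfl
    simp only [inv_one, one_mul, mul_one] at hcon
    have : a < a * a := by
      conv_lhs => rw [← mul_one a]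
      exact mul_lt_mul_right ha a
    exact lt_asymm hcon this
  have hxc : x ∈ Subgroup.centralizer {x} := by
    rw [Subgroup.mem_centralizer_iff]
    intro t ht
    rw [Set.mem_singleton_iff] at ht
    rw [ht]
  -- a cone on the centralizer containing `x`
  obtain ⟨R, hR, hxR⟩ : ∃ R : Set (Subgroup.centralizer {x}), IsCone R ∧ (⟨x, hxc⟩ :
      Subgroup.centralizer {x}) ∈ R := by
    rcases lt_or_gt_of_ne hx1 with h | h
    · exact ⟨_, isCone_neg, h⟩
    · exact ⟨_, isCone_pos, h⟩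
  have hrel := relCone_centralizer x
  have hU := hrel.union hR
  have hcone := hC _ hU
  let g : G := (x * a)⁻¹
  have mono : ∀ {a b : G} (y : G), a < b → y⁻¹ * a * y < y⁻¹ * b * y := by
    intro a b y h
    have := (conj_lt_conj_iff y⁻¹).2 h
    simpa using this
  -- `g ∈ Q`
  have hgQ : g ∈ {g : G | x < g⁻¹ * x * g} := by
    show x < g⁻¹ * x * g
    have h1 : g⁻¹ * x * g = x * (a * (x * a⁻¹ * x⁻¹)) := by
      show ((x * a)⁻¹)⁻¹ * x * (x * a)⁻¹ = _
      group
    rw [h1]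
    conv_lhs => rw [← mul_one x]
    apply mul_lt_mul_right
    -- 1 < a * (x a⁻¹ x⁻¹)
    have h2 : x * (a * a) * x⁻¹ < a := by
      have := (conj_lt_conj_iff x).2 hcon
      have h3 : x * (x⁻¹ * a * x) * x⁻¹ = a := by group
      rwa [h3] at this
    have h4 : x * a * x⁻¹ < a := by
      refine lt_trans ?_ h2
      rw [conj_lt_conj_iff]
      conv_lhs => rw [← mul_one a]
      exact mul_lt_mul_right ha a
    have h5 : x * a⁻¹ * x⁻¹ = (x * a * x⁻¹)⁻¹ := by group
    rw [h5]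
    have h6 := mul_lt_mul_left h4 (x * a * x⁻¹)⁻¹
    rwa [mul_inv_cancel] at h6
  have hf : x ∈ {g : G | x < g⁻¹ * x * g} ∪ (Subtype.val '' R) := Or.inr ⟨_, hxR, rfl⟩
  have hgf : g * x⁻¹ ∈ {g : G | x < g⁻¹ * x * g} ∪ (Subtype.val '' R) :=
    Or.inl (hrel.right ((Subgroup.centralizer {x}).inv_mem hxc) hgQ)
  obtain ⟨m, hm, hw⟩ := hcone x g hf hgf
  -- the element is negative
  have hpow : ∀ n : ℕ, (g ^ n)⁻¹ * x * g ^ n < x * a := by
    intro n
    have h1 : x < x * a := by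
      conv_lhs => rw [← mul_one x]
      exact mul_lt_mul_right ha x
    have h2 := mono (g ^ n) h1
    have h3 : (g ^ n)⁻¹ * (x * a) * g ^ n = x * a := by
      have hcomm : Commute (x * a) g := by
        show (x * a) * (x * a)⁻¹ = (x * a)⁻¹ * (x * a)
        group
      have := (hcomm.pow_right n).eq
      rw [mul_assoc, this]; group
    rwa [h3] at h2
  have hneg : (x * g ^ m * x⁻¹ * g⁻¹)⁻¹ ∈ {g : G | x < g⁻¹ * x * g} := by
    show x < _
    have h1 : ((x * g ^ m * x⁻¹ * g⁻¹)⁻¹)⁻¹ * x * (x * g ^ m * x⁻¹ * g⁻¹)⁻¹ =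
        (x * g ^ m) * (a * x * a⁻¹) * (x * g ^ m)⁻¹ := by
      show ((x * g ^ m * x⁻¹ * ((x * a)⁻¹)⁻¹)⁻¹)⁻¹ * x * (x * g ^ m * x⁻¹ * ((x * a)⁻¹)⁻¹)⁻¹ = _
      group
    rw [h1]
    have h2 : x = (x * g ^ m) * ((g ^ m)⁻¹ * x * g ^ m) * (x * g ^ m)⁻¹ := by group
    conv_lhs => rw [h2]
    rw [conj_lt_conj_iff]
    refine lt_trans (hpow m) ?_
    have h3 : a * x * a⁻¹ = x * (x⁻¹ * a * x * a⁻¹) := by group
    rw [h3]
    apply mul_lt_mul_right
    exact lt_mul_inv_iff_mul_lt.2 hcon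
  have h9 : x * g ^ m * x⁻¹ * g⁻¹ ∉ {g : G | x < g⁻¹ * x * g} ∪ (Subtype.val '' R) := by
    intro h
    have h10 := hU.mul h (Or.inl hneg : _ ∈ {g : G | x < g⁻¹ * x * g} ∪ (Subtype.val '' R))
    rw [mul_inv_cancel] at h10
    exact hU.one h10
  exact h9 hw

end BiOrd

section Cen

variable {G : Type*} [Group G] [LinearOrder G] [MulLeftMono G] [MulRightMono G]

lemma conj_le_conj {a b : G} (y : G) (h : a ≤ b) : y * a * y⁻¹ ≤ y * b * y⁻¹ :=
  mul_le_mul_left (mul_le_mul_right h _) _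

/-- from the inequality of (L1), half of centrality -/
lemma pow_lt_of_conj (H : ∀ a : G, 1 < a → ∀ x : G, x * a * x⁻¹ ≤ a * a) {a : G} (ha : 1 < a)
    (y : G) (hd : 1 < y * a * y⁻¹ * a⁻¹) (n : ℕ) : (y * a * y⁻¹ * a⁻¹) ^ n < a := by
  by_contra hcon
  rw [not_lt] at hcon
  set d := y * a * y⁻¹ * a⁻¹ with hdd
  let e : ℕ → G := fun j => y ^ j * d * (y ^ j)⁻¹
  have he : ∀ j, d ≤ e j * e j := by
    intro j
    have h1 : 1 < e j := by
      have := (conj_lt_conj_iff (y ^ j)).2 hd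
      simpa [e] using this
    have h2 := H (e j) h1 (y ^ j)⁻¹
    have h3 : (y ^ j)⁻¹ * e j * ((y ^ j)⁻¹)⁻¹ = d := by
      show (y ^ j)⁻¹ * (y ^ j * d * (y ^ j)⁻¹) * ((y ^ j)⁻¹)⁻¹ = d
      group
    rwa [h3] at h2
  have hee : ∀ i j, d ≤ e i * e j := by
    intro i j
    rcases le_total (e i) (e j) with h | h
    · exact (he i).trans (mul_le_mul_right h _)
    · exact (he j).trans (mul_le_mul_left h _)
  let s : ℕ → G := fun k => y ^ k * a * (y ^ k)⁻¹ * a⁻¹
  have hs : ∀ k, s (k + 1) = e k * s k := by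
    intro k
    show y ^ (k + 1) * a * (y ^ (k + 1))⁻¹ * a⁻¹ = (y ^ k * d * (y ^ k)⁻¹) *
      (y ^ k * a * (y ^ k)⁻¹ * a⁻¹)
    rw [hdd, pow_succ]
    group
  have hs2 : ∀ i : ℕ, d ^ i ≤ s (2 * i) := by
    intro i
    induction i with
    | zero => simp [s]
    | succ i ih =>
      have h1 : s (2 * (i + 1)) = e (2 * i + 1) * e (2 * i) * s (2 * i) := by
        rw [mul_assoc, ← hs, ← hs]
        rfl
      rw [h1, pow_succ']
      exact mul_le_mul' (hee _ _) ih
  have h1 := hs2 (2 * n)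
  have h2 : s (2 * (2 * n)) ≤ a := by
    have := H a ha (y ^ (2 * (2 * n)))
    show y ^ (2 * (2 * n)) * a * (y ^ (2 * (2 * n)))⁻¹ * a⁻¹ ≤ a
    exact mul_inv_le_iff_le_mul.2 this
  have h3 : a * a ≤ d ^ (2 * n) := by
    rw [two_mul, pow_add]
    exact mul_le_mul' hcon hcon
  have h4 : a * a ≤ a := h3.trans (h1.trans h2)
  have h5 : a < a * a := by
    conv_lhs => rw [← mul_one a]
    exact mul_lt_mul_right ha a
  exact absurd h4 (not_le.2 h5)

/-- every bi-order on a group all of whose right orders are Conrad is central -/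
theorem central_of_allConrad (hC : AllConrad G) : Central G := by
  have H : ∀ a : G, 1 < a → ∀ x : G, x * a * x⁻¹ ≤ a * a := by
    intro a ha x
    have := conj_le_sq hC ha x⁻¹
    simpa using this
  -- positive elements
  have key : ∀ a : G, 1 < a → ∀ y : G, ∀ n : ℕ, |⁅a, y⁆|ₘ ^ n < a := by
    intro a ha y n
    have h0 : |⁅a, y⁆|ₘ = |y * a * y⁻¹ * a⁻¹|ₘ := by
      rw [← mabs_inv']
      congr 1
      rw [commutatorElement_def]; group
    rw [h0]
    rcases lt_trichotomy 1 (y * a * y⁻¹ * a⁻¹) with h | h | h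
    · rw [mabs_of_one_le' h.le]
      exact pow_lt_of_conj H ha y h n
    · rw [← h, mabs_one', one_pow]; exact ha
    · -- use `y⁻¹`
      have h1 : y⁻¹ * (y * a * y⁻¹ * a⁻¹) * y⁻¹⁻¹ = (y⁻¹ * a * y⁻¹⁻¹ * a⁻¹)⁻¹ := by group
      have h2 : 1 < y⁻¹ * a * y⁻¹⁻¹ * a⁻¹ := by
        rw [← Left.inv_lt_one_iff, ← h1]
        have := (conj_lt_conj_iff y⁻¹).2 h
        simpa using this
      have h3 := pow_lt_of_conj H ha y⁻¹ h2 n
      have h4 : |y * a * y⁻¹ * a⁻¹|ₘ = y * (y⁻¹ * a * y⁻¹⁻¹ * a⁻¹) * y⁻¹ := by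
        rw [← mabs_inv', mabs_of_one_le' (Left.one_le_inv_iff.2 h.le)]
        group
      rw [h4, conj_pow]
      have h5 := (conj_lt_conj_iff y).2 h3
      refine lt_trans h5 ?_
      have h6 : y * a * y⁻¹ * a⁻¹ * a < 1 * a := mul_lt_mul_left h a
      simpa using h6
  intro a y ha n
  rcases lt_or_gt_of_ne ha with h | h
  · have h1 : 1 < a⁻¹ := Left.one_lt_inv_iff.2 h
    have h2 := key a⁻¹ h1 y n
    rw [← mabs_inv' a, mabs_of_one_le' h1.le]
    have h3 : ⁅a, y⁆ = a * ⁅a⁻¹, y⁆⁻¹ * a⁻¹ := by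
      rw [commutatorElement_def, commutatorElement_def]; group
    rw [h3, mabs_conj, mabs_inv', conj_pow]
    have h4 := (conj_lt_conj_iff a).2 h2
    have h5 : a * a⁻¹ * a⁻¹ = a⁻¹ := by group
    rwa [h5] at h4
  · rw [mabs_of_one_le' h.le]
    exact key a h y n

end Cen

end Pool.Agent.H12.CR
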