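import Pool.Agent.H12.CR.Cls

/-! MP_8a02cf_al: the unipotent action on real functionals. -/

set_option linter.unusedSectionVars false
set_option linter.style.haveILetI false

namespace Pool.Agent.H12.CR

open scoped commutatorElement
open Polynomial

section Alg

variable {V : Type*} [AddCommGroup V] [Module ℝ V]

lemma exists_inv (T : Module.End ℝ V) (ψ : V) (c : ℕ) (hψ : ((T - 1) ^ c) ψ = 0) (R : ℝ[X])
    (hR : R.eval 1 ≠ 0) : ∃ A : ℝ[X], aeval T (R * A) ψ = ψ := by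
  have h1 : IsCoprime (X - C (1 : ℝ)) R := by
    rw [(Polynomial.irreducible_X_sub_C (1 : ℝ)).coprime_iff_not_dvd, Polynomial.dvd_iff_isRoot]
    exact hR
  have h2 : IsCoprime ((X - C (1 : ℝ)) ^ c) R := h1.pow_left
  obtain ⟨a, b, hab⟩ := h2
  refine ⟨b, ?_⟩
  have h3 : R * b = 1 - a * (X - C (1 : ℝ)) ^ c := by rw [← hab]; ring
  rw [h3, map_sub, map_one, map_mul, map_pow, map_sub, aeval_X, aeval_C, map_one,
    LinearMap.sub_apply, Module.End.mul_apply, hψ, map_zero, sub_zero]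
  rfl

/-- a polynomial in `T` is a combination of powers of `T - 1` -/
lemma aeval_eq_comp (T : Module.End ℝ V) (P : ℝ[X]) :
    aeval T P = aeval (T - 1) (P.comp (X + C 1)) := by
  rw [aeval_comp]
  congr 1
  simp

end Alg

section Act

variable {Y : Type*} [Group Y] (θ : Y →* Multiplicative ℝ)

/-- real functionals on the kernel of `θ` -/
abbrev VV : Type _ := Additive θ.ker →+ ℝ

/-- the conjugation action on functionals -/
noncomputable def TT (y : Y) : Module.End ℝ (VV θ) where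
  toFun ψ := ψ.comp (MonoidHom.toAdditive (MulAut.conjNormal y : MulAut θ.ker).toMonoidHom)
  map_add' ψ ψ' := rfl
  map_smul' r ψ := rfl

variable {θ}

lemma TT_apply (y : Y) (ψ : VV θ) (a : θ.ker) :
    TT θ y ψ (Additive.ofMul a) = ψ (Additive.ofMul (MulAut.conjNormal y a)) := rfl

lemma VV_ext {ψ ψ' : VV θ} (h : ∀ a : θ.ker, ψ (Additive.ofMul a) = ψ' (Additive.ofMul a)) :
    ψ = ψ' := AddMonoidHom.ext h

lemma VV_mul (ψ : VV θ) (a b : θ.ker) :
    ψ (Additive.ofMul (a * b)) = ψ (Additive.ofMul a) + ψ (Additive.ofMul b) := by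
  rw [ofMul_mul, map_add]

lemma VV_inv (ψ : VV θ) (a : θ.ker) :
    ψ (Additive.ofMul a⁻¹) = - ψ (Additive.ofMul a) := by
  rw [ofMul_inv, map_neg]

lemma VV_pow (ψ : VV θ) (a : θ.ker) (n : ℕ) :
    ψ (Additive.ofMul (a ^ n)) = n * ψ (Additive.ofMul a) := by
  rw [ofMul_pow, map_nsmul, nsmul_eq_mul]

lemma TT_mul (y y' : Y) : TT θ (y * y') = TT θ y' * TT θ y := by
  apply LinearMap.ext; intro ψ
  apply VV_ext; intro a
  show ψ (Additive.ofMul (MulAut.conjNormal (y * y') a)) =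
    ψ (Additive.ofMul (MulAut.conjNormal y (MulAut.conjNormal y' a)))
  rw [map_mul]; rfl

lemma TT_one : TT θ 1 = 1 := by
  apply LinearMap.ext; intro ψ
  apply VV_ext; intro a
  show ψ (Additive.ofMul (MulAut.conjNormal 1 a)) = ψ (Additive.ofMul a)
  rw [map_one]; rfl

lemma TT_pow (y : Y) (n : ℕ) : TT θ (y ^ n) = TT θ y ^ n := by
  induction n with
  | zero => rw [pow_zero, pow_zero, TT_one]
  | succ n ih => rw [pow_succ, TT_mul, ih, pow_succ']

lemma TT_ker (k : θ.ker) : TT θ (k : Y) = 1 := by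
  apply LinearMap.ext; intro ψ
  apply VV_ext; intro a
  show ψ (Additive.ofMul (MulAut.conjNormal (k : Y) a)) = ψ (Additive.ofMul a)
  have h1 : MulAut.conjNormal (k : Y) a = k * a * k⁻¹ := by
    apply Subtype.ext
    rw [MulAut.conjNormal_apply]; rfl
  rw [h1, VV_mul, VV_mul, VV_inv]; ring

lemma TT_congr {y y' : Y} (h : θ y = θ y') : TT θ y = TT θ y' := by
  have h1 : y * y'⁻¹ ∈ θ.ker := by
    rw [MonoidHom.mem_ker, map_mul, map_inv, h, mul_inv_cancel]
  have h2 : TT θ y = TT θ (y * y'⁻¹ * y') := by rw [inv_mul_cancel_right]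
  rw [h2, TT_mul, TT_ker ⟨_, h1⟩, mul_one]

variable (θ) in
/-- functionals killing the `j`-th term of the lower central series -/
def WW (j : ℕ) : Submodule ℝ (VV θ) where
  carrier := {ψ | ∀ a : θ.ker, (a : Y) ∈ (⊤ : Subgroup Y).lowerCentralSeries j →
    ψ (Additive.ofMul a) = 0}
  add_mem' := by
    intro ψ ψ' h h' a ha
    rw [AddMonoidHom.add_apply, h a ha, h' a ha, add_zero]
  zero_mem' := fun a _ => rfl
  smul_mem' := by
    intro r ψ h a ha
    show r * ψ (Additive.ofMul a) = 0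
    rw [h a ha, mul_zero]

lemma mem_WW {j : ℕ} {ψ : VV θ} : ψ ∈ WW θ j ↔ ∀ a : θ.ker,
    (a : Y) ∈ (⊤ : Subgroup Y).lowerCentralSeries j → ψ (Additive.ofMul a) = 0 := Iff.rfl

lemma WW_stable {j : ℕ} {ψ : VV θ} (h : ψ ∈ WW θ j) (y : Y) : TT θ y ψ ∈ WW θ j := by
  intro a ha
  rw [TT_apply]
  apply h
  rw [MulAut.conjNormal_apply]
  exact Subgroup.Normal.conj_mem inferInstance _ ha y

lemma WW_aeval {j : ℕ} {ψ : VV θ} (h : ψ ∈ WW θ j) (y : Y) (P : ℝ[X]) :
    aeval (TT θ y) P ψ ∈ WW θ j := by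
  have hpow : ∀ n : ℕ, (TT θ y ^ n) ψ ∈ WW θ j := by
    intro n
    rw [← TT_pow]
    exact WW_stable h _
  rw [aeval_eq_sum_range, LinearMap.sum_apply]
  apply Submodule.sum_mem
  intro i _
  rw [LinearMap.smul_apply]
  exact Submodule.smul_mem _ _ (hpow i)

lemma WW_sub_one {j : ℕ} {ψ : VV θ} (h : ψ ∈ WW θ (j + 1)) (y : Y) :
    (TT θ y - 1) ψ ∈ WW θ j := by
  intro a ha
  rw [LinearMap.sub_apply, AddMonoidHom.sub_apply, TT_apply]
  show ψ (Additive.ofMul (MulAut.conjNormal y a)) - ψ (Additive.ofMul a) = 0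
  have h1 : ψ (Additive.ofMul (MulAut.conjNormal y a * a⁻¹)) = 0 := by
    apply h
    have h2 : ((MulAut.conjNormal y a * a⁻¹ : θ.ker) : Y) = ⁅(a : Y), y⁆⁻¹ := by
      rw [Subgroup.coe_mul, MulAut.conjNormal_apply, commutatorElement_def]
      show y * (a : Y) * y⁻¹ * (a : Y)⁻¹ = _
      group
    rw [h2]
    exact Subgroup.inv_mem _ (Subgroup.commutator_mem_commutator ha (Subgroup.mem_top y))
  rw [VV_mul, VV_inv] at h1
  linarith

lemma WW_zero {ψ : VV θ} (h : ψ ∈ WW θ 0) : ψ = 0 := by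
  apply VV_ext
  intro a
  exact h a (Subgroup.mem_top _)

lemma WW_nil (y : Y) : ∀ (j : ℕ) (ψ : VV θ), ψ ∈ WW θ j → ((TT θ y - 1) ^ j) ψ = 0 := by
  intro j
  induction j with
  | zero =>
    intro ψ h
    rw [pow_zero, WW_zero h, map_zero]
  | succ j ih =>
    intro ψ h
    rw [pow_succ, Module.End.mul_apply]
    exact ih _ (WW_sub_one h y)

variable (θ) in
/-- `h` is unipotent for `x` -/
def Uni (x : Y) (h : θ.ker) : Prop :=
  ∃ m : ℕ, ∀ j : ℕ, ∀ ψ ∈ WW θ j, ((TT θ x - 1) ^ m) ψ (Additive.ofMul h) = 0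

/-- the key step: everything is unipotent -/
theorem uni (hC : AllConrad Y) {P : Set Y} (hP : IsCone P)
    (hrat : ∀ y : Y, ∃ q : ℚ, Multiplicative.toAdd (θ y) = q) (x : Y)
    (hx : θ x = Multiplicative.ofAdd 1) (h : θ.ker) : Uni θ x h := by
  by_contra hU
  refine affine_contra θ P hP hC hrat x hx h ?_
  intro y k hk hyk R hR
  by_contra hcon
  push Not at hcon
  apply hU
  -- factor `R`
  obtain ⟨R₁, hR₁, hR₁'⟩ := Polynomial.exists_eq_pow_rootMultiplicity_mul_and_not_dvd R hR 1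
  set μ := R.rootMultiplicity 1 with hμ
  let ι : ℤ →+* ℝ := Int.castRingHom ℝ
  have hR₁e : (R₁.map ι).eval 1 ≠ 0 := by
    intro h1
    apply hR₁'
    rw [Polynomial.dvd_iff_isRoot, Polynomial.IsRoot]
    have h2 : (R₁.map ι).eval 1 = ((R₁.eval 1 : ℤ) : ℝ) := by
      have := Polynomial.eval_map_apply ι (p := R₁) (1 : ℤ)
      simpa [ι] using this
    rw [h2] at h1
    exact_mod_cast h1
  have hkill : ∀ ψ : VV θ, aeval (TT θ y) (R.map ι) ψ (Additive.ofMul h) = 0 := by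
    intro ψ
    have h1 := hcon (AddMonoidHom.toMultiplicative ψ)
    rw [aeval_eq_sum_range, LinearMap.sum_apply, AddMonoidHom.finsetSum_apply]
    rw [Polynomial.sum_over_range] at h1
    · have h2 : (R.map ι).natDegree = R.natDegree :=
        Polynomial.natDegree_map_eq_of_injective (Int.cast_injective) R
      rw [h2, ← h1]
      apply Finset.sum_congr rfl
      intro i _
      rw [LinearMap.smul_apply, ← TT_pow, Polynomial.coeff_map]
      rfl
    · intro i; rw [Int.cast_zero, zero_mul]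
  have hstep : ∀ j, ∀ ψ ∈ WW θ j, ((TT θ y - 1) ^ μ) ψ (Additive.ofMul h) = 0 := by
    intro j ψ hψ
    obtain ⟨A, hA⟩ := exists_inv (TT θ y) ψ j (WW_nil y j ψ hψ) (R₁.map ι) hR₁e
    have h1 : ((TT θ y - 1) ^ μ) ψ = aeval (TT θ y) (R.map ι) (aeval (TT θ y) A ψ) := by
      conv_lhs => rw [← hA]
      have h2 : R.map ι = (X - C 1) ^ μ * R₁.map ι := by
        conv_lhs => rw [hR₁]
        simp [ι]
      rw [h2, map_mul, map_mul, map_pow, map_sub, aeval_X, aeval_C, map_one]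
      rfl
    rw [h1]
    exact hkill _
  refine ⟨μ, ?_⟩
  intro j ψ hψ
  have hTx : TT θ x = TT θ y ^ k := by
    rw [← TT_pow]
    apply TT_congr
    rw [hx, map_pow, hyk]
  have h3 : ((TT θ x - 1) ^ μ) ψ = ((TT θ y - 1) ^ μ)
      (aeval (TT θ y) ((∑ i ∈ Finset.range k, (X : ℝ[X]) ^ i) ^ μ) ψ) := by
    rw [hTx]
    have h4 : (TT θ y ^ k - 1) ^ μ = aeval (TT θ y) (((X : ℝ[X]) ^ k - 1) ^ μ) := by
      simp
    rw [h4, ← mul_geom_sum, mul_pow, map_mul, Module.End.mul_apply]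
    congr 1
    simp
  rw [h3]
  exact hstep j _ (WW_aeval hψ y _)

end Act

end Pool.Agent.H12.CR
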