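import Pool.Agent.H12.CR.RC

/-! MP_8a02cf_al: quotients of centrally bi-ordered groups. -/

set_option linter.unusedSectionVars false

namespace Pool.Agent.H12.CR

open scoped commutatorElement

/-! ### orders from cones -/

section Cone

variable {G : Type*} [Group G]

theorem exists_order {P : Set G} (hP : IsCone P) (hconj : ∀ a ∈ P, ∀ y : G, y * a * y⁻¹ ∈ P) :
    ∃ (_ : LinearOrder G) (_ : MulLeftMono G) (_ : MulRightMono G), ∀ a : G, 1 < a ↔ a ∈ P := by
  classical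
  let o : LinearOrder G :=
    { le := fun a b => a = b ∨ a⁻¹ * b ∈ P
      le_refl := fun a => Or.inl rfl
      le_trans := by
        rintro a b c (rfl | h1) (rfl | h2)
        · left; rfl
        · right; exact h2
        · right; exact h1
        · right
          have := hP.mul h1 h2
          have h3 : a⁻¹ * b * (b⁻¹ * c) = a⁻¹ * c := by group
          rwa [h3] at this
      le_antisymm := by
        rintro a b (rfl | h1) (h2 | h2)
        · rfl
        · rfl
        · exact h2.symm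
        · exfalso
          have := hP.mul h1 h2
          have h3 : a⁻¹ * b * (b⁻¹ * a) = 1 := by group
          rw [h3] at this
          exact hP.one this
      le_total := by
        intro a b
        by_cases hab : a = b
        · left; left; exact hab
        · have h1 : a⁻¹ * b ≠ 1 := by
            intro h; apply hab; exact (inv_mul_eq_one.1 h)
          rcases hP.tri _ h1 with h2 | h2
          · left; right; exact h2
          · right; right
            have h3 : (a⁻¹ * b)⁻¹ = b⁻¹ * a := by group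
            rwa [h3] at h2
      toDecidableLE := Classical.decRel _ }
  have hle : ∀ a b : G, a ≤ b ↔ a = b ∨ a⁻¹ * b ∈ P := fun a b => Iff.rfl
  refine ⟨o, ⟨?_⟩, ⟨?_⟩, ?_⟩
  · intro a b c h
    rw [hle] at h
    show a * b ≤ a * c
    rw [hle]
    rcases h with rfl | h
    · left; rfl
    · right
      have h3 : (a * b)⁻¹ * (a * c) = b⁻¹ * c := by group
      rwa [h3]
  · intro a b c h
    rw [hle] at h
    show b * a ≤ c * a
    rw [hle]
    rcases h with rfl | h
    · left; rfl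
    · right
      have h3 : (b * a)⁻¹ * (c * a) = a⁻¹ * (b⁻¹ * c) * a⁻¹⁻¹ := by group
      rw [h3]
      exact hconj _ h _
  · intro a
    rw [lt_iff_le_and_ne, hle]
    constructor
    · rintro ⟨h | h, hne⟩
      · exact absurd h hne
      · simpa using h
    · intro h
      refine ⟨Or.inr (by simpa using h), ?_⟩
      rintro rfl
      exact hP.one h

/-- `Q` is the preimage of the positive cone of a bi-order of `G ⧸ Z`. -/
structure BiRelCone (Z : Subgroup G) (Q : Set G) : Prop where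
  mul : ∀ {a b : G}, a ∈ Q → b ∈ Q → a * b ∈ Q
  left : ∀ {h q : G}, h ∈ Z → q ∈ Q → h * q ∈ Q
  disj : ∀ {a : G}, a ∈ Z → a ∉ Q
  tri : ∀ a : G, a ∉ Z → a ∈ Q ∨ a⁻¹ ∈ Q
  conj : ∀ {a : G}, a ∈ Q → ∀ y : G, y * a * y⁻¹ ∈ Q

theorem BiRelCone.exists_order {Z : Subgroup G} [Z.Normal] {Q : Set G} (h : BiRelCone Z Q) :
    ∃ (_ : LinearOrder (G ⧸ Z)) (_ : MulLeftMono (G ⧸ Z)) (_ : MulRightMono (G ⧸ Z)),
      ∀ a : G, 1 < (a : G ⧸ Z) ↔ a ∈ Q := by
  have sat : ∀ a b : G, (a : G ⧸ Z) = b → a ∈ Q → b ∈ Q := by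
    intro a b hab ha
    have h1 : b * a⁻¹ ∈ Z := by
      have h2 : a⁻¹ * b ∈ Z := QuotientGroup.eq.1 hab
      have h3 := Subgroup.Normal.conj_mem (inferInstance : Z.Normal) _ h2 a
      have h4 : a * (a⁻¹ * b) * a⁻¹ = b * a⁻¹ := by group
      rwa [h4] at h3
    have h5 := h.left h1 ha
    have h6 : b * a⁻¹ * a = b := by group
    rwa [h6] at h5
  let P : Set (G ⧸ Z) := {x | ∃ g : G, (g : G ⧸ Z) = x ∧ g ∈ Q}
  have hmem : ∀ a : G, (a : G ⧸ Z) ∈ P ↔ a ∈ Q := by
    intro a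
    constructor
    · rintro ⟨g, hg, hgQ⟩
      exact sat g a hg hgQ
    · intro ha; exact ⟨a, rfl, ha⟩
  have hP : IsCone P := by
    refine ⟨?_, ?_, ?_⟩
    · rintro _ _ ⟨a, rfl, ha⟩ ⟨b, rfl, hb⟩
      exact ⟨a * b, rfl, h.mul ha hb⟩
    · intro h1
      have := (hmem 1).1 (by simpa using h1)
      exact h.disj Z.one_mem this
    · intro x hx
      obtain ⟨a, rfl⟩ := QuotientGroup.mk_surjective x
      have ha : a ∉ Z := by
        intro ha
        exact hx ((QuotientGroup.eq_one_iff a).2 ha)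
      rcases h.tri a ha with h1 | h1
      · left; exact (hmem a).2 h1
      · right; exact (hmem a⁻¹).2 h1
  have hconj : ∀ a ∈ P, ∀ y : G ⧸ Z, y * a * y⁻¹ ∈ P := by
    rintro _ ⟨a, rfl, ha⟩ y
    obtain ⟨y, rfl⟩ := QuotientGroup.mk_surjective y
    exact ⟨y * a * y⁻¹, rfl, h.conj ha y⟩
  obtain ⟨o, l, r, hlt⟩ := Pool.Agent.H12.CR.exists_order hP hconj
  exact ⟨o, l, r, fun a => (hlt _).trans (hmem a)⟩

/-- Levi: torsion-free commutative groups are orderable -/
theorem levi (hcomm : ∀ a b : G, a * b = b * a) (htf : ∀ a : G, ∀ n : ℕ, 0 < n → a ^ n = 1 → a = 1) :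
    ∃ P : Set G, IsCone P := by
  let F : Set (Set G) := {S | (∀ a ∈ S, ∀ b ∈ S, a * b ∈ S) ∧ (1 : G) ∉ S}
  obtain ⟨S, hS⟩ : ∃ S, Maximal (· ∈ F) S := by
    apply zorn_subset
    intro c hc hchain
    rcases c.eq_empty_or_nonempty with rfl | hne
    · exact ⟨∅, ⟨fun a ha => absurd ha (Set.notMem_empty _), Set.notMem_empty _⟩,
        fun s hs => absurd hs (Set.notMem_empty _)⟩
    · refine ⟨⋃₀ c, ⟨?_, ?_⟩, fun s hs => Set.subset_sUnion_of_mem hs⟩
      · rintro a ⟨s, hs, ha⟩ b ⟨t, ht, hb⟩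
        rcases hchain.total hs ht with h | h
        · exact ⟨t, ht, (hc ht).1 a (h ha) b hb⟩
        · exact ⟨s, hs, (hc hs).1 a ha b (h hb)⟩
      · rintro ⟨s, hs, h1⟩
        exact (hc hs).2 h1
  have hpow : ∀ a ∈ S, ∀ n : ℕ, 0 < n → a ^ n ∈ S := by
    intro a ha n hn
    induction n with
    | zero => exact absurd hn (lt_irrefl _)
    | succ n ih =>
      rcases Nat.eq_zero_or_pos n with rfl | h
      · simpa using ha
      · rw [pow_succ]; exact hS.1.1 _ (ih h) _ ha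
  have key : ∀ a : G, a ≠ 1 → a ∉ S → ∃ n : ℕ, 0 < n ∧ (a⁻¹) ^ n ∈ S := by
    intro a ha haS
    let T : Set G := {g | (∃ n : ℕ, 0 < n ∧ g = a ^ n) ∨ (∃ s ∈ S, ∃ n : ℕ, g = s * a ^ n)}
    have hST : S ⊆ T := fun s hs => Or.inr ⟨s, hs, 0, by simp⟩
    have haT : a ∈ T := Or.inl ⟨1, one_pos, by simp⟩
    have hmul : ∀ g ∈ T, ∀ g' ∈ T, g * g' ∈ T := by
      rintro g (⟨n, hn, rfl⟩ | ⟨s, hs, n, rfl⟩) g' (⟨m, hm, rfl⟩ | ⟨s', hs', m, rfl⟩)
      · left; exact ⟨n + m, by omega, by rw [pow_add]⟩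
      · right; exact ⟨s', hs', n + m, by rw [pow_add, ← mul_assoc, hcomm (a ^ n) s', mul_assoc]⟩
      · right; exact ⟨s, hs, n + m, by rw [pow_add, mul_assoc]⟩
      · right
        refine ⟨s * s', hS.1.1 s hs s' hs', n + m, ?_⟩
        rw [pow_add, mul_assoc, ← mul_assoc (a ^ n), hcomm (a ^ n) s', mul_assoc, mul_assoc]
    by_cases h1 : (1 : G) ∈ T
    · rcases h1 with ⟨n, hn, h1⟩ | ⟨s, hs, n, h1⟩
      · exact absurd (htf a n hn h1.symm) ha
      · have hn : 0 < n := by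
          rcases Nat.eq_zero_or_pos n with rfl | h
          · rw [pow_zero, mul_one] at h1
            rw [← h1] at hs
            exact absurd hs hS.1.2
          · exact h
        refine ⟨n, hn, ?_⟩
        have : s = (a⁻¹) ^ n := by
          rw [inv_pow]
          exact eq_inv_of_mul_eq_one_left h1.symm
        rwa [← this]
    · exact absurd (hS.2 ⟨hmul, h1⟩ hST haT) haS
  refine ⟨S, ⟨fun ha hb => hS.1.1 _ ha _ hb, hS.1.2, ?_⟩⟩
  intro a ha
  by_contra hcon
  push Not at hcon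
  obtain ⟨n, hn, h1⟩ := key a ha hcon.1
  obtain ⟨m, hm, h2⟩ := key a⁻¹ (inv_ne_one.2 ha) hcon.2
  rw [inv_inv] at h2
  have h3 := hS.1.1 _ (hpow _ h1 m hm) _ (hpow _ h2 n hn)
  have h4 : ((a⁻¹) ^ n) ^ m * (a ^ m) ^ n = 1 := by
    rw [← pow_mul, ← pow_mul, mul_comm m n, inv_pow, inv_mul_cancel]
  rw [h4] at h3
  exact hS.1.2 h3

end Cone

section Quot

variable {G : Type*} [Group G] [LinearOrder G] [MulLeftMono G] [MulRightMono G]

/-- centrality may be checked on positive elements -/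
lemma central_of_pos (H : ∀ a : G, 1 < a → ∀ y : G, ∀ n : ℕ, 1 < a * ⁅a, y⁆ ^ n ∧
    1 < a * (⁅a, y⁆⁻¹) ^ n) : Central G := by
  have key : ∀ a : G, 1 < a → ∀ y : G, ∀ n : ℕ, |⁅a, y⁆|ₘ ^ n < a := by
    intro a ha y n
    obtain ⟨h1, h2⟩ := H a ha y n
    have h3 : ∀ w : G, 1 < a * w ^ n → (w⁻¹) ^ n < a := by
      intro w hw
      rw [inv_pow]
      have := mul_lt_mul_left hw (w ^ n)⁻¹
      simpa [mul_assoc] using this
    rcases mabs_eq_or ⁅a, y⁆ with h | h
    · rw [h]; have := h3 _ h2; rwa [inv_inv] at this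
    · rw [h]; exact h3 _ h1
  intro a y ha n
  rcases lt_or_gt_of_ne ha with h | h
  · have h1 : 1 < a⁻¹ := Left.one_lt_inv_iff.2 h
    have h2 := key a⁻¹ h1 y n
    rw [← mabs_inv' a, mabs_of_one_le' h1.le]
    have h3 : ⁅a, y⁆ = a * ⁅a⁻¹, y⁆⁻¹ * a⁻¹ := by
      rw [commutatorElement_def, commutatorElement_def]; group
    rw [h3, mabs_conj, mabs_inv', conj_pow]
    have h4 := (conj_lt_conj_iff a).2 h2
    have h5 : a * a⁻¹ * a⁻¹ = a⁻¹ := by group
    rwa [h5] at h4
  · rw [mabs_of_one_le' h.le]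
    exact key a h y n

/-- the positive elements outside a convex normal subgroup -/
lemma Cvx.biRelCone {D : Subgroup G} (h : Cvx D) (hn : D.Normal) :
    BiRelCone D {g | g ∉ D ∧ 1 < g} := by
  refine ⟨?_, ?_, ?_, ?_, ?_⟩
  · rintro a b ⟨ha, ha1⟩ ⟨hb, hb1⟩
    refine ⟨?_, one_lt_mul'' ha1 hb1⟩
    intro hab
    apply ha
    refine h _ hab a ?_
    rw [mabs_of_one_le' ha1.le, mabs_of_one_le' (one_lt_mul'' ha1 hb1).le]
    conv_lhs => rw [← mul_one a]
    exact (mul_lt_mul_right hb1 a).le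
  · rintro d q hd ⟨hq, hq1⟩
    refine ⟨fun hdq => hq ?_, ?_⟩
    · have := D.mul_mem (D.inv_mem hd) hdq
      simpa using this
    · have h1 := (h.sm hd hq).lt
      rw [mabs_of_one_le' hq1.le] at h1
      have h2 : d⁻¹ < q := (inv_le_mabs' d).trans_lt h1
      have := mul_lt_mul_right h2 d
      simpa using this
  · rintro a ha ⟨ha', _⟩
    exact ha' ha
  · intro a ha
    have ha1 : a ≠ 1 := by rintro rfl; exact ha D.one_mem
    rcases lt_or_gt_of_ne ha1 with h1 | h1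
    · right; exact ⟨fun h2 => ha (by simpa using D.inv_mem h2), Left.one_lt_inv_iff.2 h1⟩
    · left; exact ⟨ha, h1⟩
  · rintro a ⟨ha, ha1⟩ y
    refine ⟨fun h1 => ha ?_, ?_⟩
    · have := hn.conj_mem _ h1 y⁻¹
      have h2 : y⁻¹ * (y * a * y⁻¹) * y⁻¹⁻¹ = a := by group
      rwa [h2] at this
    · have := (conj_lt_conj_iff y).2 ha1
      simpa using this

lemma Sm.le_sq {w g : G} (h : Sm w g) : |g|ₘ ≤ |g * w|ₘ * |g * w|ₘ := by
  have h1 : g = (g * w) * w⁻¹ := by group
  rcases le_total (|w|ₘ) (|g * w|ₘ) with h2 | h2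
  · conv_lhs => rw [h1]
    exact mabs_mul_le _ _ le_rfl (by rw [mabs_inv']; exact h2)
  · exfalso
    have h3 : |g|ₘ ≤ |w|ₘ * |w|ₘ := by
      conv_lhs => rw [h1]
      exact mabs_mul_le _ _ h2 (by rw [mabs_inv'])
    rw [← pow_two] at h3
    exact absurd (h 2) (not_lt.2 h3)

/-- the quotient by a convex subgroup of a centrally ordered group is centrally orderable -/
theorem Cvx.exists_order_quot (hc : Central G) {D : Subgroup G} (h : Cvx D) [hn : D.Normal] :
    ∃ (_ : LinearOrder (G ⧸ D)) (_ : MulLeftMono (G ⧸ D)) (_ : MulRightMono (G ⧸ D)),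
      Central (G ⧸ D) := by
  obtain ⟨o, l, r, hlt⟩ := (h.biRelCone hn).exists_order
  refine ⟨o, l, r, ?_⟩
  apply central_of_pos
  intro a ha y n
  obtain ⟨a, rfl⟩ := QuotientGroup.mk_surjective a
  obtain ⟨y, rfl⟩ := QuotientGroup.mk_surjective y
  have ha' := (hlt a).1 ha
  obtain ⟨haD, ha1⟩ := ha'
  have ha2 : a ≠ 1 := ne_of_gt ha1
  have key : ∀ w : G, Sm w a → 1 < a * w → (1 : G ⧸ D) < ((a * w : G) : G ⧸ D) := by
    intro w hw h1
    rw [hlt]
    refine ⟨fun h2 => haD ?_, h1⟩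
    have h3 := hw.le_sq
    refine h ((a * w) ^ 2) (D.pow_mem h2 2) a ?_
    rw [mabs_pow', pow_two]; exact h3
  have hsm := hc.sm ha2 y
  have hsm' : ∀ w : G, Sm w a → 1 < a * w := by
    intro w hw
    have h1 := hw.lt
    rw [mabs_of_one_le' ha1.le] at h1
    have h2 : w⁻¹ < a := (inv_le_mabs' w).trans_lt h1
    have := mul_lt_mul_left h2 w
    simpa using this
  have hsmn : ∀ w : G, Sm w a → Sm (w ^ n) a := by
    intro w hw
    exact hw.of_le_pow n (by rw [mabs_pow'])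
  constructor
  · exact key _ (hsmn _ hsm) (hsm' _ (hsmn _ hsm))
  · exact key _ (hsmn _ hsm.inv) (hsm' _ (hsmn _ hsm.inv))

end Quot

end Pool.Agent.H12.CR
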