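import Pool.Agent.H12.CR.Z

/-! MP_8a02cf_al: `G / Z(G)` is centrally orderable when `G` is. -/

set_option linter.unusedSectionVars false

namespace Pool.Agent.H12.CR

open scoped commutatorElement

section ZZ

variable {G : Type*} [Group G]

/-- the elements central modulo `D` -/
def zd (D : Subgroup G) (hD : D.Normal) : Subgroup G where
  carrier := {g | ∀ y : G, ⁅g, y⁆ ∈ D}
  one_mem' := by
    intro y
    rw [commutatorElement_one_left]
    exact D.one_mem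
  mul_mem' := by
    intro a b ha hb y
    have h1 : ⁅a * b, y⁆ = a * ⁅b, y⁆ * a⁻¹ * ⁅a, y⁆ := by
      rw [commutatorElement_def, commutatorElement_def, commutatorElement_def]; group
    rw [h1]
    exact D.mul_mem (hD.conj_mem _ (hb y) a) (ha y)
  inv_mem' := by
    intro a ha y
    have h1 : ⁅a⁻¹, y⁆ = a⁻¹ * ⁅a, y⁆⁻¹ * a⁻¹⁻¹ := by
      rw [commutatorElement_def, commutatorElement_def]; group
    rw [h1]
    exact hD.conj_mem _ (D.inv_mem (ha y)) _

lemma mem_zd {D : Subgroup G} {hD : D.Normal} {g : G} : g ∈ zd D hD ↔ ∀ y : G, ⁅g, y⁆ ∈ D :=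
  Iff.rfl

lemma zd_mono {D D' : Subgroup G} {hD : D.Normal} {hD' : D'.Normal} (h : D ≤ D') :
    zd D hD ≤ zd D' hD' := fun _ hg y => h (hg y)

lemma zd_normal {D : Subgroup G} (hD : D.Normal) : (zd D hD).Normal := by
  refine ⟨fun g hg x y => ?_⟩
  have h1 : ⁅x * g * x⁻¹, y⁆ = x * ⁅g, x⁻¹ * y * x⁆ * x⁻¹ := by
    rw [commutatorElement_def, commutatorElement_def]; group
  rw [h1]
  exact hD.conj_mem _ (hg _) x

variable [LinearOrder G] [MulLeftMono G] [MulRightMono G]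

lemma pow_conj_eq_iff {g y : G} {n : ℕ} (hn : 0 < n) (h : y * g ^ n * y⁻¹ = g ^ n) :
    y * g * y⁻¹ = g := by
  rw [← conj_pow] at h
  rcases lt_trichotomy (y * g * y⁻¹) g with h1 | h1 | h1
  · exact absurd h (ne_of_lt (pow_lt_pow_left' hn.ne' h1))
  · exact h1
  · exact absurd h (ne_of_gt (pow_lt_pow_left' hn.ne' h1))

variable (hc : Central G)

include hc in
lemma zd_isolated {D : Subgroup G} (h : Cvx D) {g : G} {n : ℕ} (hn : 0 < n)
    (hg : g ^ n ∈ zd D (h.normal hc)) : g ∈ zd D (h.normal hc) := by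
  haveI := h.normal hc
  obtain ⟨o, l, r, -⟩ := h.exists_order_quot hc
  intro y
  have h1 : (y : G ⧸ D) * (g : G ⧸ D) ^ n * (y : G ⧸ D)⁻¹ = (g : G ⧸ D) ^ n := by
    have h2 := hg y
    rw [← QuotientGroup.eq_one_iff] at h2
    rw [commutatorElement_def] at h2
    have h3 : ((g ^ n : G) : G ⧸ D) * (y : G ⧸ D) * ((g ^ n : G) : G ⧸ D)⁻¹ * (y : G ⧸ D)⁻¹ = 1 := h2
    have h4 : ((g ^ n : G) : G ⧸ D) = (g : G ⧸ D) ^ n := rfl
    rw [h4] at h3
    have h5 := mul_inv_eq_one.1 h3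
    have h6 := mul_inv_eq_iff_eq_mul.1 h5
    rw [← h6, mul_inv_cancel_right]
  have h2 := pow_conj_eq_iff hn h1
  rw [← QuotientGroup.eq_one_iff, commutatorElement_def]
  show (g : G ⧸ D) * (y : G ⧸ D) * (g : G ⧸ D)⁻¹ * (y : G ⧸ D)⁻¹ = 1
  conv_lhs => enter [1, 1, 1]; rw [← h2]
  group

/-- the convex subgroups modulo which `g` is not central -/
def US (g : G) : Set (Subgroup G) := {D | ∃ h : Cvx D, g ∉ zd D (h.normal hc)}

/-- the lower end of the jump at `g` -/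
def sMinus (g : G) (hg : g ∉ Subgroup.center G) : Subgroup G where
  carrier := {s | ∃ (D : Subgroup G) (h : Cvx D), g ∉ zd D (h.normal hc) ∧ s ∈ zd D (h.normal hc)}
  one_mem' := by
    refine ⟨⊥, Cvx.bot, ?_, (zd _ _).one_mem⟩
    intro h
    apply hg
    rw [Subgroup.mem_center_iff]
    intro y
    have := h y
    rw [Subgroup.mem_bot, commutatorElement_def] at this
    exact (mul_inv_eq_iff_eq_mul.1 (mul_inv_eq_one.1 this)).symm
  mul_mem' := by
    rintro a b ⟨D, hD, h1, h2⟩ ⟨D', hD', h1', h2'⟩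
    rcases hD.total hD' with h | h
    · exact ⟨D', hD', h1', (zd _ _).mul_mem (zd_mono h h2) h2'⟩
    · exact ⟨D, hD, h1, (zd _ _).mul_mem h2 (zd_mono h h2')⟩
  inv_mem' := by
    rintro a ⟨D, hD, h1, h2⟩
    exact ⟨D, hD, h1, (zd _ _).inv_mem h2⟩

/-- the upper end of the jump at `g` -/
def sPlus (g : G) : Subgroup G where
  carrier := {s | ∀ (D : Subgroup G) (h : Cvx D), g ∈ zd D (h.normal hc) → s ∈ zd D (h.normal hc)}
  one_mem' := fun D h _ => (zd _ _).one_mem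
  mul_mem' := fun ha hb D h hg => (zd _ _).mul_mem (ha D h hg) (hb D h hg)
  inv_mem' := fun ha D h hg => (zd _ _).inv_mem (ha D h hg)

variable {hc}

lemma mem_sMinus {g s : G} {hg : g ∉ Subgroup.center G} : s ∈ sMinus hc g hg ↔
    ∃ (D : Subgroup G) (h : Cvx D), g ∉ zd D (h.normal hc) ∧ s ∈ zd D (h.normal hc) := Iff.rfl

lemma mem_sPlus {g s : G} : s ∈ sPlus hc g ↔
    ∀ (D : Subgroup G) (h : Cvx D), g ∈ zd D (h.normal hc) → s ∈ zd D (h.normal hc) := Iff.rfl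

lemma sMinus_normal {g : G} (hg : g ∉ Subgroup.center G) : (sMinus hc g hg).Normal := by
  refine ⟨?_⟩
  rintro s ⟨D, h, h1, h2⟩ y
  exact ⟨D, h, h1, (zd_normal _).conj_mem _ h2 y⟩

lemma sMinus_le_sPlus {g : G} (hg : g ∉ Subgroup.center G) : sMinus hc g hg ≤ sPlus hc g := by
  rintro s ⟨D, h, h1, h2⟩ D' h' h3
  rcases h.total h' with h4 | h4
  · exact zd_mono h4 h2
  · exact absurd (zd_mono h4 h3) h1

lemma self_mem_sPlus (g : G) : g ∈ sPlus hc g := fun _ _ h => h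

lemma self_not_mem_sMinus {g : G} (hg : g ∉ Subgroup.center G) : g ∉ sMinus hc g hg := by
  rintro ⟨D, h, h1, h2⟩
  exact h1 h2

lemma comm_mem_sMinus {g : G} (hg : g ∉ Subgroup.center G) {s : G} (hs : s ∈ sPlus hc g) (y : G) :
    ⁅s, y⁆ ∈ sMinus hc g hg := by
  by_cases hw : ⁅s, y⁆ = 1
  · rw [hw]; exact (sMinus hc g hg).one_mem
  have hcv := smSub_cvx ⁅s, y⁆ hw
  refine ⟨smSub ⁅s, y⁆ hw, hcv, ?_, ?_⟩
  · intro h
    have h1 := hs _ hcv h y
    exact self_not_mem_smSub _ hw h1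
  · intro y'
    exact hc.sm hw y'

lemma sMinus_isolated {g : G} (hg : g ∉ Subgroup.center G) {s : G} {n : ℕ} (hn : 0 < n)
    (hs : s ^ n ∈ sMinus hc g hg) : s ∈ sMinus hc g hg := by
  obtain ⟨D, h, h1, h2⟩ := hs
  exact ⟨D, h, h1, zd_isolated hc h hn h2⟩

lemma center_le_sMinus {g : G} (hg : g ∉ Subgroup.center G) :
    Subgroup.center G ≤ sMinus hc g hg := by
  intro z hz
  refine ⟨⊥, Cvx.bot, ?_, ?_⟩
  · intro h
    apply hg
    rw [Subgroup.mem_center_iff]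
    intro y
    have := h y
    rw [Subgroup.mem_bot, commutatorElement_def] at this
    exact (mul_inv_eq_iff_eq_mul.1 (mul_inv_eq_one.1 this)).symm
  · intro y
    rw [Subgroup.mem_bot, commutatorElement_def, mul_inv_eq_one, mul_inv_eq_iff_eq_mul]
    exact (Subgroup.mem_center_iff.1 hz y).symm

lemma US_eq_of_mem {g h : G} (hg : g ∉ Subgroup.center G) (h1 : h ∈ sPlus hc g)
    (h2 : h ∉ sMinus hc g hg) : US hc h = US hc g := by
  ext D
  constructor
  · rintro ⟨hD, h3⟩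
    refine ⟨hD, fun h4 => h3 (h1 D hD h4)⟩
  · rintro ⟨hD, h3⟩
    refine ⟨hD, fun h4 => h2 ⟨D, hD, h3, h4⟩⟩

lemma sPlus_eq {g h : G} (e : US hc g = US hc h) : sPlus hc g = sPlus hc h := by
  ext s
  have h1 : ∀ (D : Subgroup G) (hD : Cvx D), g ∈ zd D (hD.normal hc) ↔ h ∈ zd D (hD.normal hc) := by
    intro D hD
    have h2 : D ∈ US hc g ↔ D ∈ US hc h := by rw [e]
    constructor
    · intro h3
      by_contra h4
      obtain ⟨_, h5⟩ := h2.2 ⟨hD, h4⟩
      exact h5 h3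
    · intro h3
      by_contra h4
      obtain ⟨_, h5⟩ := h2.1 ⟨hD, h4⟩
      exact h5 h3
  constructor
  · intro hs D hD h3
    exact hs D hD ((h1 D hD).2 h3)
  · intro hs D hD h3
    exact hs D hD ((h1 D hD).1 h3)

lemma mem_sMinus_iff_of_eq {g h : G} (hg : g ∉ Subgroup.center G) (hh : h ∉ Subgroup.center G)
    (e : US hc g = US hc h) {s : G} : s ∈ sMinus hc g hg ↔ s ∈ sMinus hc h hh := by
  constructor
  · rintro ⟨D, hD, h1, h2⟩
    obtain ⟨_, h3⟩ : D ∈ US hc h := by rw [← e]; exact ⟨hD, h1⟩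
    exact ⟨D, hD, h3, h2⟩
  · rintro ⟨D, hD, h1, h2⟩
    obtain ⟨_, h3⟩ : D ∈ US hc g := by rw [e]; exact ⟨hD, h1⟩
    exact ⟨D, hD, h3, h2⟩

/-- a good cone for the jump at `g` -/
structure Good (hc : Central G) (g : G) (hg : g ∉ Subgroup.center G) (R : Set G) : Prop where
  sub : ∀ s ∈ R, s ∈ sPlus hc g
  disj : ∀ s ∈ R, s ∉ sMinus hc g hg
  mul : ∀ s ∈ R, ∀ t ∈ R, s * t ∈ R
  left : ∀ s ∈ sMinus hc g hg, ∀ t ∈ R, s * t ∈ R
  tri : ∀ s ∈ sPlus hc g, s ∉ sMinus hc g hg → s ∈ R ∨ s⁻¹ ∈ R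

lemma exists_good (g : G) (hg : g ∉ Subgroup.center G) : ∃ R : Set G, Good hc g hg R := by
  haveI hN := sMinus_normal (hc := hc) hg
  let N := sMinus hc g hg
  let T : Subgroup (G ⧸ N) := (sPlus hc g).map (QuotientGroup.mk' N)
  have hTcomm : ∀ a b : T, a * b = b * a := by
    rintro ⟨_, a, ha, rfl⟩ ⟨_, b, hb, rfl⟩
    apply Subtype.ext
    show ((a : G ⧸ N)) * (b : G ⧸ N) = (b : G ⧸ N) * (a : G ⧸ N)
    have h1 : ((⁅a, b⁆ : G) : G ⧸ N) = 1 := (QuotientGroup.eq_one_iff _).2 (comm_mem_sMinus hg ha b)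
    rw [commutatorElement_def] at h1
    have h2 : (a : G ⧸ N) * (b : G ⧸ N) * (a : G ⧸ N)⁻¹ * (b : G ⧸ N)⁻¹ = 1 := h1
    exact mul_inv_eq_iff_eq_mul.1 (mul_inv_eq_one.1 h2)
  have hTtf : ∀ a : T, ∀ n : ℕ, 0 < n → a ^ n = 1 → a = 1 := by
    rintro ⟨_, a, ha, rfl⟩ n hn h1
    have h2 : ((a ^ n : G) : G ⧸ N) = 1 := congrArg Subtype.val h1
    have h3 := sMinus_isolated hg hn ((QuotientGroup.eq_one_iff _).1 h2)
    apply Subtype.ext
    exact (QuotientGroup.eq_one_iff a).2 h3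
  obtain ⟨P, hP⟩ := levi hTcomm hTtf
  have hmemT : ∀ a : G, a ∈ sPlus hc g → (a : G ⧸ N) ∈ T := fun a ha => ⟨a, ha, rfl⟩
  have hPinv : ∀ a : T, a ∈ P → a⁻¹ ∉ P := by
    intro a ha h1
    have := hP.mul ha h1
    rw [mul_inv_cancel] at this
    exact hP.one this
  refine ⟨{a | ∃ ha : a ∈ sPlus hc g, (⟨(a : G ⧸ N), hmemT a ha⟩ : T) ∈ P}, ?_, ?_, ?_, ?_, ?_⟩
  · rintro s ⟨hs, _⟩; exact hs
  · rintro s ⟨hs, hsP⟩ h1
    have h2 : (⟨(s : G ⧸ N), hmemT s hs⟩ : T) = 1 := by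
      apply Subtype.ext
      exact (QuotientGroup.eq_one_iff s).2 h1
    rw [h2] at hsP
    exact hP.one hsP
  · rintro s ⟨hs, hsP⟩ t ⟨ht, htP⟩
    exact ⟨(sPlus hc g).mul_mem hs ht, hP.mul hsP htP⟩
  · rintro s hs t ⟨ht, htP⟩
    refine ⟨(sPlus hc g).mul_mem (sMinus_le_sPlus hg hs) ht, ?_⟩
    have h2 : (⟨((s * t : G) : G ⧸ N), hmemT _ ((sPlus hc g).mul_mem (sMinus_le_sPlus hg hs) ht)⟩ : T)
        = ⟨(t : G ⧸ N), hmemT t ht⟩ := by
      apply Subtype.ext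
      show ((s : G ⧸ N)) * (t : G ⧸ N) = (t : G ⧸ N)
      rw [(QuotientGroup.eq_one_iff s).2 hs, one_mul]
    rw [h2]; exact htP
  · intro s hs hs'
    have h1 : (⟨(s : G ⧸ N), hmemT s hs⟩ : T) ≠ 1 := by
      intro h
      exact hs' ((QuotientGroup.eq_one_iff s).1 (congrArg Subtype.val h))
    rcases hP.tri _ h1 with h2 | h2
    · left; exact ⟨hs, h2⟩
    · right; exact ⟨(sPlus hc g).inv_mem hs, h2⟩

/-- choice of the cones, depending only on the jump -/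
lemma exists_cones : ∃ R : Set (Subgroup G) → Set G, ∀ (g : G) (hg : g ∉ Subgroup.center G),
    Good hc g hg (R (US hc g)) := by
  classical
  have h : ∀ U : Set (Subgroup G), ∃ R : Set G, ∀ (g : G) (hg : g ∉ Subgroup.center G),
      US hc g = U → Good hc g hg R := by
    intro U
    by_cases hU : ∃ g, g ∉ Subgroup.center G ∧ US hc g = U
    · obtain ⟨g0, hg0, e0⟩ := hU
      obtain ⟨R, hR⟩ := exists_good (hc := hc) g0 hg0
      refine ⟨R, ?_⟩
      intro g hg e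
      have e1 : US hc g = US hc g0 := by rw [e, e0]
      refine ⟨?_, ?_, hR.mul, ?_, ?_⟩
      · intro s hs; rw [sPlus_eq e1]; exact hR.sub s hs
      · intro s hs h1; exact hR.disj s hs ((mem_sMinus_iff_of_eq hg hg0 e1).1 h1)
      · intro s hs t ht; exact hR.left s ((mem_sMinus_iff_of_eq hg hg0 e1).1 hs) t ht
      · intro s hs hs'
        rw [sPlus_eq e1] at hs
        exact hR.tri s hs (fun h1 => hs' ((mem_sMinus_iff_of_eq hg hg0 e1).2 h1))
    · refine ⟨∅, fun g hg e => absurd ⟨g, hg, e⟩ hU⟩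
  choose R hR using h
  exact ⟨R, fun g hg => hR _ g hg rfl⟩

lemma US_total (g h : G) : US hc g ⊆ US hc h ∨ US hc h ⊆ US hc g := by
  by_contra hcon
  push Not at hcon
  obtain ⟨h1, h2⟩ := hcon
  obtain ⟨D, ⟨hD, hgD⟩, hD'⟩ := Set.not_subset.1 h1
  obtain ⟨E, ⟨hE, hhE⟩, hE'⟩ := Set.not_subset.1 h2
  have h3 : h ∈ zd D (hD.normal hc) := by
    by_contra h4; exact hD' ⟨hD, h4⟩
  have h5 : g ∈ zd E (hE.normal hc) := by
    by_contra h4; exact hE' ⟨hE, h4⟩
  rcases hD.total hE with h6 | h6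
  · exact hhE (zd_mono h6 h3)
  · exact hgD (zd_mono h6 h5)

lemma mem_sMinus_of_ssubset {g h : G} (hh : h ∉ Subgroup.center G) (e : US hc g ⊆ US hc h)
    (ne : US hc g ≠ US hc h) : g ∈ sMinus hc h hh := by
  have : ¬ US hc h ⊆ US hc g := fun h1 => ne (Set.Subset.antisymm e h1)
  obtain ⟨D, ⟨hD, h1⟩, h2⟩ := Set.not_subset.1 this
  refine ⟨D, hD, h1, ?_⟩
  by_contra h3
  exact h2 ⟨hD, h3⟩

/-- (Z) -/
theorem exists_order_quot_center (hc : Central G) :
    ∃ (_ : LinearOrder (G ⧸ Subgroup.center G)) (_ : MulLeftMono (G ⧸ Subgroup.center G))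
      (_ : MulRightMono (G ⧸ Subgroup.center G)), Central (G ⧸ Subgroup.center G) := by
  obtain ⟨R, hR⟩ := exists_cones (hc := hc)
  let Q : Set G := {g | g ∉ Subgroup.center G ∧ g ∈ R (US hc g)}
  have mk : ∀ (g : G) (hg : g ∉ Subgroup.center G) (h : G), h ∈ R (US hc g) → h ∈ Q := by
    intro g hg h hh
    have h1 := US_eq_of_mem hg ((hR g hg).sub h hh) ((hR g hg).disj h hh)
    refine ⟨fun h2 => (hR g hg).disj h hh (center_le_sMinus hg h2), ?_⟩
    rw [h1]; exact hh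
  have left : ∀ (g : G) (hg : g ∈ Q) (s : G), s ∈ sMinus hc g hg.1 → s * g ∈ Q := by
    intro g hg s hs
    exact mk g hg.1 _ ((hR g hg.1).left s hs g hg.2)
  have right : ∀ (g : G) (hg : g ∈ Q) (s : G), s ∈ sMinus hc g hg.1 → g * s ∈ Q := by
    intro g hg s hs
    have h1 := (sMinus_normal (hc := hc) hg.1).conj_mem s hs g
    have h2 := left g hg _ h1
    have h3 : g * s * g⁻¹ * g = g * s := by group
    rwa [h3] at h2
  have hQ : BiRelCone (Subgroup.center G) Q := by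
    refine ⟨?_, ?_, ?_, ?_, ?_⟩
    · intro a b ha hb
      by_cases e : US hc a = US hc b
      · apply mk a ha.1
        apply (hR a ha.1).mul _ ha.2
        rw [e]; exact hb.2
      · rcases US_total (hc := hc) a b with h | h
        · exact left b hb a (mem_sMinus_of_ssubset hb.1 h e)
        · exact right a ha b (mem_sMinus_of_ssubset ha.1 h (Ne.symm e))
    · intro h q hh hq
      exact left q hq h (center_le_sMinus hq.1 hh)
    · intro a ha h; exact h.1 ha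
    · intro a ha
      rcases (hR a ha).tri a (self_mem_sPlus a) (self_not_mem_sMinus ha) with h | h
      · left; exact ⟨ha, h⟩
      · right; exact mk a ha _ h
    · intro a ha y
      have h1 : y * a * y⁻¹ = ⁅a, y⁆⁻¹ * a := by
        rw [commutatorElement_def]; group
      rw [h1]
      exact left a ha _ ((sMinus hc a ha.1).inv_mem (comm_mem_sMinus ha.1 (self_mem_sPlus a) y))
  obtain ⟨o, l, r, hlt⟩ := hQ.exists_order
  refine ⟨o, l, r, ?_⟩
  apply central_of_pos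
  intro a ha y n
  obtain ⟨a, rfl⟩ := QuotientGroup.mk_surjective a
  obtain ⟨y, rfl⟩ := QuotientGroup.mk_surjective y
  have haQ := (hlt a).1 ha
  have hw := comm_mem_sMinus haQ.1 (self_mem_sPlus (hc := hc) a) y
  constructor
  · have h1 : a * ⁅a, y⁆ ^ n ∈ Q := right a haQ _ ((sMinus hc a haQ.1).pow_mem hw n)
    exact (hlt _).2 h1
  · have h1 : a * (⁅a, y⁆⁻¹) ^ n ∈ Q := right a haQ _ ((sMinus hc a haQ.1).pow_mem
      ((sMinus hc a haQ.1).inv_mem hw) n)
    exact (hlt _).2 h1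

end ZZ

end Pool.Agent.H12.CR
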